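import Pool.Agent.Lib.H16C.Defs

/-!
# H16E: definitions

See PROOF.md.  The library H16C is used throughout.
-/

open WeierstrassCurve NumberField IsDedekindDomain

namespace H16E

open H16C

variable {k : Type*} [Field k] {Ω : Type*} [Field Ω] [Algebra k Ω] [DecidableEq Ω]
  {W : WeierstrassCurve.Affine k} {n : ℕ} {S : Setup W Ω n} {b : ℕ}

/-- `D ∈ k` is admissible for the family: it has the valuation of `l` at the places at which a
conjugate of `a l` has the valuation of `l`, and the valuation of `l₁` at the places at which a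
conjugate of `a l` has the inverse of the valuation of `l₁` -/
def AdK (Φ : Fam S b) (D : k) : Prop :=
  D ≠ 0 ∧ ∀ A : ValuationSubring Ω, ∀ l ∈ Φ.T, ∀ h : Ω ≃ₐ[k] Ω,
    (A.valuation (l : Ω) < 1 → A.valuation (h (Φ.a l)) = A.valuation (l : Ω) →
      A.valuation (algebraMap k Ω D) = A.valuation (l : Ω)) ∧
    (A.valuation (Φ.l₁ : Ω) < 1 → A.valuation (h (Φ.a l)) * A.valuation (Φ.l₁ : Ω) = 1 →
      A.valuation (algebraMap k Ω D) = A.valuation (Φ.l₁ : Ω))

/-- the value at a place with `S.Loc` -/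
theorem AdK.loc {Φ : Fam S b} {D : k} (hd : AdK Φ D) (l : Φ.T) {A : ValuationSubring Ω}
    (hA : S.Loc l (Φ.a l) A) : A.valuation (algebraMap k Ω D) = A.valuation ((l : ℕ) : Ω) :=
  (hd.2 A l l.2 1).1 hA.lt hA.eq

theorem AdK.ne {Φ : Fam S b} {D : k} (hd : AdK Φ D) : algebraMap k Ω D ≠ 0 := by
  rw [Ne, map_eq_zero]
  exact hd.1

end H16E
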