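import Pool.Agent.Lib.H16C.PT3
import Pool.Agent.Lib.H16E.A0
import Pool.Agent.Lib.H16E.A1

/-!
# A2 (copy of H16C/PT3 for `D ∈ k`): the relation `φ Q - Q ≡ w(φ) - kap_δ(φ) e(y l)` modulo `E₁`
-/

namespace H16E

open H16C

variable {k : Type*} [Field k] [NumberField k] {Ω : Type*} [Field Ω] [Algebra k Ω] [IsAlgClosed Ω]
  [Algebra.IsAlgebraic k Ω] [CharZero Ω] [DecidableEq Ω] {W : WeierstrassCurve.Affine k}
  [W.IsShortNF] [W.IsElliptic] {n b : ℕ} [NeZero n] {S : Setup W Ω n} (Φ : Fam S b) (y : Φ.T → ZMod n)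

/-- an inertia element `g₀` with `g₀ δ = ζ δ` and its powers -/
theorem commonK (hb : Bad W Ω n b) {D : k} (hd : AdK Φ D) {δ : Ω} (hδ : δ ^ n = algebraMap k Ω D)
    (Q : Pt W Ω) (l : Φ.T) {A : ValuationSubring Ω} (hA : S.Loc l (Φ.a l) A) :
    ∃ g₀ : Ω ≃ₐ[k] Ω, ∀ i : ℕ, g₀ ^ i ∈ S.N ∧ (g₀ ^ i) δ = S.ζ ^ i * δ ∧
      Φ.w y (g₀ ^ i) = i • S.e (y l) ∧ InE1 A.valuation (rho W (g₀ ^ i) Q - Q) := by
  have hint : ∀ x ∈ ({xc Q, yc Q} : Set Ω), IsIntegral k x := fun x _ =>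
    Algebra.IsIntegral.isIntegral x
  have hfin : FiniteDimensional k (IntermediateField.adjoin k ({xc Q, yc Q} : Set Ω)) :=
    IntermediateField.finiteDimensional_adjoin hint
  obtain ⟨F, hF, hEF, hLF, hδF, hα, hst, g₀, hg₀, hin, hgδ⟩ := exists_g0K Φ l hA hd hδ
    (IntermediateField.adjoin k ({xc Q, yc Q} : Set Ω))
  have hxF : xc Q ∈ F := hEF (IntermediateField.subset_adjoin k _ (by simp))
  have hyF : yc Q ∈ F := hEF (IntermediateField.subset_adjoin k _ (by simp))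
  have hδ0 : δ ≠ 0 := by
    intro h
    rw [h, zero_pow (NeZero.ne n)] at hδ
    exact hd.ne hδ.symm
  have hζ : g₀ S.ζ = S.ζ := (S.fix g₀ hg₀).1
  have hAb : A.valuation (b : Ω) = 1 := val_b_eq_one Φ l.2 hA.lt
  have hw : Φ.w y g₀ = S.e (y l) := by
    rw [w_inertK Φ y hb l hA hd hδ hLF hα hδF hg₀ hin]
    have h1 : (kap S.ζ δ g₀ : ZMod n) = (1 : ℕ) := by
      apply kap_eq S.hζ hδ0
      rw [pow_one]
      exact hgδ
    rw [h1, Nat.cast_one, mul_one]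
  have hw1 : Φ.w y 1 = 0 := by
    have h1 := Φ.w_mul y 1 1
    rw [map_one] at h1
    change Φ.w y (1 * 1) = Φ.w y 1 + Φ.w y 1 at h1
    rw [mul_one] at h1
    exact left_eq_add.mp h1
  refine ⟨g₀, fun i => ⟨S.N.pow_mem hg₀ i, ?_, ?_, ?_⟩⟩
  · induction i with
    | zero => rw [pow_zero, AlgEquiv.one_apply, pow_zero, one_mul]
    | succ i ih =>
      rw [pow_succ', AlgEquiv.mul_apply, ih, map_mul, map_pow, hζ, hgδ, pow_succ]
      ring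
  · induction i with
    | zero => rw [pow_zero, zero_smul, hw1]
    | succ i ih => rw [pow_succ', Φ.w_hom y hg₀ (S.N.pow_mem hg₀ i), ih, hw, add_smul, one_smul,
        add_comm]
  · exact rho_sub_mem hb hAb (PT3_inert_pow (hst g₀) hin i) hxF hyF

theorem frob_relK (hb : Bad W Ω n b) {D : k} (hd : AdK Φ D) {δ : Ω} (hδ : δ ^ n = algebraMap k Ω D)
    {Q : Pt W Ω} (hQ : Φ.Triv y δ Q) (l : Φ.T) {A : ValuationSubring Ω}
    (hA : S.Loc l (Φ.a l) A) {φ : Ω ≃ₐ[k] Ω} (hφ : φ ∈ S.N) :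
    InE1 A.valuation (rho W φ Q - Q - Φ.w y φ + S.e (y l * kap S.ζ δ φ)) := by
  obtain ⟨g₀, hg₀⟩ := commonK Φ y hb hd hδ Q l hA
  have hδ0 : δ ≠ 0 := by
    intro h
    rw [h, zero_pow (NeZero.ne n)] at hδ
    exact hd.ne hδ.symm
  obtain ⟨i, hi⟩ : ∃ i : ℕ, i = (kap S.ζ δ φ : ZMod n).val := ⟨_, rfl⟩
  have hi' : (kap S.ζ δ φ : ZMod n) = (i : ZMod n) := by
    rw [hi, ZMod.natCast_zmod_val]
  have hfix : ∀ g : Ω ≃ₐ[k] Ω, g (δ ^ n) = δ ^ n := by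
    intro g
    rw [hδ, AlgEquiv.commutes]
  have hφδ : φ δ = S.ζ ^ i * δ := by
    rw [hi]
    exact kap_spec S.hζ hδ0 (hfix φ)
  obtain ⟨hN, hgδ, hgw, hgE⟩ := hg₀ i
  obtain ⟨h, hh⟩ : ∃ h : Ω ≃ₐ[k] Ω, h = (g₀ ^ i)⁻¹ * φ := ⟨_, rfl⟩
  have hφh : φ = g₀ ^ i * h := by rw [hh]; group
  have hhN : h ∈ S.N := by rw [hh]; exact S.N.mul_mem (S.N.inv_mem hN) hφ
  have hhδ : h δ = δ := by
    have h1 : (g₀ ^ i) (h δ) = (g₀ ^ i) δ := by
      rw [← AlgEquiv.mul_apply, ← hφh, hφδ, hgδ]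
    exact (g₀ ^ i).injective h1
  have hQh := hQ h hhδ
  have hQh' : rho W h Q = Q + Φ.w y h := by rw [hQh]; abel
  have e1 : rho W φ Q = rho W (g₀ ^ i) Q + Φ.w y h := by
    rw [hφh, map_mul]
    change rho W (g₀ ^ i) (rho W h Q) = _
    rw [hQh', map_add, S.fix_tors hN (Φ.nsmul_w y h)]
  have e2 : Φ.w y φ = i • S.e (y l) + Φ.w y h := by
    rw [hφh, Φ.w_hom y hN hhN, hgw]
  have e3 : S.e (y l * kap S.ζ δ φ) = i • S.e (y l) := by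
    rw [hi', mul_comm, ← nsmul_eq_mul, map_nsmul]
  have e4 : rho W φ Q - Q - Φ.w y φ + S.e (y l * kap S.ζ δ φ) = rho W (g₀ ^ i) Q - Q := by
    rw [e1, e2, e3]
    abel
  rw [e4]
  exact hgE

end H16E
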