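import Pool.Agent.Lib.H16E.A2
import Pool.Agent.Lib.H16C.PT2

/-!
# A3 (copy of H16C/PT2 for `D ∈ k`): the trace point
-/

namespace H16E

open H16C

variable {k : Type*} [Field k] [NumberField k] {Ω : Type*} [Field Ω] [Algebra k Ω] [IsAlgClosed Ω]
  [Algebra.IsAlgebraic k Ω] [CharZero Ω] [DecidableEq Ω] {W : WeierstrassCurve.Affine k}
  [W.IsShortNF] [W.IsElliptic] {n b : ℕ} [NeZero n] {S : Setup W Ω n} (Φ : Fam S b) (y : Φ.T → ZMod n)

theorem exists_traceK (hb : Bad W Ω n b) (hT : Φ.T.Nonempty) {D : k} (hd : AdK Φ D) {δ : Ω}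
    (hδ : δ ^ n = algebraMap k Ω D) {Q : Pt W Ω} (hQ : Φ.Triv y δ Q) : ∃ P, Φ.IsTrace y Q P := by
  have hδ0 : δ ≠ 0 := by
    intro h
    rw [h, zero_pow (NeZero.ne n)] at hδ
    exact hd.ne hδ.symm
  have hfix : ∀ g : Ω ≃ₐ[k] Ω, g (δ ^ n) = δ ^ n := by
    intro g
    rw [hδ, AlgEquiv.commutes]
  -- the function `φ`
  obtain ⟨φ, hφ⟩ : ∃ φ : (Ω ≃ₐ[k] Ω) → Pt W Ω, ∀ g, φ g = rho W g Q - Φ.w y g := ⟨_, fun _ => rfl⟩
  -- `φ g` depends only on the Kummer character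
  have hφ1 : ∀ g g' : Ω ≃ₐ[k] Ω, g ∈ S.N → g' ∈ S.N →
      (kap S.ζ δ g : ZMod n) = kap S.ζ δ g' → φ g = φ g' := by
    intro g g' hg hg' hkap
    obtain ⟨h, hh⟩ : ∃ h : Ω ≃ₐ[k] Ω, h = g⁻¹ * g' := ⟨_, rfl⟩
    have hgh : g' = g * h := by rw [hh]; group
    have hhN : h ∈ S.N := by rw [hh]; exact S.N.mul_mem (S.N.inv_mem hg) hg'
    have hhδ : h δ = δ := by
      have h1 : g (h δ) = g δ := by
        rw [← AlgEquiv.mul_apply, ← hgh, kap_spec S.hζ hδ0 (hfix g'), ← hkap,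
          ← kap_spec S.hζ hδ0 (hfix g)]
      exact g.injective h1
    have hQh := hQ h hhδ
    have hQh' : rho W h Q = Q + Φ.w y h := by rw [hQh]; abel
    have e1 : rho W g' Q = rho W g Q + Φ.w y h := by
      rw [hgh, map_mul]
      change rho W g (rho W h Q) = _
      rw [hQh', map_add, S.fix_tors hg (Φ.nsmul_w y h)]
    rw [hφ, hφ, e1, hgh, Φ.w_hom y hg hhN]
    abel
  -- the element `c`
  obtain ⟨l₀, hl₀⟩ := hT
  obtain ⟨A₀, hA₀⟩ := Φ.loc l₀ hl₀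
  obtain ⟨c, hc⟩ := commonK Φ y hb hd hδ Q ⟨l₀, hl₀⟩ hA₀
  have hkapc : ∀ (c : Ω ≃ₐ[k] Ω) (z : ZMod n), (c ^ z.val) δ = S.ζ ^ z.val * δ →
      (kap S.ζ δ (c ^ z.val) : ZMod n) = z := by
    intro c z hz
    rw [kap_eq S.hζ hδ0 hz, ZMod.natCast_zmod_val]
  have hψ : ∀ g ∈ S.N, φ g = φ (c ^ (kap S.ζ δ g : ZMod n).val) := by
    intro g hg
    apply hφ1 g _ hg (hc _).1
    rw [hkapc c _ (hc _).2.1]
  refine ⟨∑ z : ZMod n, φ (c ^ z.val), ?_, ?_⟩
  · intro g hg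
    have e1 : ∀ z : ZMod n, rho W g (φ (c ^ z.val)) =
        φ (c ^ ((kap S.ζ δ g : ZMod n) + z).val) + Φ.w y g := by
      intro z
      have h1 : rho W g (φ (c ^ z.val)) = φ (g * c ^ z.val) + Φ.w y g := by
        rw [hφ, hφ, map_sub, S.fix_tors hg (Φ.nsmul_w y _), map_mul, Φ.w_hom y hg (hc _).1]
        change rho W g (rho W (c ^ z.val) Q) - _ = rho W g (rho W (c ^ z.val) Q) - _ + _
        abel
      rw [h1, hψ _ (S.N.mul_mem hg (hc _).1), kap_mul S.hζ hδ0 (S.fix g hg).1 (hfix _) (hfix _),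
        hkapc c z (hc _).2.1]
    rw [map_sum, Finset.sum_congr rfl fun z _ => e1 z, Finset.sum_add_distrib,
      Finset.sum_const, Finset.card_univ, ZMod.card, Φ.nsmul_w, add_zero]
    exact Fintype.sum_equiv (Equiv.addLeft (kap S.ζ δ g : ZMod n)) _ _ (fun z => rfl)
  · intro l A hA
    obtain ⟨g₀, hg₀⟩ := commonK Φ y hb hd hδ Q l hA
    have hAb : A.valuation (b : Ω) = 1 := val_b_eq_one Φ l.2 hA.lt
    obtain ⟨h4, h6, -⟩ := hb.good A hAb
    have e1 : ∀ z : ZMod n, φ (c ^ z.val) =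
        (rho W (g₀ ^ z.val) Q - Q) + (Q - z.val • S.e (y l)) := by
      intro z
      rw [hφ1 _ _ (hc _).1 (hg₀ z.val).1
        (by rw [hkapc c z (hc _).2.1, hkapc g₀ z (hg₀ _).2.1]), hφ, (hg₀ z.val).2.2.1]
      abel
    have e2 : ∑ z : ZMod n, (Q - z.val • S.e (y l)) =
        n • Q - (n * (n - 1) / 2) • S.e (y l) := by
      rw [Finset.sum_sub_distrib, Finset.sum_const, Finset.card_univ, ZMod.card,
        ← Finset.sum_smul, PT2_sum_zmod (fun i => i), Finset.sum_range_id]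
    have e3 : ∑ z : ZMod n, φ (c ^ z.val) - n • Q + (n * (n - 1) / 2) • S.e (y l) =
        ∑ z : ZMod n, (rho W (g₀ ^ z.val) Q - Q) := by
      rw [Finset.sum_congr rfl fun z _ => e1 z, Finset.sum_add_distrib, e2]
      abel
    rw [e3]
    apply Finset.sum_induction _ (InE1 A.valuation)
    · intro P P' hP hP'
      exact e1_add h4 h6 hP hP'
    · trivial
    · intro z _
      exact (hg₀ z.val).2.2.2

end H16E
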