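import Pool.Agent.Lib.H16C.PT2
import Pool.Agent.Lib.H16E.A2

/-!
# A4 (copy of H16C/PT4 for `D ∈ k`): two trivialisations with the same class in `E(L)/n`
-/

namespace H16E

open H16C

variable {k : Type*} [Field k] [NumberField k] {Ω : Type*} [Field Ω] [Algebra k Ω] [IsAlgClosed Ω]
  [Algebra.IsAlgebraic k Ω] [CharZero Ω] [DecidableEq Ω] {W : WeierstrassCurve.Affine k}
  [W.IsShortNF] [W.IsElliptic] {n b : ℕ} [NeZero n] {S : Setup W Ω n} (Φ : Fam S b) (y : Φ.T → ZMod n)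

theorem pair_relK (hb : Bad W Ω n b) {D D' : k} (hd : AdK Φ D) (hd' : AdK Φ D') {δ δ' : Ω}
    (hδ : δ ^ n = algebraMap k Ω D) (hδ' : δ' ^ n = algebraMap k Ω D') {Q Q' P P' P₂ : Pt W Ω}
    (hQ : Φ.Triv y δ Q) (hQ' : Φ.Triv y δ' Q') (hP : Φ.IsTrace y Q P) (hP' : Φ.IsTrace y Q' P')
    (h2 : P - P' = n • P₂) (hP2 : ∀ g ∈ S.N, rho W g P₂ = P₂) (l : Φ.T)
    {A : ValuationSubring Ω} (hA : S.Loc l (Φ.a l) A) :
    ∃ F₀ : IntermediateField k Ω, FiniteDimensional k F₀ ∧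
      ∀ φ ∈ S.N, Frob A F₀ l φ → y l * (kap S.ζ δ φ - kap S.ζ δ' φ) = 0 := by
  have hAb : A.valuation (b : Ω) = 1 := val_b_eq_one Φ l.2 hA.lt
  have hnat : ∀ m : ℕ, A.valuation ((m : ℕ) : Ω) ≤ 1 := fun m =>
    (ValuationSubring.valuation_le_one_iff A _).2 (natCast_mem A m)
  obtain ⟨h4, h6, -⟩ := hb.good A hAb
  have h4' : A.valuation (WeierstrassCurve.Affine.baseChange W Ω).a₄ ≤ 1 := h4
  have h6' : A.valuation (WeierstrassCurve.Affine.baseChange W Ω).a₆ ≤ 1 := h6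
  have hvn : A.valuation ((n : ℕ) : Ω) = 1 := by
    obtain ⟨m, hm⟩ := hb.dvd
    have h1 : A.valuation ((n : ℕ) : Ω) * A.valuation (((6 * m : ℕ)) : Ω) = 1 := by
      rw [← map_mul, ← Nat.cast_mul, ← hAb, hm]
      congr 2
      ring
    refine le_antisymm (hnat n) ?_
    rw [← h1]
    exact mul_le_of_le_one_right' (hnat _)
  -- the point `Z`
  set Z : Pt W Ω := Q - Q' - P₂ with hZ
  have hnZ : InE1 A.valuation (n • Z) := by
    have e1 := e1_sub h4' h6' (hP.2 l A hA) (hP'.2 l A hA)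
    have e2 : P - n • Q + (n * (n - 1) / 2) • S.e (y l) -
        (P' - n • Q' + (n * (n - 1) / 2) • S.e (y l)) = -(n • Z) := by
      have e3 : P = P' + n • P₂ := by rw [← h2]; abel
      rw [e3, hZ, smul_sub, smul_sub]
      abel
    rw [e2] at e1
    have e4 := e1_neg e1
    rwa [neg_neg] at e4
  obtain ⟨T₁, hT₁, hZT⟩ := tors_surj h4' h6' n hvn hnZ
  have hfin : FiniteDimensional k (IntermediateField.adjoin k ({xc (Z - T₁)} : Set Ω)) :=
    IntermediateField.finiteDimensional_adjoin fun x _ => Algebra.IsIntegral.isIntegral x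
  refine ⟨IntermediateField.adjoin k ({xc (Z - T₁)} : Set Ω), hfin, fun φ hφ hF => ?_⟩
  have hmem : InE1 A.valuation (rho W φ (Z - T₁)) :=
    rho_mem (Φ.prime l l.2).pos hF (IntermediateField.subset_adjoin k _ (by simp)) hZT
  have e1 := e1_sub h4' h6' hmem hZT
  have e2 := e1_sub h4' h6' (frob_relK Φ y hb hd hδ hQ l hA hφ) (frob_relK Φ y hb hd' hδ' hQ' l hA hφ)
  have e3 := e1_sub h4' h6' e2 e1
  have e4 : rho W φ Q - Q - Φ.w y φ + S.e (y l * kap S.ζ δ φ) -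
      (rho W φ Q' - Q' - Φ.w y φ + S.e (y l * kap S.ζ δ' φ)) -
      (rho W φ (Z - T₁) - (Z - T₁)) =
      S.e (y l * (kap S.ζ δ φ - kap S.ζ δ' φ)) := by
    rw [hZ, map_sub, map_sub, map_sub, hP2 φ hφ, S.fix_tors hφ hT₁, mul_sub, map_sub]
    abel
  rw [e4] at e3
  have e5 := tors_inj h4' h6' n hvn (S.nsmul_e _) e3
  exact S.e_injective (e5.trans (map_zero S.e).symm)

end H16E
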