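import Pool.Agent.Lib.H16E.A4
import Pool.Agent.Lib.H16C.PT5

/-!
# A5 (copy of H16C/PT5 for `D ∈ k`): `D/D'` is a `p`-th power modulo the place
-/

namespace H16E

open H16C

variable {k : Type*} [Field k] [NumberField k] {Ω : Type*} [Field Ω] [Algebra k Ω] [IsAlgClosed Ω]
  [Algebra.IsAlgebraic k Ω] [CharZero Ω] [DecidableEq Ω] {W : WeierstrassCurve.Affine k}
  [W.IsShortNF] [W.IsElliptic] {n b : ℕ} [NeZero n] {S : Setup W Ω n} (Φ : Fam S b) (y : Φ.T → ZMod n)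

theorem pts_finalK (hb : Bad W Ω n b) {D D' : k} (hd : AdK Φ D) (hd' : AdK Φ D')
    {δ δ' : Ω} (hδ : δ ^ n = algebraMap k Ω D) (hδ' : δ' ^ n = algebraMap k Ω D')
    {Q Q' P P' P₂ : Pt W Ω} (hQ : Φ.Triv y δ Q) (hQ' : Φ.Triv y δ' Q')
    (hP : Φ.IsTrace y Q P) (hP' : Φ.IsTrace y Q' P') (h2 : P - P' = n • P₂)
    (hP2 : ∀ g ∈ S.N, rho W g P₂ = P₂) (l : Φ.T) {A : ValuationSubring Ω}
    (hA : S.Loc l (Φ.a l) A) {p : ℕ} (hp : p.Prime) (hpn : p ∣ n) (hy : y l ≠ 0)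
    (hyp : ∃ u : ZMod n, y l = ((n / p : ℕ) : ZMod n) * u) :
    A.valuation ((algebraMap k Ω D / algebraMap k Ω D') ^ (((l : ℕ) - 1) / p) - 1) < 1 := by
  have hn : n ≠ 0 := NeZero.ne n
  have hl : (l : ℕ).Prime := Φ.prime l l.2
  have hvl : A.valuation ((l : ℕ) : Ω) < 1 := hA.lt
  have hvb : A.valuation (b : Ω) = 1 := val_b_eq_one Φ l.2 hvl
  have hnat : ∀ z : ℕ, A.valuation (z : Ω) ≤ 1 := by
    intro z
    have := int_le A (z : ℤ)
    simpa using this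
  have hvn : A.valuation (n : Ω) = 1 := by
    obtain ⟨r, hr⟩ := hb.dvd
    have h1 : (b : Ω) = (n : Ω) * ((6 * r : ℕ) : Ω) := by
      rw [hr]
      push_cast
      ring
    refine le_antisymm (hnat n) ?_
    rw [← hvb, h1, map_mul]
    exact mul_le_of_le_one_right' (hnat _)
  have hδ0 : δ ≠ 0 := by
    rintro rfl
    rw [zero_pow hn] at hδ
    exact hd.ne hδ.symm
  have hδ0' : δ' ≠ 0 := by
    rintro rfl
    rw [zero_pow hn] at hδ'
    exact hd'.ne hδ'.symm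
  have hvδ : A.valuation δ ^ n = A.valuation ((l : ℕ) : Ω) := by
    rw [← map_pow, hδ]
    exact hd.loc l hA
  have hvδ' : A.valuation δ' ^ n = A.valuation ((l : ℕ) : Ω) := by
    rw [← map_pow, hδ']
    exact hd'.loc l hA
  have hl0 : A.valuation ((l : ℕ) : Ω) ≠ 0 := by
    rw [Ne, Valuation.zero_iff]
    exact_mod_cast hl.ne_zero
  -- the field
  obtain ⟨F₀, hF₀, hrel⟩ := pair_relK Φ y hb hd hd' hδ hδ' hQ hQ' hP hP' h2 hP2 l hA
  have hint : IsIntegral k δ' := Algebra.IsIntegral.isIntegral δ'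
  haveI : FiniteDimensional k (IntermediateField.adjoin k {δ'}) :=
    IntermediateField.adjoin.finiteDimensional hint
  obtain ⟨F, hF, hEF, hLF, hδF, -, hst, -⟩ := exists_g0K Φ l hA hd hδ
    (F₀ ⊔ IntermediateField.adjoin k {δ'})
  have hδF' : δ' ∈ F := (le_trans le_sup_right hEF) (IntermediateField.mem_adjoin_simple_self k δ')
  have hF₀F : F₀ ≤ F := le_trans le_sup_left hEF
  haveI := S.fin
  obtain ⟨Qf, -, hQf, hex⟩ := exists_frob S.L A l hl hvl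
  obtain rfl := hQf (fun x hx hvx => hA.res x hx hvx)
  obtain ⟨φ, hφN, hφF, -⟩ := hex F hLF hF (fun g _ x hx => hst g x hx)
  have hrel' := hrel φ hφN (fun x hx hvx => hφF x (hF₀F hx) hvx)
  have hkδ := kap_spec (k := k) S.hζ hδ0 (g := φ) (by rw [hδ, AlgEquiv.commutes])
  have hkδ' := kap_spec (k := k) S.hζ hδ0' (g := φ) (by rw [hδ', AlgEquiv.commutes])
  set i : ℕ := (kap S.ζ δ φ : ZMod n).val with hi
  set i' : ℕ := (kap S.ζ δ' φ : ZMod n).val with hi'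
  have e1 : (kap S.ζ δ φ : ZMod n) = (i : ZMod n) := by rw [hi, ZMod.natCast_zmod_val]
  have e2 : (kap S.ζ δ' φ : ZMod n) = (i' : ZMod n) := by rw [hi', ZMod.natCast_zmod_val]
  rw [e1, e2] at hrel'
  obtain ⟨u, hu⟩ := hyp
  have hpi := PT5_dvd hp hpn (u := u) (w := y l) (i := i) (i' := i') (by rw [← hu]; exact hy) hu hrel'
  -- η
  have hζ0 : S.ζ ≠ 0 := S.hζ.ne_zero hn
  obtain ⟨t, ht⟩ := hpi
  have hηφ : φ ((δ / δ') ^ (n / p)) = (δ / δ') ^ (n / p) := by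
    rw [map_pow, map_div₀, hkδ, hkδ', mul_div_mul_comm, mul_pow]
    have h3 : (S.ζ ^ i / S.ζ ^ i') ^ (n / p) = 1 := by
      have h4 : S.ζ ^ i / S.ζ ^ i' = S.ζ ^ ((p : ℤ) * t) := by
        rw [← ht, zpow_sub₀ hζ0, zpow_natCast, zpow_natCast]
      have h5 : (S.ζ ^ ((p : ℤ) * t)) ^ (n / p) = (S.ζ ^ n) ^ t := by
        rw [← zpow_natCast, ← zpow_mul, ← zpow_natCast S.ζ n, ← zpow_mul]
        congr 1
        have h6 : (n : ℤ) = (p : ℤ) * ((n / p : ℕ) : ℤ) := by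
          exact_mod_cast (Nat.mul_div_cancel' hpn).symm
        conv_rhs => rw [h6]
        ring
      rw [h4, h5, S.hζ.pow_eq_one, one_zpow]
    rw [h3, one_mul]
  have hvη1 : A.valuation (δ / δ') = 1 := by
    apply PT5_val_one hn
    rw [map_div₀, div_pow, hvδ, hvδ', div_self hl0]
  have hvη : A.valuation ((δ / δ') ^ (n / p)) = 1 := by
    rw [map_pow, hvη1, one_pow]
  have hηF : (δ / δ') ^ (n / p) ∈ F := pow_mem (div_mem hδF hδF') _
  have hfr := PT5_frob hl.pos hφF hηF hvη hηφ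
  -- ζ
  have hζL : S.ζ ∈ S.L := S.mem_L (fun g hg => (S.fix g hg).1)
  have hvζ : A.valuation S.ζ = 1 := by
    apply PT5_val_one hn
    rw [← map_pow, S.hζ.pow_eq_one, map_one]
  have hfz := PT5_frob hl.pos hφF (hLF hζL) hvζ (S.fix φ hφN).1
  have hζl : S.ζ ^ ((l : ℕ) - 1) = 1 := by
    refine root_unit A.valuation hvn ?_ hfz
    rw [← pow_mul, mul_comm, pow_mul, S.hζ.pow_eq_one, one_pow]
  have hnl : n ∣ (l : ℕ) - 1 := S.hζ.dvd_of_pow_eq_one _ hζl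
  obtain ⟨r, hr⟩ := hpn.trans hnl
  have hr' : ((l : ℕ) - 1) / p = r := by
    rw [hr]
    exact Nat.mul_div_cancel_left r hp.pos
  have hηp : ((δ / δ') ^ (n / p)) ^ ((l : ℕ) - 1) =
      (algebraMap k Ω D / algebraMap k Ω D') ^ r := by
    rw [hr, pow_mul, ← pow_mul (δ / δ'), Nat.div_mul_cancel hpn, div_pow, hδ, hδ']
  rw [hηp] at hfr
  rw [hr']
  exact hfr

end H16E
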