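import Pool.Agent.Lib.H16E.Defs
import Pool.Agent.Lib.H16C.SH1

/-!
# A6 (copy of H16C/SH1 for `D ∈ k`): `w_y` vanishes on the inertia group of `Gal(Ω/k(δ))`
-/

namespace H16E

open H16C

variable {k : Type*} [Field k] [NumberField k] {Ω : Type*} [Field Ω] [Algebra k Ω] [IsAlgClosed Ω]
  [Algebra.IsAlgebraic k Ω] [CharZero Ω] [DecidableEq Ω] {W : WeierstrassCurve.Affine k}
  [W.IsShortNF] [W.IsElliptic] {n b : ℕ} [NeZero n] {S : Setup W Ω n} (Φ : Fam S b) (y : Φ.T → ZMod n)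

theorem good_inertK (hb : Bad W Ω n b) {A : ValuationSubring Ω} (hAb : A.valuation (b : Ω) = 1)
    {D : k} (hd : AdK Φ D) {δ : Ω} (hδ : δ ^ n = algebraMap k Ω D) {F : IntermediateField k Ω}
    (hLF : S.L ≤ F) (hα : ∀ h : Ω ≃ₐ[k] Ω, ∀ l ∈ Φ.T, h (Φ.α l) ∈ F) (hδF : δ ∈ F)
    {g : Ω ≃ₐ[k] Ω} (hg : Inert A F g) (hgδ : g δ = δ) : Φ.w y g = 0 := by
  have hn : n ≠ 0 := NeZero.ne n
  have hgN : g ∈ S.N := S.mem_of_inert hb hAb fun x hx => hg x (hLF hx)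
  have hAn : A.valuation (n : Ω) = 1 := by
    obtain ⟨m, hm⟩ := hb.dvd
    have h1 : (b : Ω) = (n : Ω) * ((6 * m : ℤ) : Ω) := by
      rw [hm]
      push_cast
      ring
    refine le_antisymm (by simpa using int_le A (n : ℤ)) ?_
    rw [← hAb, h1, map_mul]
    exact mul_le_of_le_one_right' (int_le A (6 * m : ℤ))
  have hd0 : (algebraMap k Ω D) ≠ 0 := hd.ne
  have hδ0 : δ ≠ 0 := by
    rintro rfl
    rw [zero_pow hn] at hδ
    exact hd0 hδ.symm
  have hgd : g (algebraMap k Ω D) = (algebraMap k Ω D) := g.commutes D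
  refine Φ.w_zero y hgN fun h l hl => ?_
  have hc : h (Φ.α l) ^ n = h (Φ.a l) := by rw [← map_pow, Φ.pow l hl]
  have hgc : g (h (Φ.a l)) = h (Φ.a l) :=
    (IntermediateField.mem_fixingSubgroup_iff _ _).1 hgN _ (S.stab h _ (Φ.mem l hl))
  rcases Φ.val' A h hl with h1 | ⟨h1, h2⟩ | ⟨h1, h2⟩
  · exact SH1_fix hAn hg (hα h l hl) (by rw [hc, h1]) (by rw [hc, hgc])
  · have hv : A.valuation (algebraMap k Ω D) = A.valuation (l : Ω) :=
      (hd.2 A l hl h).1 h1 h2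
    have hpow : (h (Φ.α l) / δ) ^ n = h (Φ.a l) / (algebraMap k Ω D) := by
      rw [div_pow, hc, hδ]
    have h3 : g (h (Φ.α l) / δ) = h (Φ.α l) / δ := by
      refine SH1_fix hAn hg (F.div_mem (hα h l hl) hδF) ?_ ?_
      · rw [hpow, map_div₀, h2, hv, div_self]
        rw [← hv, Valuation.ne_zero_iff]
        exact hd0
      · rw [hpow, map_div₀, hgc, hgd]
    rw [map_div₀, hgδ, div_left_inj' hδ0] at h3
    exact h3
  · have hv : A.valuation (algebraMap k Ω D) = A.valuation (Φ.l₁ : Ω) :=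
      (hd.2 A l hl h).2 h1 h2
    have hpow : (h (Φ.α l) * δ) ^ n = h (Φ.a l) * (algebraMap k Ω D) := by
      rw [mul_pow, hc, hδ]
    have h3 : g (h (Φ.α l) * δ) = h (Φ.α l) * δ := by
      refine SH1_fix hAn hg (F.mul_mem (hα h l hl) hδF) ?_ ?_
      · rw [hpow, map_mul, hv, h2]
      · rw [hpow, map_mul, hgc, hgd]
    rw [map_mul, hgδ, mul_left_inj' hδ0] at h3
    exact h3

end H16E
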