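import Pool.Agent.Lib.H16E.A6
import Pool.Agent.Lib.H16C.SH3

/-!
# A7 (copy of H16C/SH3 for `D ∈ k`): `w_y` is locally trivial over `k(δ)`
-/

namespace H16E

open H16C

variable {k : Type*} [Field k] [NumberField k] {Ω : Type*} [Field Ω] [Algebra k Ω] [IsAlgClosed Ω]
  [Algebra.IsAlgebraic k Ω] [CharZero Ω] [DecidableEq Ω] {W : WeierstrassCurve.Affine k}
  [W.IsShortNF] [W.IsElliptic] {n b : ℕ} [NeZero n] {S : Setup W Ω n} (Φ : Fam S b) (y : Φ.T → ZMod n)

theorem local_finK (hb : Bad W Ω n b) {D : k} (hd : AdK Φ D) {δ : Ω} (hδ : δ ^ n = algebraMap k Ω D)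
    (A : ValuationSubring Ω) (q : ℕ) (hq : q.Prime) (hA : A.valuation (q : Ω) < 1) :
    ∃ Q : Pt W Ω, ∀ g : Ω ≃ₐ[k] Ω, g δ = δ → (∀ x, A.valuation (g x) = A.valuation x) →
      Φ.w y g = rho W g Q - Q := by
  have hble : A.valuation (b : Ω) ≤ 1 := by
    have h1 := int_le A (b : ℤ)
    rwa [Int.cast_natCast] at h1
  rcases lt_or_eq_of_le hble with hAb | hAb
  · let D : Subgroup (Ω ≃ₐ[k] Ω) :=
      { carrier := {g | ∀ x, A.valuation (g x) = A.valuation x}
        mul_mem' := fun {g h} hg hh x => by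
          change A.valuation (g (h x)) = A.valuation x
          rw [hg, hh]
        one_mem' := fun x => rfl
        inv_mem' := fun {g} hg x => by
          have h1 := hg (g⁻¹ x)
          have h2 : g (g⁻¹ x) = x := g.apply_symm_apply x
          rw [h2] at h1
          exact h1.symm }
    obtain ⟨Q, hQ⟩ := SH3_cor Φ y D (by
      intro x a ha hxa
      refine SH3_f_zero Φ y ha fun l hl => ?_
      have h1 := bad_fix Φ hb hAb ((S.normal_N).conj_mem a ha x) hxa x hl
      have h2 : (x * a * x⁻¹) (x (Φ.α l)) = x (a (Φ.α l)) := by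
        change x (a (x⁻¹ (x (Φ.α l)))) = _
        rw [show x⁻¹ (x (Φ.α l)) = Φ.α l from x.symm_apply_apply _]
      rw [h2] at h1
      exact x.injective h1)
    exact ⟨Q, fun g _ hg => hQ g hg⟩
  · obtain ⟨F₁, hF₁, hL, -, hα⟩ := Φ.exists_field
    let K : IntermediateField k Ω := IntermediateField.adjoin k {δ}
    have hfdK : FiniteDimensional k K :=
      IntermediateField.adjoin.finiteDimensional (Algebra.IsIntegral.isIntegral δ)
    have hδK : δ ∈ K := IntermediateField.mem_adjoin_simple_self k δ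
    have hfd : FiniteDimensional k (K ⊔ F₁ : IntermediateField k Ω) := inferInstance
    obtain ⟨Q, hQ⟩ := lang hb K (K ⊔ F₁) le_sup_left A q hq hA hAb (Φ.w y)
      (fun g _ h _ => Φ.w_mul y g h) (fun g _ => Φ.nsmul_w y g) (fun g hg hin => by
        have hgδ : g δ = δ := (IntermediateField.mem_fixingSubgroup_iff _ _).1 hg _ hδK
        exact good_inertK Φ y hb hAb hd hδ (hL.trans le_sup_right)
          (fun h l hl => (le_sup_right : F₁ ≤ K ⊔ F₁) (hα h l hl))
          ((le_sup_left : K ≤ K ⊔ F₁) hδK) hin hgδ)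
    refine ⟨Q, fun g hg hgA => hQ g ?_ hgA⟩
    rw [IntermediateField.mem_fixingSubgroup_iff]
    intro x hx
    have h1 : K ≤ IntermediateField.fixedField (Subgroup.zpowers g) := by
      rw [IntermediateField.adjoin_simple_le_iff, IntermediateField.mem_fixedField_iff]
      intro f hf
      obtain ⟨j, rfl⟩ := Subgroup.mem_zpowers_iff.1 hf
      have h2 : g ∈ MulAction.stabilizer (Ω ≃ₐ[k] Ω) δ := hg
      exact (MulAction.stabilizer (Ω ≃ₐ[k] Ω) δ).zpow_mem h2 j
    exact (IntermediateField.mem_fixedField_iff _ _).1 (h1 hx) g (Subgroup.mem_zpowers g)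

end H16E
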