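import Pool.Agent.Lib.H16E.A7
import Pool.Agent.Lib.H16C.TR3

/-!
# A8 (copy of H16C/TR3 for `D ∈ k`): the homomorphism `(ℤ/n)^T → Sha(E/k(δ))`
-/

open NumberField IsDedekindDomain IntermediateField

namespace H16E

open H16C

open Classical in
theorem sha_homK {k : Type*} [Field k] [NumberField k] {Ω : Type*} [Field Ω] [Algebra k Ω]
    [IsAlgClosed Ω] [Algebra.IsAlgebraic k Ω] [CharZero Ω] {W : WeierstrassCurve.Affine k}
    [W.IsShortNF] [W.IsElliptic] {n b : ℕ} [NeZero n] {S : Setup W Ω n} (hb : Bad W Ω n b)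
    (Φ : Fam S b) {D : k} (hd : AdK Φ D) {δ : Ω} (hδ : δ ^ n = algebraMap k Ω D) [NumberField k⟮δ⟯] :
    ∃ F : (Φ.T → ZMod n) →+ Sha (WeierstrassCurve.Affine.baseChange W k⟮δ⟯) Ω,
      ∀ y, F y = 0 ↔ ∃ Q, Φ.Triv y δ Q := by
  let K : IntermediateField k Ω := k⟮δ⟯
  have hδK : δ ∈ K := IntermediateField.mem_adjoin_simple_self k δ
  let c : (Φ.T → ZMod n) → (Ω ≃ₐ[K] Ω) →
      (WeierstrassCurve.Affine.baseChange (TR3_W W K) Ω).Point :=
    fun y g => (Φ.w y (TR3_res K g) : Pt W Ω)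
  have hresδ : ∀ g : Ω ≃ₐ[K] Ω, TR3_res K g δ = δ := fun g => g.commutes ⟨δ, hδK⟩
  have hZ : ∀ y, IsCocycle (TR3_W W K) Ω (c y) := by
    intro y
    refine ⟨fun g h => ?_, ?_⟩
    · have h1 := Φ.w_mul y (TR3_res K g) (TR3_res K h)
      rw [← map_mul] at h1
      rw [TR3_act]
      exact h1
    · obtain ⟨F, hF, hFw⟩ := Φ.w_cont
      obtain ⟨F', hF', hg⟩ := TR3_field K F
      exact ⟨F', hF', fun g hgF => hFw y _ (hg g hgF)⟩
  have hS : ∀ y, EverywhereTriv (TR3_W W K) Ω (c y) := by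
    intro y
    refine ⟨fun v ι => ?_, fun v ι => ?_⟩
    · obtain ⟨A, q, hq, hAq, hinv⟩ := place_fin v ι
      obtain ⟨Q, hQ⟩ := local_finK Φ y hb hd hδ A q hq hAq
      refine ⟨WeierstrassCurve.Affine.Point.map ι
        (Q : (WeierstrassCurve.Affine.baseChange (TR3_W W K) Ω).Point), fun σ g h => ?_⟩
      refine TR3_loc W K ι (c y) Q σ g h ?_
      rw [TR3_act]
      exact hQ (TR3_res K g) (hresδ g) (hinv σ g h)
    · let DK : Subgroup (Ω ≃ₐ[K] Ω) :=
        { carrier := {g | ∃ σ : AlgebraicClosure v.Completion ≃ₐ[v.Completion]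
            AlgebraicClosure v.Completion, ∀ x, ι (g x) = σ (ι x)}
          mul_mem' := by
            rintro g h ⟨σ, hσ⟩ ⟨τ, hτ⟩
            exact ⟨σ * τ, fun x => by
              change ι (g (h x)) = σ (τ (ι x))
              rw [hσ, hτ]⟩
          one_mem' := ⟨1, fun x => rfl⟩
          inv_mem' := by
            rintro g ⟨σ, hσ⟩
            refine ⟨σ⁻¹, fun x => ?_⟩
            apply σ.injective
            have h1 := hσ (g⁻¹ x)
            have h2 : g (g⁻¹ x) = x := g.apply_symm_apply x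
            have h3 : σ (σ⁻¹ (ι x)) = ι x := σ.apply_symm_apply _
            rw [h3, ← h1, h2] }
      obtain ⟨Q, hQ⟩ := local_inf Φ y (DK.map (TR3_res K)) (by
        rintro g ⟨g', ⟨σ, hσ⟩, rfl⟩ hgI
        have h1 : g' = 1 := place_inf v ι S.I S.hI σ g' hσ hgI
        rw [h1, map_one])
      refine ⟨WeierstrassCurve.Affine.Point.map ι
        (Q : (WeierstrassCurve.Affine.baseChange (TR3_W W K) Ω).Point), fun σ g h => ?_⟩
      refine TR3_loc W K ι (c y) Q σ g h ?_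
      rw [TR3_act]
      exact hQ (TR3_res K g) ⟨g, ⟨σ, h⟩, rfl⟩
  let F₁ : (Φ.T → ZMod n) →+ ZSha (TR3_W W K) Ω := AddMonoidHom.mk'
    (fun y => ⟨c y, hZ y, hS y⟩) (by
      intro y y'
      apply Subtype.ext
      funext g
      exact Φ.w_add y y' (TR3_res K g))
  let π : ZSha (TR3_W W K) Ω →+ Sha (TR3_W W K) Ω :=
    QuotientAddGroup.mk' ((BSha (TR3_W W K) Ω).addSubgroupOf (ZSha (TR3_W W K) Ω))
  refine ⟨π.comp F₁, fun y => ?_⟩
  have h1 : π.comp F₁ y = 0 ↔ (F₁ y : (Ω ≃ₐ[K] Ω) →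
      (WeierstrassCurve.Affine.baseChange (TR3_W W K) Ω).Point) ∈ BSha (TR3_W W K) Ω := by
    rw [AddMonoidHom.comp_apply]
    refine (QuotientAddGroup.eq_zero_iff (N := (BSha (TR3_W W K) Ω).addSubgroupOf
      (ZSha (TR3_W W K) Ω)) (F₁ y)).trans ?_
    exact AddSubgroup.mem_addSubgroupOf
  rw [h1]
  constructor
  · rintro ⟨Q, hQ⟩
    refine ⟨Q, fun g hg => ?_⟩
    obtain ⟨g', rfl⟩ := TR3_lift g hg
    have h2 := hQ g'
    rw [TR3_act] at h2
    exact h2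
  · rintro ⟨Q, hQ⟩
    refine ⟨Q, fun g => ?_⟩
    rw [TR3_act]
    exact hQ (TR3_res K g) (hresδ g)

end H16E
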