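import Mathlib

/-!
# B0: boxes, exact divisibility, the hypotheses of the abstract counting theorem

The abstract counting theorem (`ana`, file B10) is pure finite counting.  `V = ι → ℤ`, the box
`|x i| ≤ X`, additive maps `φ l : V → ℤ/l²` for the primes `l ∈ P`, a vector `e` with `φ l e = 1`.
-/

open Finset

namespace H16E

/-- the box `|x i| ≤ X` -/
noncomputable def box (ι : Type*) [Fintype ι] [DecidableEq ι] (X : ℕ) : Finset (ι → ℤ) :=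
  Fintype.piFinset fun _ => Finset.Icc (-(X : ℤ)) X

theorem card_box (ι : Type*) [Fintype ι] [DecidableEq ι] (X : ℕ) :
    (box ι X).card = (2 * X + 1) ^ Fintype.card ι := by
  unfold box
  rw [Fintype.card_piFinset, prod_const, card_univ]
  congr 1
  rw [Int.card_Icc]
  omega

theorem mem_box {ι : Type*} [Fintype ι] [DecidableEq ι] {X : ℕ} {x : ι → ℤ} :
    x ∈ box ι X ↔ ∀ i, |x i| ≤ X := by
  unfold box
  rw [Fintype.mem_piFinset]
  refine forall_congr' fun i => ?_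
  rw [Finset.mem_Icc, abs_le]

/-- `x` is exactly divisible by `l` (for the map `φ l` to `ℤ/l²`) -/
def Ex {V : Type*} [AddCommGroup V] (φ : ∀ l : ℕ, V →+ ZMod (l ^ 2)) (l : ℕ) (x : V) : Prop :=
  ∃ m : ℕ, ¬ l ∣ m ∧ φ l x = ((l * m : ℕ) : ZMod (l ^ 2))

/-- the density `(l - 1) / l²` -/
noncomputable def rh (l : ℕ) : ℝ := ((l : ℝ) - 1) / (l : ℝ) ^ 2

theorem rh_nonneg {l : ℕ} (hl : l.Prime) : 0 ≤ rh l := by
  unfold rh
  have : (1 : ℝ) ≤ l := by exact_mod_cast hl.one_le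
  exact div_nonneg (by linarith) (by positivity)

theorem rh_le {l : ℕ} (hl : l.Prime) : rh l ≤ 1 / l := by
  unfold rh
  have h0 : (0 : ℝ) < l := by exact_mod_cast hl.pos
  rw [div_le_div_iff₀ (by positivity) h0]
  nlinarith

theorem rh_ge {l : ℕ} (hl : l.Prime) : 1 / (2 * (l : ℝ)) ≤ rh l := by
  unfold rh
  have h2 : (2 : ℝ) ≤ l := by exact_mod_cast hl.two_le
  rw [div_le_div_iff₀ (by positivity) (by positivity)]
  nlinarith

/-- the hypotheses of the counting theorem: `P` a set of primes, `Bd r` the set of the bad vectors -/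
structure Sys (n h N : ℕ) (ι : Type*) [Fintype ι] where
  /-- the primes -/
  P : Set ℕ
  /-- the vector with `φ l e = 1` -/
  e : ι → ℤ
  /-- the maps to `ℤ/l²` -/
  φ : ∀ l : ℕ, (ι → ℤ) →+ ZMod (l ^ 2)
  /-- the classes of the primes -/
  cls : ℕ → Fin N
  /-- the bad vectors -/
  Bd : ℕ → Set (ι → ℤ)
  prime : ∀ l ∈ P, l.Prime
  dvd : ∀ l ∈ P, n ∣ l - 1
  one : ∀ l ∈ P, φ l e = 1
  link : ∀ (T : Finset ℕ) (l₁ : ℕ), T.Nonempty → (∀ l ∈ T, l ∈ P ∧ cls l = cls l₁) → l₁ ∈ P →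
    l₁ ∉ T → ∀ r : ℕ,
    ∃ (Z : (ι → ℤ) → Set (T → ZMod n)) (c : (ι → ℤ) → (T → ZMod n) → Fin h),
      (∀ x ∈ Bd r, (∀ l ∈ insert l₁ T, Ex φ l x) → ∃ p : ℕ, p.Prime ∧ p ∣ n ∧
        p ^ T.card < Nat.card {y : T → ZMod n // y ∈ Z x ∧
          ∀ i, ∃ u : ZMod n, y i = ((n / p : ℕ) : ZMod n) * u} * p ^ r) ∧
      (∀ x x' : ι → ℤ, (∀ l ∈ insert l₁ T, Ex φ l x) → (∀ l ∈ insert l₁ T, Ex φ l x') →
        ∀ y : T → ZMod n, y ∈ Z x → y ∈ Z x' → c x y = c x' y →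
        ∀ p : ℕ, p.Prime → p ∣ n → (∀ i, ∃ u : ZMod n, y i = ((n / p : ℕ) : ZMod n) * u) →
        ∀ l : T, y l ≠ 0 → ∀ m m' : ℕ, φ l x = (((l : ℕ) * m : ℕ) : ZMod ((l : ℕ) ^ 2)) →
          φ l x' = (((l : ℕ) * m' : ℕ) : ZMod ((l : ℕ) ^ 2)) →
            ((l : ℕ) : ℤ) ∣ (m : ℤ) ^ (((l : ℕ) - 1) / p) - (m' : ℤ) ^ (((l : ℕ) - 1) / p))

end H16E
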