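import Pool.Agent.Lib.H16E.B0

/-!
# B1 (M): counting the points of a box with given residues

`κ ≥ |e i|`, `M = ∏ l ∈ T, l²`, `f(x) = 1` if `φ l x ∈ B l` for all `l ∈ T`, and `0` otherwise.
`orbit`: for every `x` the number of the `j < M` with `f(x + j e) = 1` is `∏ l ∈ T, #(B l)`:
`φ l (x + j e) = φ l x + j` (`φ l (j e) = j φ l e = j`), so the condition on `j` is: for all `l ∈ T`,
`j mod l² ∈ B l - φ l x`; by the Chinese remainder theorem `j ↦ (j mod l²)_l` is a bijection of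
`{0, ..., M-1}` with the families of residues (`Nat.chineseRemainderOfFinset`; or `ZMod.prodEquivPi`;
or induction on `T`), and `#(B l - φ l x) = #(B l)`.
Hence for every box `B' = box X'`: `∑_{x ∈ B'} ∑_{j < M} f(x + j e) = (∏ #(B l)) #B'`.
`count_le`: for every `j < M`: `x ∈ box X → x - j e ∈ box (X + κ M)`, so
`∑_{x ∈ box X} f x ≤ ∑_{x' ∈ box (X + κM)} f(x' + j e)` (injective reindexing); sum over `j < M`:
`M #{x ∈ box X | f x = 1} ≤ (∏ #(B l)) #(box (X + κM))`.  `∏ (#(B l)/l²) = (∏ #(B l))/M`.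
`count_ge`: for every `j < M`: `x' ∈ box (X - κM) → x' + j e ∈ box X`, so
`∑_{x' ∈ box (X - κM)} f(x' + j e) ≤ ∑_{x ∈ box X} f x`; sum over `j`.
-/

open Finset

namespace H16E

variable {ι : Type*} [Fintype ι] [DecidableEq ι] (φ : ∀ l : ℕ, (ι → ℤ) →+ ZMod (l ^ 2)) (e : ι → ℤ)

omit [Fintype ι] [DecidableEq ι] in
theorem B1_shift (T : Finset ℕ) (hT : ∀ l ∈ T, l.Prime ∧ φ l e = 1) (x : ι → ℤ) (j : ℕ) (l : ℕ) (hl : l ∈ T) :
    φ l (x + j • e) = φ l x + (j : ZMod (l ^ 2)) := by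
  rw [map_add, map_nsmul, (hT l hl).2, nsmul_eq_mul, mul_one]

open Classical in
theorem B1_orbit (T : Finset ℕ) (hT : ∀ l ∈ T, l.Prime) (B : ∀ l : ℕ, Finset (ZMod (l ^ 2)))
    (c : ∀ l : ℕ, ZMod (l ^ 2)) :
    ((range (∏ l ∈ T, l ^ 2)).filter (fun j : ℕ => ∀ l ∈ T, c l + (j : ZMod (l ^ 2)) ∈ B l)).card =
      ∏ l ∈ T, (B l).card := by
  have hne : ∀ l : T, NeZero ((l : ℕ) ^ 2) := fun l => ⟨pow_ne_zero 2 (hT l l.2).ne_zero⟩
  have hM : ∏ l : T, (l : ℕ) ^ 2 = ∏ l ∈ T, l ^ 2 := Finset.prod_coe_sort T (fun l => l ^ 2)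
  have hMne : NeZero (∏ l : T, (l : ℕ) ^ 2) :=
    ⟨Finset.prod_ne_zero_iff.2 fun l _ => pow_ne_zero 2 (hT l l.2).ne_zero⟩
  have hcop : Pairwise (Function.onFun Nat.Coprime fun l : T => (l : ℕ) ^ 2) := by
    intro a b hab
    exact Nat.Coprime.pow 2 2 ((Nat.coprime_primes (hT a a.2) (hT b b.2)).2 fun h => hab (Subtype.ext h))
  let E := ZMod.prodEquivPi (fun l : T => (l : ℕ) ^ 2) hcop
  rw [← hM]
  have h1 : ((range (∏ l : T, (l : ℕ) ^ 2)).filter (fun j : ℕ => ∀ l ∈ T, c l + (j : ZMod (l ^ 2)) ∈ B l)).card =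
      (Finset.univ.filter (fun z : ZMod (∏ l : T, (l : ℕ) ^ 2) => ∀ l : T, c l + E z l ∈ B l)).card := by
    refine Finset.card_nbij' (fun j => (j : ZMod (∏ l : T, (l : ℕ) ^ 2))) (fun z => z.val) ?_ ?_ ?_ ?_
    · intro j hj
      rw [Finset.mem_coe, Finset.mem_filter] at hj ⊢
      refine ⟨Finset.mem_univ _, fun l => ?_⟩
      have h2 : E (j : ZMod (∏ l : T, (l : ℕ) ^ 2)) l = (j : ZMod ((l : ℕ) ^ 2)) := by
        rw [map_natCast]
        rfl
      rw [h2]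
      exact hj.2 l l.2
    · intro z hz
      rw [Finset.mem_coe, Finset.mem_filter] at hz ⊢
      refine ⟨Finset.mem_range.2 (ZMod.val_lt z), fun l hl => ?_⟩
      have h2 : E z ⟨l, hl⟩ = ((z.val : ℕ) : ZMod (l ^ 2)) := by
        have h3 : E ((z.val : ℕ) : ZMod (∏ l : T, (l : ℕ) ^ 2)) ⟨l, hl⟩ = ((z.val : ℕ) : ZMod (l ^ 2)) := by
          rw [map_natCast]
          rfl
        rw [ZMod.natCast_zmod_val] at h3
        exact h3
      rw [← h2]
      exact hz.2 ⟨l, hl⟩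
    · intro j hj
      rw [Finset.mem_coe, Finset.mem_filter, Finset.mem_range] at hj
      exact ZMod.val_cast_of_lt hj.1
    · intro z _
      exact ZMod.natCast_zmod_val z
  rw [h1]
  have h2 : (Finset.univ.filter (fun z : ZMod (∏ l : T, (l : ℕ) ^ 2) => ∀ l : T, c l + E z l ∈ B l)).card =
      (Fintype.piFinset (fun l : T => Finset.univ.filter (fun z : ZMod ((l : ℕ) ^ 2) => c l + z ∈ B l))).card := by
    refine Finset.card_equiv E.toEquiv fun z => ?_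
    rw [Finset.mem_filter, Fintype.mem_piFinset]
    refine ⟨fun h l => ?_, fun h => ⟨Finset.mem_univ _, fun l => ?_⟩⟩
    · rw [Finset.mem_filter]
      exact ⟨Finset.mem_univ _, h.2 l⟩
    · exact (Finset.mem_filter.1 (h l)).2
  rw [h2, Fintype.card_piFinset, ← Finset.prod_coe_sort T (fun l => (B l).card)]
  refine Finset.prod_congr rfl fun l _ => ?_
  refine Finset.card_equiv (Equiv.addLeft (c l)) fun z => ?_
  rw [Finset.mem_filter]
  exact ⟨fun h => h.2, fun h => ⟨Finset.mem_univ _, h⟩⟩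

omit [Fintype ι] [DecidableEq ι] in
open Classical in
theorem B1_sum (T : Finset ℕ) (hT : ∀ l ∈ T, l.Prime ∧ φ l e = 1) (B : ∀ l : ℕ, Finset (ZMod (l ^ 2)))
    (S : Finset (ι → ℤ)) :
    ∑ j ∈ range (∏ l ∈ T, l ^ 2), (S.filter fun x => ∀ l ∈ T, φ l (x + j • e) ∈ B l).card =
      (∏ l ∈ T, (B l).card) * S.card := by
  have h1 : ∀ j : ℕ, (S.filter fun x => ∀ l ∈ T, φ l (x + j • e) ∈ B l).card =
      ∑ x ∈ S, if (∀ l ∈ T, φ l (x + j • e) ∈ B l) then 1 else 0 := fun j => Finset.card_filter _ _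
  simp only [h1]
  rw [Finset.sum_comm]
  have h2 : ∀ x ∈ S, ∑ j ∈ range (∏ l ∈ T, l ^ 2), (if (∀ l ∈ T, φ l (x + j • e) ∈ B l) then 1 else 0) =
      ∏ l ∈ T, (B l).card := by
    intro x _
    rw [← Finset.card_filter, ← B1_orbit T (fun l hl => (hT l hl).1) B (fun l => φ l x)]
    congr 1
    refine Finset.filter_congr fun j _ => ?_
    refine forall₂_congr fun l hl => ?_
    rw [B1_shift φ e T hT x j l hl]
  rw [Finset.sum_congr rfl h2, Finset.sum_const, smul_eq_mul, mul_comm]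

theorem B1_dens (T : Finset ℕ) (hT : ∀ l ∈ T, l.Prime) (B : ∀ l : ℕ, Finset (ZMod (l ^ 2))) :
    (∏ l ∈ T, ((B l).card : ℝ) / (l : ℝ) ^ 2) = ((∏ l ∈ T, (B l).card : ℕ) : ℝ) / ((∏ l ∈ T, l ^ 2 : ℕ) : ℝ) ∧
      (0 : ℝ) < ((∏ l ∈ T, l ^ 2 : ℕ) : ℝ) := by
  constructor
  · rw [Finset.prod_div_distrib]
    push_cast
    rfl
  · exact_mod_cast Finset.prod_pos fun l hl => pow_pos (hT l hl).pos 2

open Classical in
theorem count_le {κ : ℕ} (hκ : ∀ i, |e i| ≤ κ) (T : Finset ℕ)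
    (hT : ∀ l ∈ T, l.Prime ∧ φ l e = 1) (B : ∀ l : ℕ, Finset (ZMod (l ^ 2))) (X : ℕ) :
    (((box ι X).filter fun x => ∀ l ∈ T, φ l x ∈ B l).card : ℝ) ≤
      (∏ l ∈ T, ((B l).card : ℝ) / (l : ℝ) ^ 2) *
        ((2 * (X + κ * ∏ l ∈ T, l ^ 2) + 1 : ℕ) : ℝ) ^ Fintype.card ι := by
  have hTp : ∀ l ∈ T, l.Prime := fun l hl => (hT l hl).1
  obtain ⟨hd, hM0⟩ := B1_dens T hTp B
  obtain ⟨M, hM⟩ : ∃ M, M = ∏ l ∈ T, l ^ 2 := ⟨_, rfl⟩
  have h1 := B1_sum φ e T hT B (box ι (X + κ * M))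
  rw [card_box, ← hM] at h1
  rw [hd, ← hM]
  rw [← hM] at hM0
  have h2 : M * ((box ι X).filter fun x => ∀ l ∈ T, φ l x ∈ B l).card ≤
      (∏ l ∈ T, (B l).card) * (2 * (X + κ * M) + 1) ^ Fintype.card ι := by
    rw [← h1]
    have h3 : M * ((box ι X).filter fun x => ∀ l ∈ T, φ l x ∈ B l).card =
        ∑ _j ∈ range M, ((box ι X).filter fun x => ∀ l ∈ T, φ l x ∈ B l).card := by
      rw [Finset.sum_const, Finset.card_range, smul_eq_mul]
    rw [h3]
    refine Finset.sum_le_sum fun j hj => ?_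
    rw [Finset.mem_range] at hj
    refine Finset.card_le_card_of_injOn (fun x => x - j • e) ?_ ?_
    · intro x hx
      rw [Finset.mem_coe, Finset.mem_filter, mem_box] at hx
      rw [Finset.mem_coe, Finset.mem_filter, mem_box]
      refine ⟨fun i => ?_, ?_⟩
      · have h4 : (x - j • e) i = x i - j * e i := by simp
        show |(x - j • e) i| ≤ _
        rw [h4]
        have h5 : |(j : ℤ) * e i| ≤ M * κ := by
          rw [abs_mul, Nat.abs_cast]
          exact mul_le_mul (by exact_mod_cast hj.le) (hκ i) (abs_nonneg _) (Nat.cast_nonneg _)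
        have h6 := abs_sub (x i) ((j : ℤ) * e i)
        have h7 := hx.1 i
        push_cast
        linarith
      · intro l hl
        have h4 : x - j • e + j • e = x := by simp
        rw [h4]
        exact hx.2 l hl
    · intro x _ y _ hxy
      exact sub_left_injective hxy
  rw [div_mul_eq_mul_div, le_div_iff₀ hM0, mul_comm]
  exact_mod_cast h2

open Classical in
theorem count_ge {κ : ℕ} (hκ : ∀ i, |e i| ≤ κ) (T : Finset ℕ)
    (hT : ∀ l ∈ T, l.Prime ∧ φ l e = 1) (B : ∀ l : ℕ, Finset (ZMod (l ^ 2))) (X : ℕ)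
    (hX : κ * (∏ l ∈ T, l ^ 2) ≤ X) :
    (∏ l ∈ T, ((B l).card : ℝ) / (l : ℝ) ^ 2) *
        ((2 * (X - κ * ∏ l ∈ T, l ^ 2) + 1 : ℕ) : ℝ) ^ Fintype.card ι ≤
      (((box ι X).filter fun x => ∀ l ∈ T, φ l x ∈ B l).card : ℝ) := by
  have hTp : ∀ l ∈ T, l.Prime := fun l hl => (hT l hl).1
  obtain ⟨hd, hM0⟩ := B1_dens T hTp B
  obtain ⟨M, hM⟩ : ∃ M, M = ∏ l ∈ T, l ^ 2 := ⟨_, rfl⟩
  rw [← hM] at hX
  have h1 := B1_sum φ e T hT B (box ι (X - κ * M))
  rw [card_box, ← hM] at h1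
  rw [hd, ← hM]
  rw [← hM] at hM0
  have h2 : (∏ l ∈ T, (B l).card) * (2 * (X - κ * M) + 1) ^ Fintype.card ι ≤
      M * ((box ι X).filter fun x => ∀ l ∈ T, φ l x ∈ B l).card := by
    rw [← h1]
    have h3 : M * ((box ι X).filter fun x => ∀ l ∈ T, φ l x ∈ B l).card =
        ∑ _j ∈ range M, ((box ι X).filter fun x => ∀ l ∈ T, φ l x ∈ B l).card := by
      rw [Finset.sum_const, Finset.card_range, smul_eq_mul]
    rw [h3]
    refine Finset.sum_le_sum fun j hj => ?_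
    rw [Finset.mem_range] at hj
    refine Finset.card_le_card_of_injOn (fun x => x + j • e) ?_ ?_
    · intro x hx
      rw [Finset.mem_coe, Finset.mem_filter, mem_box] at hx
      rw [Finset.mem_coe, Finset.mem_filter, mem_box]
      refine ⟨fun i => ?_, fun l hl => hx.2 l hl⟩
      have h4 : (x + j • e) i = x i + j * e i := by simp
      show |(x + j • e) i| ≤ _
      rw [h4]
      have h5 : |(j : ℤ) * e i| ≤ M * κ := by
        rw [abs_mul, Nat.abs_cast]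
        exact mul_le_mul (by exact_mod_cast hj.le) (hκ i) (abs_nonneg _) (Nat.cast_nonneg _)
      have h6 := abs_add_le (x i) ((j : ℤ) * e i)
      have h7 := hx.1 i
      rw [Nat.cast_sub hX] at h7
      push_cast at h7
      linarith
    · intro x _ y _ hxy
      exact add_left_injective _ hxy
  rw [div_mul_eq_mul_div, div_le_iff₀ hM0, mul_comm _ ((M : ℕ) : ℝ)]
  exact_mod_cast h2

end H16E
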