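import Mathlib

/-!
# B6 (S): two elementary inequalities

`esymm_le`: `e_m(ρ) = ∑_{T ⊆ Q, #T = m} ∏_{l ∈ T} ρ l`.  `(m+1) e_{m+1} ≤ S e_m`, `S = ∑_{l ∈ Q} ρ l`:
`(m+1) e_{m+1} = ∑_{#T = m+1} ∑_{l ∈ T} ρ l ∏_{T \ l} = ∑_{#T' = m} ∏_{T'} ρ ∑_{l ∈ Q \ T'} ρ l`.
Induction on `m`.  (Or induction on `Q`; or the multinomial theorem.)
`choose_ge`: `C(s, m) m! = s (s-1) ... (s-m+1) ≥ (s - m + 1)^m ≥ a^m`
(`Nat.pow_sub_le_descFactorial`, `Nat.descFactorial_eq_factorial_mul_choose`).
-/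

open Finset

namespace H16E

theorem B6_bin {S r : ℝ} (hS : 0 ≤ S) (hr : 0 ≤ r) (m : ℕ) :
    S ^ (m + 1) + (m + 1) * r * S ^ m ≤ (S + r) ^ (m + 1) := by
  induction m with
  | zero =>
    simp
  | succ m ih =>
    have h1 : 0 ≤ S ^ m := pow_nonneg hS m
    calc S ^ (m + 1 + 1) + ((m + 1 : ℕ) + 1) * r * S ^ (m + 1) ≤
        (S ^ (m + 1) + (m + 1) * r * S ^ m) * (S + r) := by
          have h2 : (S ^ (m + 1) + (m + 1) * r * S ^ m) * (S + r) =
            S ^ (m + 1 + 1) + ((m + 1 : ℕ) + 1) * r * S ^ (m + 1) + (m + 1) * r ^ 2 * S ^ m := by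
            push_cast
            ring
          rw [h2]
          have : 0 ≤ ((m : ℝ) + 1) * r ^ 2 * S ^ m := by positivity
          linarith
      _ ≤ (S + r) ^ (m + 1) * (S + r) := mul_le_mul_of_nonneg_right ih (by linarith)
      _ = (S + r) ^ (m + 1 + 1) := (pow_succ _ _).symm

theorem esymm_le {α : Type*} [DecidableEq α] (Q : Finset α) (ρ : α → ℝ) (hρ : ∀ l ∈ Q, 0 ≤ ρ l)
    (m : ℕ) : ∑ T ∈ Q.powersetCard m, ∏ l ∈ T, ρ l ≤ (∑ l ∈ Q, ρ l) ^ m / (m.factorial : ℝ) := by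
  induction Q using Finset.induction_on generalizing m with
  | empty =>
    cases m with
    | zero => simp
    | succ m =>
      rw [Finset.powersetCard_eq_empty.2 (by simp), Finset.sum_empty, Finset.sum_empty]
      positivity
  | insert x Q hx ih =>
    have hρ' : ∀ l ∈ Q, 0 ≤ ρ l := fun l hl => hρ l (Finset.mem_insert_of_mem hl)
    have hx0 : 0 ≤ ρ x := hρ x (Finset.mem_insert_self x Q)
    cases m with
    | zero => simp
    | succ m =>
      have hS : 0 ≤ ∑ l ∈ Q, ρ l := Finset.sum_nonneg hρ'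
      rw [Finset.powersetCard_succ_insert hx, Finset.sum_union, Finset.sum_image, Finset.sum_insert hx]
      · have h1 := ih hρ' (m + 1)
        have h2 := ih hρ' m
        have h3 : ∑ T ∈ Q.powersetCard m, ∏ l ∈ insert x T, ρ l =
            ρ x * ∑ T ∈ Q.powersetCard m, ∏ l ∈ T, ρ l := by
          rw [Finset.mul_sum]
          refine Finset.sum_congr rfl fun T hT => ?_
          rw [Finset.prod_insert]
          exact fun h => hx ((Finset.mem_powersetCard.1 hT).1 h)
        rw [h3]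
        have h4 := B6_bin hS hx0 m
        have hf : (0 : ℝ) < (m.factorial : ℝ) := by exact_mod_cast m.factorial_pos
        have hf1 : ((m + 1).factorial : ℝ) = (m + 1) * (m.factorial : ℝ) := by
          rw [Nat.factorial_succ]
          push_cast
          ring
        calc ∑ T ∈ Q.powersetCard (m + 1), ∏ l ∈ T, ρ l + ρ x * ∑ T ∈ Q.powersetCard m, ∏ l ∈ T, ρ l ≤
            (∑ l ∈ Q, ρ l) ^ (m + 1) / ((m + 1).factorial : ℝ) +
              ρ x * ((∑ l ∈ Q, ρ l) ^ m / (m.factorial : ℝ)) :=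
              add_le_add h1 (mul_le_mul_of_nonneg_left h2 hx0)
          _ = ((∑ l ∈ Q, ρ l) ^ (m + 1) + (m + 1) * ρ x * (∑ l ∈ Q, ρ l) ^ m) / ((m + 1).factorial : ℝ) := by
              rw [hf1]
              field_simp
          _ ≤ (ρ x + ∑ l ∈ Q, ρ l) ^ (m + 1) / ((m + 1).factorial : ℝ) := by
              rw [add_comm (ρ x)]
              exact div_le_div_of_nonneg_right h4 (by positivity)
      · intro T hT T' hT' h
        have hxT : x ∉ T := fun h' => hx ((Finset.mem_powersetCard.1 hT).1 h')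
        have hxT' : x ∉ T' := fun h' => hx ((Finset.mem_powersetCard.1 hT').1 h')
        have h5 := congrArg (fun s => s.erase x) h
        rw [Finset.erase_insert hxT, Finset.erase_insert hxT'] at h5
        exact h5
      · rw [Finset.disjoint_left]
        intro T hT hT'
        obtain ⟨T', _, rfl⟩ := Finset.mem_image.1 hT'
        exact hx ((Finset.mem_powersetCard.1 hT).1 (Finset.mem_insert_self x T'))

theorem choose_ge (s m : ℕ) (a : ℝ) (ha : 0 ≤ a) (h : a + m ≤ s + 1) :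
    a ^ m / (m.factorial : ℝ) ≤ (s.choose m : ℝ) := by
  have hm : m ≤ s + 1 := by
    have h1 : (m : ℝ) ≤ s + 1 := by linarith
    exact_mod_cast h1
  have h1 := Nat.pow_sub_le_descFactorial s m
  have h2 : a ≤ ((s + 1 - m : ℕ) : ℝ) := by
    rw [Nat.cast_sub hm]
    push_cast
    linarith
  have h3 : a ^ m ≤ ((s.descFactorial m : ℕ) : ℝ) := by
    calc a ^ m ≤ ((s + 1 - m : ℕ) : ℝ) ^ m := pow_le_pow_left₀ ha h2 m
      _ = (((s + 1 - m) ^ m : ℕ) : ℝ) := by push_cast; ring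
      _ ≤ _ := by exact_mod_cast h1
  rw [div_le_iff₀ (by exact_mod_cast m.factorial_pos)]
  rw [Nat.descFactorial_eq_factorial_mul_choose] at h3
  push_cast at h3
  linarith

end H16E
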