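import Pool.Agent.Lib.H16E.B4
import Pool.Agent.Lib.H16E.B6

/-!
# B7 (M): the first moment over the pairs `(x, T')`

`S = ∑_{l ∈ Q} rh l`, `t ≤ S/16`, `m = t + 1`, `N' = (2(X + κ w^(2(t+1))) + 1)^g`.
`𝔉` = the set of the `x ∈ box X ∩ Bd r` with `s(x) = #{l ∈ Q | Ex φ l x} ≥ (15/16) S`.
For `x ∈ 𝔉` the number of the `T' ⊆ Q` with `#T' = t+1` and `Ex φ l x` for all `l ∈ T'` is
`C(s(x), t+1) ≥ (7S/8)^(t+1)/(t+1)!` (`choose_ge`, `(7/8) S + (t+1) ≤ (15/16) S + 1 ≤ s(x) + 1`).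
So `#𝔉 (7S/8)^(t+1)/(t+1)! ≤ ∑_{T' ∈ powersetCard (t+1) Q} #{x ∈ box X ∩ Bd r | Ex all l ∈ T'}`
`≤ n h n^r (3/4)^t N' ∑_{T'} ∏_{T'} rh l` (`bad_count`; `∏_{T'} l² ≤ w^(2(t+1))`)
`≤ n h n^r (3/4)^t N' S^(t+1)/(t+1)!` (`esymm_le`).
Divide by `S^(t+1)/(t+1)!`.
-/

open Finset

namespace H16E

open Classical in
theorem fail_count {n h N : ℕ} [NeZero n] {ι : Type*} [Fintype ι] [DecidableEq ι]
    (Γ : Sys n h N ι) {κ : ℕ} (hκ : ∀ i, |Γ.e i| ≤ κ) (Q : Finset ℕ) (hP : ∀ l ∈ Q, l ∈ Γ.P)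
    (hcls : ∀ l ∈ Q, ∀ l' ∈ Q, Γ.cls l = Γ.cls l') (w : ℕ) (hw : ∀ l ∈ Q, l ≤ w)
    (t : ℕ) (ht : 1 ≤ t) (htS : (t : ℝ) ≤ (∑ l ∈ Q, rh l) / 16) (r X : ℕ) :
    (((box ι X).filter fun x => x ∈ Γ.Bd r ∧ 15 / 16 * ∑ l ∈ Q, rh l ≤
        ((Q.filter fun l => Ex Γ.φ l x).card : ℝ)).card : ℝ) ≤
      n * h * (n : ℝ) ^ r * (3 / 4 : ℝ) ^ t * (8 / 7 : ℝ) ^ (t + 1) *
        ((2 * (X + κ * w ^ (2 * (t + 1))) + 1 : ℕ) : ℝ) ^ Fintype.card ι := by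
  have hpr : ∀ l ∈ Q, l.Prime := fun l hl => Γ.prime l (hP l hl)
  have hρ : ∀ l ∈ Q, 0 ≤ rh l := fun l hl => rh_nonneg (hpr l hl)
  have ht1 : (1 : ℝ) ≤ t := by exact_mod_cast ht
  have hS : 0 < ∑ l ∈ Q, rh l := by linarith
  -- the double counting
  have hdc : (∑ x ∈ (box ι X).filter (fun x => x ∈ Γ.Bd r ∧ 15 / 16 * ∑ l ∈ Q, rh l ≤
        ((Q.filter fun l => Ex Γ.φ l x).card : ℝ)),
        (((Q.filter fun l => Ex Γ.φ l x).powersetCard (t + 1)).card : ℝ)) ≤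
      ∑ T' ∈ Q.powersetCard (t + 1),
        (((box ι X).filter fun x => x ∈ Γ.Bd r ∧ ∀ l ∈ T', Ex Γ.φ l x).card : ℝ) := by
    have h1 : ∀ x : ι → ℤ, (Q.filter fun l => Ex Γ.φ l x).powersetCard (t + 1) =
        (Q.powersetCard (t + 1)).filter fun T' => ∀ l ∈ T', Ex Γ.φ l x := by
      intro x
      ext T'
      simp only [Finset.mem_powersetCard, Finset.mem_filter]
      constructor
      · rintro ⟨h1, h2⟩
        exact ⟨⟨fun l hl => (Finset.mem_filter.1 (h1 hl)).1, h2⟩,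
          fun l hl => (Finset.mem_filter.1 (h1 hl)).2⟩
      · rintro ⟨⟨h1, h2⟩, h3⟩
        exact ⟨fun l hl => Finset.mem_filter.2 ⟨h1 hl, h3 l hl⟩, h2⟩
    simp only [h1, Finset.card_filter, Nat.cast_sum]
    rw [Finset.sum_comm]
    refine Finset.sum_le_sum fun T' _ => ?_
    rw [Finset.sum_filter]
    refine Finset.sum_le_sum fun x _ => ?_
    by_cases hx : x ∈ Γ.Bd r
    · by_cases hy : ∀ l ∈ T', Ex Γ.φ l x
      · simp only [hx, hy, true_and]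
        split_ifs <;> simp
      · simp [hy]
    · simp [hx]
  have hlow : ∀ x ∈ (box ι X).filter (fun x => x ∈ Γ.Bd r ∧ 15 / 16 * ∑ l ∈ Q, rh l ≤
        ((Q.filter fun l => Ex Γ.φ l x).card : ℝ)),
      (7 / 8 * ∑ l ∈ Q, rh l) ^ (t + 1) / ((t + 1).factorial : ℝ) ≤
        (((Q.filter fun l => Ex Γ.φ l x).powersetCard (t + 1)).card : ℝ) := by
    intro x hx
    rw [Finset.card_powersetCard]
    have h2 := (Finset.mem_filter.1 hx).2.2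
    refine choose_ge _ _ _ (by positivity) ?_
    push_cast
    linarith
  have hup : ∀ T' ∈ Q.powersetCard (t + 1),
      (((box ι X).filter fun x => x ∈ Γ.Bd r ∧ ∀ l ∈ T', Ex Γ.φ l x).card : ℝ) ≤
      n * h * (n : ℝ) ^ r * (3 / 4 : ℝ) ^ t *
        ((2 * (X + κ * w ^ (2 * (t + 1))) + 1 : ℕ) : ℝ) ^ Fintype.card ι *
        ∏ l ∈ T', rh l := by
    intro T' hT'
    obtain ⟨hsub, hcard⟩ := Finset.mem_powersetCard.1 hT'
    refine (bad_count Γ hκ T' t ht hcard (fun l hl => hP l (hsub hl))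
      (fun l hl l' hl' => hcls l (hsub hl) l' (hsub hl')) r X).trans ?_
    have h3 : ∏ l ∈ T', l ^ 2 ≤ w ^ (2 * (t + 1)) := by
      calc ∏ l ∈ T', l ^ 2 ≤ ∏ l ∈ T', w ^ 2 :=
            Finset.prod_le_prod' fun l hl => Nat.pow_le_pow_left (hw l (hsub hl)) 2
        _ = w ^ (2 * (t + 1)) := by rw [Finset.prod_const, hcard, ← pow_mul]
    have h4 : ((2 * (X + κ * ∏ l ∈ T', l ^ 2) + 1 : ℕ) : ℝ) ^ Fintype.card ι ≤
        ((2 * (X + κ * w ^ (2 * (t + 1))) + 1 : ℕ) : ℝ) ^ Fintype.card ι := by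
      refine pow_le_pow_left₀ (by positivity) ?_ _
      have : 2 * (X + κ * ∏ l ∈ T', l ^ 2) + 1 ≤ 2 * (X + κ * w ^ (2 * (t + 1))) + 1 := by
        have := Nat.mul_le_mul_left κ h3
        omega
      exact_mod_cast this
    have h5 : 0 ≤ ∏ l ∈ T', rh l := Finset.prod_nonneg fun l hl => hρ l (hsub hl)
    calc n * h * (n : ℝ) ^ r * (3 / 4 : ℝ) ^ t * (∏ l ∈ T', rh l) *
          ((2 * (X + κ * ∏ l ∈ T', l ^ 2) + 1 : ℕ) : ℝ) ^ Fintype.card ι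
        ≤ n * h * (n : ℝ) ^ r * (3 / 4 : ℝ) ^ t * (∏ l ∈ T', rh l) *
          ((2 * (X + κ * w ^ (2 * (t + 1))) + 1 : ℕ) : ℝ) ^ Fintype.card ι :=
          mul_le_mul_of_nonneg_left h4 (by positivity)
      _ = _ := by ring
  have hes := esymm_le Q rh hρ (t + 1)
  set F := (box ι X).filter (fun x => x ∈ Γ.Bd r ∧ 15 / 16 * ∑ l ∈ Q, rh l ≤
        ((Q.filter fun l => Ex Γ.φ l x).card : ℝ)) with hF
  set S := ∑ l ∈ Q, rh l with hSd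
  set N' := ((2 * (X + κ * w ^ (2 * (t + 1))) + 1 : ℕ) : ℝ) ^ Fintype.card ι with hN'
  have hfac : (0 : ℝ) < ((t + 1).factorial : ℝ) := by exact_mod_cast Nat.factorial_pos _
  have hN0 : 0 ≤ N' := by positivity
  have hmain : (F.card : ℝ) * ((7 / 8 * S) ^ (t + 1) / ((t + 1).factorial : ℝ)) ≤
      n * h * (n : ℝ) ^ r * (3 / 4 : ℝ) ^ t * N' * (S ^ (t + 1) / ((t + 1).factorial : ℝ)) := by
    calc (F.card : ℝ) * ((7 / 8 * S) ^ (t + 1) / ((t + 1).factorial : ℝ))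
        = ∑ x ∈ F, ((7 / 8 * S) ^ (t + 1) / ((t + 1).factorial : ℝ)) := by
          rw [Finset.sum_const, nsmul_eq_mul]
      _ ≤ ∑ x ∈ F, (((Q.filter fun l => Ex Γ.φ l x).powersetCard (t + 1)).card : ℝ) :=
          Finset.sum_le_sum hlow
      _ ≤ ∑ T' ∈ Q.powersetCard (t + 1),
          (((box ι X).filter fun x => x ∈ Γ.Bd r ∧ ∀ l ∈ T', Ex Γ.φ l x).card : ℝ) := hdc
      _ ≤ ∑ T' ∈ Q.powersetCard (t + 1), n * h * (n : ℝ) ^ r * (3 / 4 : ℝ) ^ t * N' *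
            ∏ l ∈ T', rh l := Finset.sum_le_sum hup
      _ = n * h * (n : ℝ) ^ r * (3 / 4 : ℝ) ^ t * N' *
            ∑ T' ∈ Q.powersetCard (t + 1), ∏ l ∈ T', rh l := by rw [Finset.mul_sum]
      _ ≤ _ := mul_le_mul_of_nonneg_left hes (by positivity)
  have hSp : 0 < S ^ (t + 1) / ((t + 1).factorial : ℝ) := by positivity
  have h6 : (F.card : ℝ) * (7 / 8) ^ (t + 1) ≤ n * h * (n : ℝ) ^ r * (3 / 4 : ℝ) ^ t * N' := by
    refine le_of_mul_le_mul_right ?_ hSp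
    refine le_trans (le_of_eq ?_) hmain
    rw [mul_pow]
    ring
  have h7 : (0 : ℝ) < (7 / 8) ^ (t + 1) := by positivity
  calc (F.card : ℝ) = (F.card : ℝ) * (7 / 8) ^ (t + 1) * (8 / 7) ^ (t + 1) := by
        rw [mul_assoc, ← mul_pow]
        norm_num
    _ ≤ n * h * (n : ℝ) ^ r * (3 / 4 : ℝ) ^ t * N' * (8 / 7) ^ (t + 1) :=
        mul_le_mul_of_nonneg_right h6 (by positivity)
    _ = _ := by ring

end H16E
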