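import Pool.Agent.Lib.H16E.B0

/-!
# B8 (M): the choice of the parameters

`n ≥ 2`, `N ≥ 1`.  `c' = c₀/(256 N)`, `c = c' log(16/15)/(2 log n)`.
For a natural number `X` let `Y = √(log X)`, `w = ⌊exp(Y/2)⌋₊`.  As `X → ∞`, `Y → ∞`, `w → ∞`, and
`exp(Y/2)/2 ≤ w ≤ exp(Y/2)`, so `Y/4 ≤ log w ≤ Y/2` and
`log log w ≥ log(Y/4) = (1/2) log log X - log 4 ≥ (1/4) log log X` for large `X`.
`∑_{l ∈ P, l ≤ w} 1/l ≥ c₀ log log w ≥ (c₀/4) log log X` (`hgrow`), and `rh l ≥ 1/(2l)` (`rh_ge`), so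
for some class `j : Fin N` (pigeonhole: the sum over `j` of the `S_j` is at least `(c₀/8) log log X`)
`S = S_j ≥ (c₀/(8N)) log log X = 32 c' log log X`.
`t = ⌊S/16⌋₊ ≥ S/16 - 1 ≥ 2 c' log log X - 1 ≥ c' log log X` and `t ≥ 1` for large `X`.
`S ≤ ∑_{l ≤ w} 1/l ≤ 1 + log w ≤ 1 + Y/2` (`rh_le`; harmonic sum: `harmonic_le_one_add_log`), so
`t + 1 ≤ (1 + Y/2)/16 + 1 ≤ Y/16` for large `X`, and
`w^(2(t+1)) ≤ exp(Y (t+1)) ≤ exp(Y²/16) = X^(1/16)`; `w⁴ ≤ exp(2Y) ≤ X^(1/16)` for `Y ≥ 32`.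
`r = ⌈c log log X⌉₊ ≤ c log log X + 1`, `r log n ≤ c' log(16/15) log log X / 2 + log n
≤ c' log(16/15) log log X ≤ t log(16/15)` for large `X`: `n^r ≤ (16/15)^t`.
-/

open Finset

namespace H16E

open Classical in
theorem choice (n : ℕ) (hn : 2 ≤ n) (N : ℕ) (hN : 0 < N) (c₀ : ℝ) (hc₀ : 0 < c₀) :
    ∃ c c' : ℝ, 0 < c ∧ 0 < c' ∧ ∀ (P : Set ℕ) (cls : ℕ → Fin N), (∀ l ∈ P, l.Prime) →
      (∃ x₀ : ℕ, ∀ x : ℕ, x₀ ≤ x →
        c₀ * Real.log (Real.log x) ≤ ∑ l ∈ (range (x + 1)).filter (· ∈ P), 1 / (l : ℝ)) →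
      ∃ X₀ : ℕ, ∀ X : ℕ, X₀ ≤ X → ∃ (w t : ℕ) (j : Fin N),
        1 ≤ t ∧
        (t : ℝ) ≤ (∑ l ∈ (range (w + 1)).filter (fun l => l ∈ P ∧ cls l = j), rh l) / 16 ∧
        c' * Real.log (Real.log X) ≤
          ∑ l ∈ (range (w + 1)).filter (fun l => l ∈ P ∧ cls l = j), rh l ∧
        c' * Real.log (Real.log X) ≤ t ∧
        (n : ℝ) ^ ⌈c * Real.log (Real.log X)⌉₊ ≤ (16 / 15 : ℝ) ^ t ∧
        ((w ^ (2 * (t + 1)) : ℕ) : ℝ) ≤ (X : ℝ) ^ (1 / 16 : ℝ) ∧
        ((w ^ 4 : ℕ) : ℝ) ≤ (X : ℝ) ^ (1 / 16 : ℝ) := by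
  have hNr : (0 : ℝ) < N := by exact_mod_cast hN
  have hn1 : (1 : ℝ) < n := by exact_mod_cast (by omega : 1 < n)
  have hlogn : 0 < Real.log n := Real.log_pos hn1
  have hlb : 0 < Real.log (16 / 15 : ℝ) := Real.log_pos (by norm_num)
  obtain ⟨c', hc'd⟩ : ∃ c' : ℝ, c' = c₀ / (256 * N) := ⟨_, rfl⟩
  have hc' : 0 < c' := by rw [hc'd]; positivity
  obtain ⟨c, hcd⟩ : ∃ c : ℝ, c = c' * Real.log (16 / 15 : ℝ) / (2 * Real.log n) := ⟨_, rfl⟩
  have hc : 0 < c := by rw [hcd]; positivity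
  refine ⟨c, c', hc, hc', ?_⟩
  intro P cls hprime hgrow
  obtain ⟨x₀, hx₀⟩ := hgrow
  have hL : Filter.Tendsto (fun X : ℕ => Real.log X) Filter.atTop Filter.atTop :=
    Real.tendsto_log_atTop.comp tendsto_natCast_atTop_atTop
  have hLL : Filter.Tendsto (fun X : ℕ => Real.log (Real.log X)) Filter.atTop Filter.atTop :=
    Real.tendsto_log_atTop.comp hL
  have hY : Filter.Tendsto (fun X : ℕ => Real.sqrt (Real.log X)) Filter.atTop Filter.atTop :=
    Real.tendsto_sqrt_atTop.comp hL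
  have hev : ∀ᶠ X : ℕ in Filter.atTop, 1 ≤ X ∧ 34 ≤ Real.sqrt (Real.log X) ∧
      2 * (x₀ : ℝ) ≤ Real.sqrt (Real.log X) ∧ 4 * Real.log 4 ≤ Real.log (Real.log X) ∧
      1 ≤ c' * Real.log (Real.log X) ∧
      2 * Real.log n ≤ c' * Real.log (16 / 15 : ℝ) * Real.log (Real.log X) := by
    refine (Filter.eventually_ge_atTop 1).and ((hY.eventually_ge_atTop _).and
      ((hY.eventually_ge_atTop _).and ((hLL.eventually_ge_atTop _).and
      ((hLL.const_mul_atTop hc').eventually_ge_atTop 1 |>.and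
      ((hLL.const_mul_atTop (by positivity : 0 < c' * Real.log (16 / 15 : ℝ))).eventually_ge_atTop
        _)))))
  obtain ⟨X₀, hX₀⟩ := Filter.eventually_atTop.1 hev
  refine ⟨X₀, fun X hX => ?_⟩
  obtain ⟨hX1, hY34, hYx, hLL4, hcLL, hnLL⟩ := hX₀ X hX
  set Y := Real.sqrt (Real.log X) with hYd
  set LL := Real.log (Real.log X) with hLLd
  have hXp : (0 : ℝ) < X := by exact_mod_cast hX1
  have hLpos : 0 < Real.log X := by
    by_contra hcon
    have : Y = 0 := Real.sqrt_eq_zero_of_nonpos (not_lt.1 hcon)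
    linarith
  have hY2 : Y ^ 2 = Real.log X := Real.sq_sqrt hLpos.le
  have hYpos : 0 < Y := by linarith
  obtain ⟨w, hwd⟩ : ∃ w : ℕ, w = ⌊Real.exp (Y / 2)⌋₊ := ⟨_, rfl⟩
  have hw1 : (w : ℝ) ≤ Real.exp (Y / 2) := by rw [hwd]; exact Nat.floor_le (Real.exp_pos _).le
  have hw2 : Real.exp (Y / 2) < w + 1 := by rw [hwd]; exact Nat.lt_floor_add_one _
  have hexp1 : Y / 2 + 1 ≤ Real.exp (Y / 2) := Real.add_one_le_exp _
  have hwx : x₀ ≤ w := by
    rw [hwd]
    refine Nat.le_floor ?_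
    linarith
  have hw17 : (17 : ℝ) ≤ w := by linarith
  have hwpos : (0 : ℝ) < w := by linarith
  -- logarithm of w
  have hlog4 : Real.log 4 = 2 * Real.log 2 := by
    rw [show (4 : ℝ) = 2 ^ 2 by norm_num, Real.log_pow]; norm_num
  have hlog2 : Real.log 2 ≤ 1 := by
    have := Real.log_le_sub_one_of_pos (show (0 : ℝ) < 2 by norm_num)
    linarith
  have hlog2p : 0 < Real.log 2 := Real.log_pos (by norm_num)
  have hlw : Y / 4 ≤ Real.log w := by
    have h1 : Real.exp (Y / 2) / 2 ≤ w := by linarith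
    have h2 : Real.log (Real.exp (Y / 2) / 2) ≤ Real.log w :=
      Real.log_le_log (by positivity) h1
    rw [Real.log_div (Real.exp_pos _).ne' (by norm_num), Real.log_exp] at h2
    linarith
  have hlw2 : Real.log w ≤ Y / 2 := by
    have := Real.log_le_log hwpos hw1
    rwa [Real.log_exp] at this
  have hLLY : LL = 2 * Real.log Y := by
    rw [hLLd, ← hY2, Real.log_pow]; norm_num
  have hllw : LL / 4 ≤ Real.log (Real.log w) := by
    have h1 : Real.log (Y / 4) ≤ Real.log (Real.log w) := Real.log_le_log (by positivity) hlw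
    rw [Real.log_div hYpos.ne' (by norm_num)] at h1
    linarith
  have hsum := hx₀ w hwx
  -- from 1/l to rh
  have hrh : c₀ / 8 * LL ≤ ∑ l ∈ (range (w + 1)).filter (· ∈ P), rh l := by
    have h1 : (∑ l ∈ (range (w + 1)).filter (· ∈ P), 1 / (l : ℝ)) / 2 ≤
        ∑ l ∈ (range (w + 1)).filter (· ∈ P), rh l := by
      rw [Finset.sum_div]
      refine Finset.sum_le_sum fun l hl => ?_
      have h2 := rh_ge (hprime l (Finset.mem_filter.1 hl).2)
      refine le_trans (le_of_eq ?_) h2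
      rw [div_div, mul_comm]
    have h3 : c₀ * (LL / 4) ≤ c₀ * Real.log (Real.log w) :=
      mul_le_mul_of_nonneg_left hllw hc₀.le
    linarith
  -- pigeonhole
  have hpig : ∃ j : Fin N, c₀ / (8 * N) * LL ≤
      ∑ l ∈ (range (w + 1)).filter (fun l => l ∈ P ∧ cls l = j), rh l := by
    by_contra hcon
    push Not at hcon
    have h1 : ∑ l ∈ (range (w + 1)).filter (· ∈ P), rh l =
        ∑ j : Fin N, ∑ l ∈ (range (w + 1)).filter (fun l => l ∈ P ∧ cls l = j), rh l := by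
      rw [← Finset.sum_fiberwise (s := (range (w + 1)).filter (· ∈ P)) (g := cls)]
      refine Finset.sum_congr rfl fun j _ => ?_
      rw [Finset.filter_filter]
    have h2 : ∑ j : Fin N, ∑ l ∈ (range (w + 1)).filter (fun l => l ∈ P ∧ cls l = j), rh l <
        ∑ j : Fin N, c₀ / (8 * N) * LL := by
      refine Finset.sum_lt_sum_of_nonempty ?_ fun j _ => hcon j
      exact ⟨⟨0, hN⟩, Finset.mem_univ _⟩
    rw [Finset.sum_const, Finset.card_univ, Fintype.card_fin, nsmul_eq_mul] at h2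
    have h3 : (N : ℝ) * (c₀ / (8 * N) * LL) = c₀ / 8 * LL := by
      field_simp
    rw [h3, ← h1] at h2
    linarith
  obtain ⟨j, hj⟩ := hpig
  set S := ∑ l ∈ (range (w + 1)).filter (fun l => l ∈ P ∧ cls l = j), rh l with hSd
  have h32 : c₀ / (8 * N) * LL = 32 * (c' * LL) := by
    rw [hc'd]; field_simp; ring
  rw [h32] at hj
  have hSle : S ≤ 1 + Y / 2 := by
    have h1 : S ≤ ∑ l ∈ Finset.Icc 1 w, ((l : ℝ))⁻¹ := by
      rw [hSd]
      calc ∑ l ∈ (range (w + 1)).filter (fun l => l ∈ P ∧ cls l = j), rh l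
          ≤ ∑ l ∈ (range (w + 1)).filter (fun l => l ∈ P ∧ cls l = j), ((l : ℝ))⁻¹ := by
            refine Finset.sum_le_sum fun l hl => ?_
            have := rh_le (hprime l (Finset.mem_filter.1 hl).2.1)
            rwa [one_div] at this
        _ ≤ _ := by
            refine Finset.sum_le_sum_of_subset_of_nonneg ?_ fun l _ _ => by positivity
            intro l hl
            rw [Finset.mem_filter, Finset.mem_range] at hl
            rw [Finset.mem_Icc]
            exact ⟨(hprime l hl.2.1).one_le, by omega⟩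
    have h2 := harmonic_le_one_add_log w
    rw [harmonic_eq_sum_Icc] at h2
    push_cast at h2
    linarith
  obtain ⟨t, htd⟩ : ∃ t : ℕ, t = ⌊S / 16⌋₊ := ⟨_, rfl⟩
  have hS0 : 0 ≤ S / 16 := by
    have : 0 ≤ c' * LL := by linarith
    linarith
  have ht1 : (t : ℝ) ≤ S / 16 := by rw [htd]; exact Nat.floor_le hS0
  have ht2 : S / 16 < t + 1 := by rw [htd]; exact Nat.lt_floor_add_one _
  have ht3 : c' * LL ≤ t := by linarith
  have ht4 : 1 ≤ t := by
    have : (1 : ℝ) ≤ t := by linarith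
    exact_mod_cast this
  have hX16 : (X : ℝ) ^ (1 / 16 : ℝ) = Real.exp (Y ^ 2 / 16) := by
    rw [hY2, Real.rpow_def_of_pos hXp]
    congr 1
    ring
  refine ⟨w, t, j, ht4, ht1, by linarith, ht3, ?_, ?_, ?_⟩
  · -- n ^ r ≤ (16/15) ^ t
    have hr : ((⌈c * LL⌉₊ : ℕ) : ℝ) < c * LL + 1 := by
      refine Nat.ceil_lt_add_one ?_
      have : 0 < LL := by
        by_contra hcon
        have : c' * LL ≤ 0 := mul_nonpos_of_nonneg_of_nonpos hc'.le (not_lt.1 hcon)
        linarith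
      positivity
    have h1 : ((⌈c * LL⌉₊ : ℕ) : ℝ) * Real.log n ≤ t * Real.log (16 / 15 : ℝ) := by
      have h2 : ((⌈c * LL⌉₊ : ℕ) : ℝ) * Real.log n ≤ (c * LL + 1) * Real.log n :=
        mul_le_mul_of_nonneg_right hr.le hlogn.le
      have h3 : (c * LL + 1) * Real.log n = c' * Real.log (16 / 15 : ℝ) * LL / 2 + Real.log n := by
        rw [hcd]; field_simp
      have h4 : c' * Real.log (16 / 15 : ℝ) * LL ≤ t * Real.log (16 / 15 : ℝ) := by
        calc c' * Real.log (16 / 15 : ℝ) * LL = (c' * LL) * Real.log (16 / 15 : ℝ) := by ring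
          _ ≤ _ := mul_le_mul_of_nonneg_right ht3 hlb.le
      linarith
    have hnp : (0 : ℝ) < n := by linarith
    rw [← Real.exp_log hnp, ← Real.exp_log (show (0 : ℝ) < 16 / 15 by norm_num),
      ← Real.exp_nat_mul, ← Real.exp_nat_mul]
    exact Real.exp_le_exp.2 h1
  · -- w ^ (2 (t + 1))
    rw [hX16]
    push_cast
    calc (w : ℝ) ^ (2 * (t + 1)) ≤ Real.exp (Y / 2) ^ (2 * (t + 1)) :=
          pow_le_pow_left₀ hwpos.le hw1 _
      _ = Real.exp (Y * (t + 1)) := by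
          rw [← Real.exp_nat_mul]
          congr 1
          push_cast
          ring
      _ ≤ Real.exp (Y ^ 2 / 16) := by
          refine Real.exp_le_exp.2 ?_
          have h5 : (t : ℝ) + 1 ≤ Y / 16 := by linarith
          nlinarith
  · rw [hX16]
    push_cast
    calc (w : ℝ) ^ 4 ≤ Real.exp (Y / 2) ^ 4 := pow_le_pow_left₀ hwpos.le hw1 _
      _ = Real.exp (2 * Y) := by
          rw [← Real.exp_nat_mul]
          congr 1
          push_cast
          ring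
      _ ≤ Real.exp (Y ^ 2 / 16) := by
          refine Real.exp_le_exp.2 ?_
          nlinarith

end H16E
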