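import Mathlib

/-!
# B9 (S/M): a limit

`u = X^(1/16)`, `(2(X + κ u) + 1)/(2X+1) → 1` and `(2(X - κ u) + 1)/(2X+1) → 1` since `u/X → 0`; so the
`g`-th powers tend to `1`.  `1/(c' log log X) → 0`.
`E₁ = 256 ((..)^g/(c' log log X) + 2 ((..)^g - (..)^g))/(2X+1)^g → 256 (1 * 0 + 2 (1 - 1)) = 0`.
`E₂ = C (32/35)^(c' log log X) (..)^g/(2X+1)^g → C * 0 * 1 = 0`.
-/

open Filter Topology

namespace H16E

theorem b9_u : Tendsto (fun X : ℕ => (X : ℝ) ^ (1 / 16 : ℝ) / (2 * (X : ℝ) + 1)) atTop (𝓝 0) := by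
  have h1 : Tendsto (fun X : ℕ => (X : ℝ) ^ (-(15 / 16 : ℝ))) atTop (𝓝 0) :=
    (tendsto_rpow_neg_atTop (by norm_num : (0 : ℝ) < 15 / 16)).comp tendsto_natCast_atTop_atTop
  refine squeeze_zero' (Eventually.of_forall fun X => by positivity) ?_ h1
  filter_upwards [eventually_gt_atTop 0] with X hX
  have hX0 : (0 : ℝ) < X := Nat.cast_pos.2 hX
  rw [div_le_iff₀ (by positivity)]
  have h2 : (X : ℝ) ^ (1 / 16 : ℝ) = (X : ℝ) ^ (-(15 / 16 : ℝ)) * X := by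
    nth_rewrite 3 [← Real.rpow_one (X : ℝ)]
    rw [← Real.rpow_add hX0]
    norm_num
  rw [h2]
  refine mul_le_mul_of_nonneg_left ?_ (by positivity)
  linarith

theorem b9_pm (κ : ℝ) : Tendsto (fun X : ℕ =>
    (2 * ((X : ℝ) + κ * (X : ℝ) ^ (1 / 16 : ℝ)) + 1) / (2 * (X : ℝ) + 1)) atTop (𝓝 1) := by
  have h := (b9_u.const_mul (2 * κ)).const_add 1
  rw [mul_zero, add_zero] at h
  refine h.congr fun X => ?_
  have h0 : (2 * (X : ℝ) + 1) ≠ 0 := by positivity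
  field_simp
  ring

theorem lim_zero (g κ : ℕ) (c' C : ℝ) (hc' : 0 < c') :
    Tendsto (fun X : ℕ =>
      (256 * ((2 * ((X : ℝ) + κ * (X : ℝ) ^ (1 / 16 : ℝ)) + 1) ^ g / (c' * Real.log (Real.log X)) +
        2 * ((2 * ((X : ℝ) + κ * (X : ℝ) ^ (1 / 16 : ℝ)) + 1) ^ g -
          (2 * ((X : ℝ) - κ * (X : ℝ) ^ (1 / 16 : ℝ)) + 1) ^ g)) +
        C * (32 / 35 : ℝ) ^ (c' * Real.log (Real.log X)) *
          (2 * ((X : ℝ) + κ * (X : ℝ) ^ (1 / 16 : ℝ)) + 1) ^ g) / (2 * (X : ℝ) + 1) ^ g)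
      atTop (𝓝 0) := by
  have hLL : Tendsto (fun X : ℕ => c' * Real.log (Real.log X)) atTop atTop :=
    Tendsto.const_mul_atTop hc' (Real.tendsto_log_atTop.comp (Real.tendsto_log_atTop.comp
      tendsto_natCast_atTop_atTop))
  have h1 : Tendsto (fun X : ℕ => (c' * Real.log (Real.log X))⁻¹) atTop (𝓝 0) := hLL.inv_tendsto_atTop
  have h2 : Tendsto (fun X : ℕ => (32 / 35 : ℝ) ^ (c' * Real.log (Real.log X))) atTop (𝓝 0) :=
    (tendsto_rpow_atTop_of_base_lt_one (32 / 35) (by norm_num) (by norm_num)).comp hLL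
  have hA := (b9_pm (κ : ℝ)).pow g
  have hB := (b9_pm (-(κ : ℝ))).pow g
  rw [one_pow] at hA hB
  have h3 := (((hA.mul h1).add ((hA.sub hB).const_mul 2)).const_mul 256).add ((h2.const_mul C).mul hA)
  have e : (256 * ((1 : ℝ) * 0 + 2 * (1 - 1)) + C * 0 * 1) = 0 := by ring
  rw [e] at h3
  refine h3.congr fun X => ?_
  have h0 : (2 * (X : ℝ) + 1) ≠ 0 := by positivity
  have h0g : (2 * (X : ℝ) + 1) ^ g ≠ 0 := pow_ne_zero _ h0
  simp only [div_pow]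
  rw [eq_div_iff h0g]
  have e2 : (2 * ((X : ℝ) + -(κ : ℝ) * (X : ℝ) ^ (1 / 16 : ℝ)) + 1) =
      (2 * ((X : ℝ) - κ * (X : ℝ) ^ (1 / 16 : ℝ)) + 1) := by ring
  rw [e2]
  generalize (2 * ((X : ℝ) + κ * (X : ℝ) ^ (1 / 16 : ℝ)) + 1) ^ g = a
  generalize (2 * ((X : ℝ) - κ * (X : ℝ) ^ (1 / 16 : ℝ)) + 1) ^ g = b
  generalize (2 * (X : ℝ) + 1) ^ g = d at *
  generalize (c' * Real.log (Real.log X)) = f
  field_simp

end H16E
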