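import Pool.Agent.Lib.H16E.B5
import Pool.Agent.Lib.H16E.B7
import Pool.Agent.Lib.H16E.B8
import Pool.Agent.Lib.H16E.B9

/-!
# B10 (M): the abstract counting theorem

`c`, `c'` from `choice` (`n`, `N`, `c₀`).  `κ = max |e i|` (a natural number with `|e i| ≤ κ`; e.g.
`∑ i, (e i).natAbs`).  For `X ≥ X₀` (and `X` so large that `κ X^(1/16) ≤ X` and `log log X > 0`) take
`w`, `t`, `j` from `choice`, `Q = {l ≤ w | l ∈ P, cls l = j}`, `S = ∑_{l ∈ Q} rh l > 0`,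
`r = ⌈c log log X⌉₊`.  A vector `x ∈ box X ∩ Bd r` has `s(x) < (15/16) S` (`turan`) or
`s(x) ≥ (15/16) S` (`fail_count`).  `(3/4)^t (8/7)^(t+1) n^r ≤ (8/7) ((3/4)(8/7)(16/15))^t =
(8/7) (32/35)^t ≤ (8/7) (32/35)^(c' log log X)` (`32/35 < 1`, `c' log log X ≤ t`).
`w⁴, w^(2(t+1)) ≤ X^(1/16)`, `S ≥ c' log log X`; `2(X - κ w⁴) + 1 ≥ 2 (X - κ X^(1/16)) + 1 ≥ 0` (the
subtraction of natural numbers: `κ w⁴ ≤ κ X^(1/16) ≤ X`).  So the quotient is between `0` and the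
function of `lim_zero` with `C = n h (8/7)`; squeeze.  `#(box X) = (2X+1)^g` (`card_box`).
-/

open Finset Filter Topology

namespace H16E

open Classical in
theorem ana (n : ℕ) (hn : 2 ≤ n) (h N : ℕ) (hN : 0 < N) (c₀ : ℝ) (hc₀ : 0 < c₀) :
    ∃ c : ℝ, 0 < c ∧ ∀ (ι : Type) [Fintype ι] [DecidableEq ι] (Γ : Sys n h N ι),
      (∃ x₀ : ℕ, ∀ x : ℕ, x₀ ≤ x →
        c₀ * Real.log (Real.log x) ≤ ∑ l ∈ (range (x + 1)).filter (· ∈ Γ.P), 1 / (l : ℝ)) →
      Tendsto (fun X : ℕ =>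
        (((box ι X).filter fun x => x ∈ Γ.Bd ⌈c * Real.log (Real.log X)⌉₊).card : ℝ) /
          ((box ι X).card : ℝ)) atTop (𝓝 0) := by
  haveI : NeZero n := ⟨by omega⟩
  obtain ⟨c, c', hc, hc', hch⟩ := choice n hn N hN c₀ hc₀
  refine ⟨c, hc, ?_⟩
  intro ι _ _ Γ hgrow
  obtain ⟨X₀, hX₀⟩ := hch Γ.P Γ.cls Γ.prime hgrow
  obtain ⟨κ, hκd⟩ : ∃ κ : ℕ, κ = ∑ i, (Γ.e i).natAbs := ⟨_, rfl⟩
  have hκ : ∀ i, |Γ.e i| ≤ κ := by
    intro i
    rw [Int.abs_eq_natAbs, hκd]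
    exact_mod_cast Finset.single_le_sum (f := fun i => (Γ.e i).natAbs) (fun _ _ => Nat.zero_le _)
      (Finset.mem_univ i)
  have hL : Tendsto (fun X : ℕ => Real.log X) atTop atTop :=
    Real.tendsto_log_atTop.comp tendsto_natCast_atTop_atTop
  have hLL : Tendsto (fun X : ℕ => Real.log (Real.log X)) atTop atTop :=
    Real.tendsto_log_atTop.comp hL
  have hpow : Tendsto (fun X : ℕ => (X : ℝ) ^ (15 / 16 : ℝ)) atTop atTop :=
    (tendsto_rpow_atTop (by norm_num)).comp tendsto_natCast_atTop_atTop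
  have hlim := lim_zero (Fintype.card ι) κ c' ((n : ℝ) * h * (8 / 7)) hc'
  refine tendsto_of_tendsto_of_tendsto_of_le_of_le' tendsto_const_nhds hlim ?_ ?_
  · exact Eventually.of_forall fun X => by positivity
  filter_upwards [eventually_ge_atTop X₀, eventually_ge_atTop 1, hLL.eventually_gt_atTop 0,
    hpow.eventually_ge_atTop (κ : ℝ)] with X hXX hX1 hLLp hκX
  obtain ⟨w, t, j, ht, htS, hcS, hct, hnr, hw1, hw2⟩ := hX₀ X hXX
  set Q := (range (w + 1)).filter (fun l => l ∈ Γ.P ∧ Γ.cls l = j) with hQd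
  set S := ∑ l ∈ Q, rh l with hSd
  set r := ⌈c * Real.log (Real.log X)⌉₊ with hrd
  set u := (X : ℝ) ^ (1 / 16 : ℝ) with hud
  have hXp : (0 : ℝ) < X := by exact_mod_cast hX1
  have hu : u * (X : ℝ) ^ (15 / 16 : ℝ) = X := by
    rw [hud, ← Real.rpow_add hXp]
    norm_num
  have hu0 : 0 < u := by rw [hud]; positivity
  have hκu : κ * u ≤ X := by
    calc κ * u ≤ (X : ℝ) ^ (15 / 16 : ℝ) * u := mul_le_mul_of_nonneg_right hκX hu0.le
      _ = X := by rw [mul_comm, hu]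
  have hS0 : 0 < S := lt_of_lt_of_le (by positivity) hcS
  have hQP : ∀ l ∈ Q, l ∈ Γ.P := fun l hl => (Finset.mem_filter.1 hl).2.1
  have hQw : ∀ l ∈ Q, l ≤ w := fun l hl => by
    have := Finset.mem_range.1 (Finset.mem_filter.1 hl).1
    omega
  have hcls : ∀ l ∈ Q, ∀ l' ∈ Q, Γ.cls l = Γ.cls l' := fun l hl l' hl' => by
    rw [(Finset.mem_filter.1 hl).2.2, (Finset.mem_filter.1 hl').2.2]
  have hκw4 : κ * w ^ 4 ≤ X := by
    have h1 : ((κ * w ^ 4 : ℕ) : ℝ) ≤ X := by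
      rw [Nat.cast_mul]
      exact (mul_le_mul_of_nonneg_left hw2 (by positivity)).trans hκu
    exact_mod_cast h1
  have hA := turan Γ.φ Γ.e hκ Q (fun l hl => ⟨Γ.prime l (hQP l hl), Γ.one l (hQP l hl)⟩) w hQw X
    hκw4 hS0
  have hB := fail_count Γ hκ Q hQP hcls w hQw t ht htS r X
  set g := Fintype.card ι with hgd
  -- the split
  have hsplit : (((box ι X).filter fun x => x ∈ Γ.Bd r).card : ℝ) ≤
      (((box ι X).filter fun x => ((Q.filter fun l => Ex Γ.φ l x).card : ℝ) <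
        15 / 16 * ∑ l ∈ Q, rh l).card : ℝ) +
      (((box ι X).filter fun x => x ∈ Γ.Bd r ∧ 15 / 16 * ∑ l ∈ Q, rh l ≤
        ((Q.filter fun l => Ex Γ.φ l x).card : ℝ)).card : ℝ) := by
    have h1 : ((box ι X).filter fun x => x ∈ Γ.Bd r) ⊆
        ((box ι X).filter fun x => ((Q.filter fun l => Ex Γ.φ l x).card : ℝ) <
        15 / 16 * ∑ l ∈ Q, rh l) ∪ ((box ι X).filter fun x => x ∈ Γ.Bd r ∧
          15 / 16 * ∑ l ∈ Q, rh l ≤ ((Q.filter fun l => Ex Γ.φ l x).card : ℝ)) := by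
      intro x hx
      obtain ⟨hx1, hx2⟩ := Finset.mem_filter.1 hx
      rw [Finset.mem_union, Finset.mem_filter, Finset.mem_filter]
      rcases lt_or_ge ((Q.filter fun l => Ex Γ.φ l x).card : ℝ) (15 / 16 * ∑ l ∈ Q, rh l) with hh | hh
      · exact Or.inl ⟨hx1, hh⟩
      · exact Or.inr ⟨hx1, hx2, hh⟩
    have h2 := (Finset.card_le_card h1).trans (Finset.card_union_le _ _)
    exact_mod_cast h2
  -- comparison of the boxes
  have hPl4 : ((2 * (X + κ * w ^ 4) + 1 : ℕ) : ℝ) ≤ 2 * ((X : ℝ) + κ * u) + 1 := by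
    push_cast
    have h1 : (κ : ℝ) * (w : ℝ) ^ 4 ≤ κ * u := by
      have := mul_le_mul_of_nonneg_left hw2 (Nat.cast_nonneg κ)
      rwa [Nat.cast_pow] at this
    linarith
  have hPlt : ((2 * (X + κ * w ^ (2 * (t + 1))) + 1 : ℕ) : ℝ) ≤ 2 * ((X : ℝ) + κ * u) + 1 := by
    push_cast
    have h1 : (κ : ℝ) * (w : ℝ) ^ (2 * (t + 1)) ≤ κ * u := by
      have := mul_le_mul_of_nonneg_left hw1 (Nat.cast_nonneg κ)
      rwa [Nat.cast_pow] at this
    linarith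
  have hMi : 2 * ((X : ℝ) - κ * u) + 1 ≤ ((2 * (X - κ * w ^ 4) + 1 : ℕ) : ℝ) := by
    push_cast [Nat.cast_sub hκw4]
    have h1 : (κ : ℝ) * (w : ℝ) ^ 4 ≤ κ * u := by
      have := mul_le_mul_of_nonneg_left hw2 (Nat.cast_nonneg κ)
      rwa [Nat.cast_pow] at this
    linarith
  have hMi0 : 0 ≤ 2 * ((X : ℝ) - κ * u) + 1 := by linarith
  have hpow4 := pow_le_pow_left₀ (Nat.cast_nonneg _) hPl4 g
  have hpowt := pow_le_pow_left₀ (Nat.cast_nonneg _) hPlt g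
  have hpowm := pow_le_pow_left₀ hMi0 hMi g
  set U := (2 * ((X : ℝ) + κ * u) + 1) ^ g with hUd
  set W := (2 * ((X : ℝ) - κ * u) + 1) ^ g with hWd
  have hU0 : 0 ≤ U := by positivity
  have hA' : (((box ι X).filter fun x => ((Q.filter fun l => Ex Γ.φ l x).card : ℝ) <
        15 / 16 * ∑ l ∈ Q, rh l).card : ℝ) ≤
      256 * (U / (c' * Real.log (Real.log X)) + 2 * (U - W)) := by
    refine hA.trans (mul_le_mul_of_nonneg_left ?_ (by norm_num))
    refine add_le_add ?_ (mul_le_mul_of_nonneg_left (by linarith) (by norm_num))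
    exact div_le_div₀ hU0 hpow4 (by positivity) hcS
  have hB' : (((box ι X).filter fun x => x ∈ Γ.Bd r ∧ 15 / 16 * ∑ l ∈ Q, rh l ≤
        ((Q.filter fun l => Ex Γ.φ l x).card : ℝ)).card : ℝ) ≤
      n * h * (8 / 7) * (32 / 35 : ℝ) ^ (c' * Real.log (Real.log X)) * U := by
    refine hB.trans ?_
    have h1 : (n : ℝ) ^ r * (3 / 4 : ℝ) ^ t * (8 / 7 : ℝ) ^ (t + 1) ≤
        (8 / 7) * (32 / 35 : ℝ) ^ (c' * Real.log (Real.log X)) := by
      calc (n : ℝ) ^ r * (3 / 4 : ℝ) ^ t * (8 / 7 : ℝ) ^ (t + 1)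
          ≤ (16 / 15 : ℝ) ^ t * (3 / 4 : ℝ) ^ t * (8 / 7 : ℝ) ^ (t + 1) := by
            refine mul_le_mul_of_nonneg_right (mul_le_mul_of_nonneg_right hnr (by positivity))
              (by positivity)
        _ = (8 / 7) * ((16 / 15) * (3 / 4) * (8 / 7) : ℝ) ^ t := by
            rw [pow_succ, mul_pow, mul_pow]; ring
        _ = (8 / 7) * (32 / 35 : ℝ) ^ (t : ℝ) := by
            rw [Real.rpow_natCast]; norm_num
        _ ≤ _ := by
            refine mul_le_mul_of_nonneg_left ?_ (by norm_num)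
            exact Real.rpow_le_rpow_of_exponent_ge (by norm_num) (by norm_num) hct
    calc n * h * (n : ℝ) ^ r * (3 / 4 : ℝ) ^ t * (8 / 7 : ℝ) ^ (t + 1) *
          ((2 * (X + κ * w ^ (2 * (t + 1))) + 1 : ℕ) : ℝ) ^ g
        = n * h * ((n : ℝ) ^ r * (3 / 4 : ℝ) ^ t * (8 / 7 : ℝ) ^ (t + 1)) *
          ((2 * (X + κ * w ^ (2 * (t + 1))) + 1 : ℕ) : ℝ) ^ g := by ring
      _ ≤ n * h * ((8 / 7) * (32 / 35 : ℝ) ^ (c' * Real.log (Real.log X))) * U := by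
          refine mul_le_mul (mul_le_mul_of_nonneg_left h1 (by positivity)) hpowt (by positivity)
            (by positivity)
      _ = _ := by ring
  rw [card_box]
  push_cast
  refine div_le_div_of_nonneg_right ?_ (by positivity)
  linarith

end H16E
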