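import Pool.Agent.Lib.H16E.B0

/-!
# B2 (S/M): the residues modulo `l²` exactly divisible by `l`, and the power classes

`card_exR`: `m ↦ l m mod l²` is a bijection of `{1, ..., l-1}` with `exR l`
(`l m ≡ l m' mod l² ↔ m ≡ m' mod l`).
`card_pwR`: in the same way `#(pwR l r m₀) = #{m mod l | l ∤ m, m^r ≡ m₀^r mod l}`, and the polynomial
`X^r - m₀^r` over the field `ℤ/l` has at most `r` roots (`r ≥ 1`: `Polynomial.card_roots'`,
`nthRoots`: `Polynomial.card_nthRoots`).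
`ex_iff`: by definition.
`pw_mem`: `φ l x = l m`, `φ l x₀ = l m₀`, ...: by definition.
-/

open Finset

namespace H16E

open Classical in
/-- the residues `l m`, `l ∤ m`, modulo `l²` -/
noncomputable def exR (l : ℕ) : Finset (ZMod (l ^ 2)) :=
  if h : l = 0 then ∅ else
    haveI : NeZero (l ^ 2) := ⟨pow_ne_zero 2 h⟩
    univ.filter fun z => ∃ m : ℕ, ¬ l ∣ m ∧ z = ((l * m : ℕ) : ZMod (l ^ 2))

open Classical in
/-- the residues `l m`, `l ∤ m`, `m^r ≡ m₀^r` modulo `l` -/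
noncomputable def pwR (l r m₀ : ℕ) : Finset (ZMod (l ^ 2)) :=
  (exR l).filter fun z => ∃ m : ℕ, ¬ l ∣ m ∧ z = ((l * m : ℕ) : ZMod (l ^ 2)) ∧
    (l : ℤ) ∣ (m : ℤ) ^ r - (m₀ : ℤ) ^ r

theorem B2_key {l : ℕ} (hl : l ≠ 0) (m m' : ℕ) :
    ((l * m : ℕ) : ZMod (l ^ 2)) = ((l * m' : ℕ) : ZMod (l ^ 2)) ↔ m ≡ m' [MOD l] := by
  rw [ZMod.natCast_eq_natCast_iff, pow_two]
  exact Nat.ModEq.mul_left_cancel_iff' hl

theorem mem_exR {l : ℕ} (hl : l.Prime) {z : ZMod (l ^ 2)} :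
    z ∈ exR l ↔ ∃ m : ℕ, ¬ l ∣ m ∧ z = ((l * m : ℕ) : ZMod (l ^ 2)) := by
  classical
  have : NeZero (l ^ 2) := ⟨pow_ne_zero 2 hl.ne_zero⟩
  unfold exR
  rw [dif_neg hl.ne_zero, mem_filter]
  exact ⟨fun h => h.2, fun h => ⟨mem_univ _, h⟩⟩

theorem card_exR {l : ℕ} (hl : l.Prime) : (exR l).card = l - 1 := by
  classical
  have h1 : exR l = (Finset.Ico 1 l).image fun m : ℕ => ((l * m : ℕ) : ZMod (l ^ 2)) := by
    ext z
    rw [mem_exR hl, mem_image]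
    constructor
    · rintro ⟨m, hm, rfl⟩
      refine ⟨m % l, ?_, ?_⟩
      · rw [mem_Ico]
        exact ⟨Nat.pos_of_ne_zero fun h => hm (Nat.dvd_of_mod_eq_zero h), Nat.mod_lt _ hl.pos⟩
      · exact (B2_key hl.ne_zero _ _).2 (Nat.mod_modEq m l)
    · rintro ⟨m, hm, rfl⟩
      rw [mem_Ico] at hm
      exact ⟨m, fun h => absurd (Nat.le_of_dvd hm.1 h) (not_le.2 hm.2), rfl⟩
  rw [h1, card_image_of_injOn, Nat.card_Ico]
  intro m hm m' hm' h
  rw [mem_coe, mem_Ico] at hm hm'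
  exact Nat.ModEq.eq_of_lt_of_lt ((B2_key hl.ne_zero _ _).1 h) hm.2 hm'.2

theorem card_pwR {l r : ℕ} (hl : l.Prime) (hr : 0 < r) (m₀ : ℕ) : (pwR l r m₀).card ≤ r := by
  classical
  have : Fact l.Prime := ⟨hl⟩
  have h1 : pwR l r m₀ ⊆ (Polynomial.nthRoots r ((m₀ : ZMod l) ^ r)).toFinset.image
      fun a : ZMod l => ((l * a.val : ℕ) : ZMod (l ^ 2)) := by
    intro z hz
    unfold pwR at hz
    rw [mem_filter] at hz
    obtain ⟨-, m, -, rfl, hm⟩ := hz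
    rw [mem_image]
    refine ⟨(m : ZMod l), ?_, ?_⟩
    · rw [Multiset.mem_toFinset, Polynomial.mem_nthRoots hr]
      have h2 := (ZMod.intCast_zmod_eq_zero_iff_dvd _ _).2 hm
      push_cast at h2
      exact sub_eq_zero.1 h2
    · refine (B2_key hl.ne_zero _ _).2 ?_
      rw [ZMod.val_natCast]
      exact Nat.mod_modEq m l
  exact (card_le_card h1).trans (card_image_le.trans ((Multiset.toFinset_card_le _).trans
    (Polynomial.card_nthRoots _ _)))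

theorem exR_div {l : ℕ} (hl : l.Prime) : ((exR l).card : ℝ) / (l : ℝ) ^ 2 = rh l := by
  rw [card_exR hl, Nat.cast_sub hl.one_le, Nat.cast_one]
  rfl

theorem pwR_div {l p : ℕ} (hl : l.Prime) (hp : p.Prime) (hpl : p ∣ l - 1) (m₀ : ℕ) :
    ((pwR l ((l - 1) / p) m₀).card : ℝ) / (l : ℝ) ^ 2 ≤ rh l * (1 / p) := by
  have h0 : 0 < l - 1 := Nat.sub_pos_of_lt hl.one_lt
  have h1 := card_pwR hl (Nat.div_pos (Nat.le_of_dvd h0 hpl) hp.pos) m₀
  have h2 : (0 : ℝ) < p := by exact_mod_cast hp.pos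
  have h3 : (0 : ℝ) < l := by exact_mod_cast hl.pos
  have h4 : ((pwR l ((l - 1) / p) m₀).card : ℝ) ≤ ((l : ℝ) - 1) / p := by
    have h5 : ((pwR l ((l - 1) / p) m₀).card : ℝ) ≤ (((l - 1) / p : ℕ) : ℝ) := by
      exact_mod_cast h1
    rwa [Nat.cast_div hpl h2.ne', Nat.cast_sub hl.one_le, Nat.cast_one] at h5
  calc ((pwR l ((l - 1) / p) m₀).card : ℝ) / (l : ℝ) ^ 2 ≤ ((l : ℝ) - 1) / p / (l : ℝ) ^ 2 :=
        div_le_div_of_nonneg_right h4 (by positivity)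
    _ = rh l * (1 / p) := by
        unfold rh
        field_simp

end H16E
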