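import Pool.Agent.Lib.H16E.B1
import Pool.Agent.Lib.H16E.B2
import Pool.Agent.Lib.H16C.FN1

/-!
# B3 (M): the sum of the numbers of the `y` (for one prime `p ∣ n`)

`T' = insert l₁ T`, `t = #T`, `V = {y : T → ℤ/n | every y i is a multiple of n/p}`,
`𝔅 = {x ∈ box X | Ex φ l x for all l ∈ T'}`.
`sum_supp`: `∑_{y ∈ V} ∏_i (if y i = 0 then 1 else 1/p) ≤ (2 - 1/p)^t`: this is the end of the proof of
`H16C.count_bound` (file H16C/FN1.lean; `FN1_mult`).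
`one_y`: for `y ∈ V` and `j : Fin h` the set `𝔄(y,j) = {x ∈ 𝔅 | y ∈ Z x, c x y = j}` is empty or
contains some `x₀`; let `φ l x₀ = l m₀(l)` for `l ∈ T`.  By `H`, for `x ∈ 𝔄(y,j)` and `y l ≠ 0`:
`φ l x ∈ pwR l ((l-1)/p) (m₀ l)`; for the other `l ∈ T'`: `φ l x ∈ exR l`.  `count_le` with these
sets, `exR_div`, `pwR_div`: `#𝔄(y,j) ≤ (∏_{l ∈ T'} rh l) ∏_{l ∈ T} (if y l = 0 then 1 else 1/p) * (...)^g`.
`bad_sum`: interchange the sums: `∑_{x ∈ 𝔅} #{y ∈ V | y ∈ Z x} = ∑_{y ∈ V} ∑_{j : Fin h} #𝔄(y,j)`.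
(Model: `H16C.count_bound`.)
-/

open Finset

namespace H16E

open scoped Classical in
theorem sum_supp {n p : ℕ} [NeZero n] (hp : p.Prime) (hpn : p ∣ n) (ι : Type*) [Fintype ι]
    [DecidableEq ι] :
    ∑ y ∈ (univ : Finset (ι → ZMod n)).filter
        (fun y => ∀ i, ∃ u : ZMod n, y i = ((n / p : ℕ) : ZMod n) * u),
      ∏ i, (if y i = 0 then (1 : ℝ) else 1 / p) ≤ (2 - 1 / (p : ℝ)) ^ Fintype.card ι := by
  have hp0 : (0 : ℝ) < p := by exact_mod_cast hp.pos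
  obtain ⟨M, hM⟩ : ∃ M, M = univ.filter (fun z : ZMod n => ∃ u : ZMod n,
    z = ((n / p : ℕ) : ZMod n) * u) := ⟨_, rfl⟩
  have hV : (univ : Finset (ι → ZMod n)).filter
      (fun y => ∀ i, ∃ u : ZMod n, y i = ((n / p : ℕ) : ZMod n) * u) = Fintype.piFinset (fun _ : ι => M) := by
    ext y
    rw [Fintype.mem_piFinset]
    simp only [hM, mem_filter, mem_univ, true_and]
  have h1 := prod_univ_sum (fun _ : ι => M) (fun _ z => if z = 0 then (1 : ℝ) else 1 / p)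
  rw [hV, ← h1, prod_const, card_univ]
  have e5 : ∑ z ∈ M, (if z = 0 then (1 : ℝ) else 1 / p) ≤ 2 - 1 / p := by
    have h0 : (0 : ZMod n) ∈ M := by
      rw [hM, mem_filter]
      exact ⟨mem_univ _, 0, by rw [mul_zero]⟩
    have e6 : ∀ z ∈ M, (if z = 0 then (1 : ℝ) else 1 / p) =
        1 / p + (if z = 0 then (1 - 1 / (p : ℝ)) else 0) := by
      intro z _
      split_ifs <;> ring
    rw [sum_congr rfl e6, sum_add_distrib, sum_const, nsmul_eq_mul, sum_ite_eq', if_pos h0]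
    have h1 : (M.card : ℝ) ≤ p := by
      rw [hM]
      exact_mod_cast H16C.FN1_mult hp hpn
    have h2 : (M.card : ℝ) * (1 / p) ≤ 1 := by
      rw [mul_one_div, div_le_one hp0]
      exact h1
    linarith
  have e7 : 0 ≤ ∑ z ∈ M, (if z = 0 then (1 : ℝ) else 1 / p) := by
    apply sum_nonneg
    intro z _
    split_ifs <;> positivity
  gcongr

open Classical in
theorem b3_one {n : ℕ} [NeZero n] {h : ℕ} {ι : Type*} [Fintype ι] [DecidableEq ι]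
    (φ : ∀ l : ℕ, (ι → ℤ) →+ ZMod (l ^ 2)) (e : ι → ℤ) {κ : ℕ} (hκ : ∀ i, |e i| ≤ κ)
    (T : Finset ℕ) (l₁ : ℕ) (hl₁ : l₁ ∉ T)
    (hT : ∀ l ∈ insert l₁ T, l.Prime ∧ n ∣ l - 1 ∧ φ l e = 1) {p : ℕ} (hp : p.Prime) (hpn : p ∣ n)
    (Z : (ι → ℤ) → Set (T → ZMod n)) (c : (ι → ℤ) → (T → ZMod n) → Fin h)
    (y : T → ZMod n)
    (H : ∀ x x' : ι → ℤ, (∀ l ∈ insert l₁ T, Ex φ l x) → (∀ l ∈ insert l₁ T, Ex φ l x') →
        y ∈ Z x → y ∈ Z x' → c x y = c x' y →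
        ∀ l : T, y l ≠ 0 → ∀ m m' : ℕ, φ l x = (((l : ℕ) * m : ℕ) : ZMod ((l : ℕ) ^ 2)) →
          φ l x' = (((l : ℕ) * m' : ℕ) : ZMod ((l : ℕ) ^ 2)) →
            ((l : ℕ) : ℤ) ∣ (m : ℤ) ^ (((l : ℕ) - 1) / p) - (m' : ℤ) ^ (((l : ℕ) - 1) / p))
    (X : ℕ) (j : Fin h) :
    ((((box ι X).filter (fun x => ∀ l ∈ insert l₁ T, Ex φ l x)).filter
      (fun x => y ∈ Z x ∧ c x y = j)).card : ℝ) ≤
      (∏ l ∈ insert l₁ T, rh l) * (∏ i, (if y i = 0 then (1 : ℝ) else 1 / p)) *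
        ((2 * (X + κ * ∏ l ∈ insert l₁ T, l ^ 2) + 1 : ℕ) : ℝ) ^ Fintype.card ι := by
  have hp0 : (0 : ℝ) < p := by exact_mod_cast hp.pos
  have hrh : 0 ≤ ∏ l ∈ insert l₁ T, rh l := prod_nonneg fun l hl => rh_nonneg (hT l hl).1
  have hw0 : 0 ≤ ∏ i, (if y i = 0 then (1 : ℝ) else 1 / p) := by
    apply prod_nonneg
    intro i _
    split_ifs <;> positivity
  rcases (((box ι X).filter (fun x => ∀ l ∈ insert l₁ T, Ex φ l x)).filter
      (fun x => y ∈ Z x ∧ c x y = j)).eq_empty_or_nonempty with he | ⟨x₀, hx₀⟩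
  · rw [he, card_empty, Nat.cast_zero]
    positivity
  rw [mem_filter, mem_filter] at hx₀
  obtain ⟨⟨-, hE₀⟩, hZ₀, hc₀⟩ := hx₀
  have hm : ∀ l : ℕ, ∃ m : ℕ, l ∈ insert l₁ T → φ l x₀ = ((l * m : ℕ) : ZMod (l ^ 2)) := by
    intro l
    by_cases hl : l ∈ insert l₁ T
    · obtain ⟨m, -, hm⟩ := hE₀ l hl
      exact ⟨m, fun _ => hm⟩
    · exact ⟨0, fun h => absurd h hl⟩
  choose m₀ hm₀ using hm
  let B : ∀ l : ℕ, Finset (ZMod (l ^ 2)) := fun l =>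
    if h : l ∈ T then (if y ⟨l, h⟩ = 0 then exR l else pwR l ((l - 1) / p) (m₀ l)) else exR l
  let w : ℕ → ℝ := fun l => if h : l ∈ T then (if y ⟨l, h⟩ = 0 then (1 : ℝ) else 1 / p) else 1
  have hsub : ((box ι X).filter (fun x => ∀ l ∈ insert l₁ T, Ex φ l x)).filter
      (fun x => y ∈ Z x ∧ c x y = j) ⊆ (box ι X).filter (fun x => ∀ l ∈ insert l₁ T, φ l x ∈ B l) := by
    intro x hx
    rw [mem_filter, mem_filter] at hx
    obtain ⟨⟨hxb, hE⟩, hZ, hc⟩ := hx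
    rw [mem_filter]
    refine ⟨hxb, fun l hl => ?_⟩
    obtain ⟨m, hml, hmx⟩ := hE l hl
    have hex : φ l x ∈ exR l := (mem_exR (hT l hl).1).2 ⟨m, hml, hmx⟩
    by_cases h1 : l ∈ T
    · by_cases h2 : y ⟨l, h1⟩ = 0
      · have hB : B l = exR l := by
          simp only [B, dif_pos h1, if_pos h2]
        rw [hB]
        exact hex
      · have hB : B l = pwR l ((l - 1) / p) (m₀ l) := by
          simp only [B, dif_pos h1, if_neg h2]
        rw [hB, pwR, mem_filter]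
        refine ⟨hex, m, hml, hmx, ?_⟩
        exact H x x₀ hE hE₀ hZ hZ₀ (hc.trans hc₀.symm) ⟨l, h1⟩ h2 m (m₀ l) hmx (hm₀ l hl)
    · have hB : B l = exR l := by
        simp only [B, dif_neg h1]
      rw [hB]
      exact hex
  have h1 := count_le φ e hκ (insert l₁ T) (fun l hl => ⟨(hT l hl).1, (hT l hl).2.2⟩) B X
  have h2 : ∏ l ∈ insert l₁ T, ((B l).card : ℝ) / (l : ℝ) ^ 2 ≤ ∏ l ∈ insert l₁ T, (rh l * w l) := by
    refine prod_le_prod (fun l _ => by positivity) fun l hl => ?_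
    have hlp := (hT l hl).1
    by_cases h1 : l ∈ T
    · by_cases h2 : y ⟨l, h1⟩ = 0
      · have hB : B l = exR l := by
          simp only [B, dif_pos h1, if_pos h2]
        have hw : w l = 1 := by
          simp only [w, dif_pos h1, if_pos h2]
        rw [hB, hw, exR_div hlp, mul_one]
      · have hB : B l = pwR l ((l - 1) / p) (m₀ l) := by
          simp only [B, dif_pos h1, if_neg h2]
        have hw : w l = 1 / p := by
          simp only [w, dif_pos h1, if_neg h2]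
        rw [hB, hw]
        exact pwR_div hlp hp (hpn.trans (hT l hl).2.1) (m₀ l)
    · have hB : B l = exR l := by
        simp only [B, dif_neg h1]
      have hw : w l = 1 := by
        simp only [w, dif_neg h1]
      rw [hB, hw, exR_div hlp, mul_one]
  have h3 : ∏ l ∈ insert l₁ T, w l = ∏ i, (if y i = 0 then (1 : ℝ) else 1 / p) := by
    rw [prod_insert hl₁]
    have hw1 : w l₁ = 1 := by
      simp only [w, dif_neg hl₁]
    rw [hw1, one_mul, ← prod_coe_sort]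
    refine prod_congr rfl fun i _ => ?_
    simp only [w, dif_pos i.2]
  rw [prod_mul_distrib, h3] at h2
  have h4 : ((((box ι X).filter (fun x => ∀ l ∈ insert l₁ T, Ex φ l x)).filter
      (fun x => y ∈ Z x ∧ c x y = j)).card : ℝ) ≤
      (((box ι X).filter fun x => ∀ l ∈ insert l₁ T, φ l x ∈ B l).card : ℝ) := by
    exact_mod_cast card_le_card hsub
  refine h4.trans (h1.trans ?_)
  exact mul_le_mul_of_nonneg_right h2 (by positivity)

open Classical in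
theorem bad_sum {n : ℕ} [NeZero n] {h : ℕ} {ι : Type*} [Fintype ι] [DecidableEq ι]
    (φ : ∀ l : ℕ, (ι → ℤ) →+ ZMod (l ^ 2)) (e : ι → ℤ) {κ : ℕ} (hκ : ∀ i, |e i| ≤ κ)
    (T : Finset ℕ) (l₁ : ℕ) (hl₁ : l₁ ∉ T)
    (hT : ∀ l ∈ insert l₁ T, l.Prime ∧ n ∣ l - 1 ∧ φ l e = 1) {p : ℕ} (hp : p.Prime) (hpn : p ∣ n)
    (Z : (ι → ℤ) → Set (T → ZMod n)) (c : (ι → ℤ) → (T → ZMod n) → Fin h)
    (H : ∀ x x' : ι → ℤ, (∀ l ∈ insert l₁ T, Ex φ l x) → (∀ l ∈ insert l₁ T, Ex φ l x') →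
        ∀ y : T → ZMod n, y ∈ Z x → y ∈ Z x' → c x y = c x' y →
        (∀ i, ∃ u : ZMod n, y i = ((n / p : ℕ) : ZMod n) * u) →
        ∀ l : T, y l ≠ 0 → ∀ m m' : ℕ, φ l x = (((l : ℕ) * m : ℕ) : ZMod ((l : ℕ) ^ 2)) →
          φ l x' = (((l : ℕ) * m' : ℕ) : ZMod ((l : ℕ) ^ 2)) →
            ((l : ℕ) : ℤ) ∣ (m : ℤ) ^ (((l : ℕ) - 1) / p) - (m' : ℤ) ^ (((l : ℕ) - 1) / p))
    (X : ℕ) :
    ∑ x ∈ (box ι X).filter (fun x => ∀ l ∈ insert l₁ T, Ex φ l x),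
      (Nat.card {y : T → ZMod n // y ∈ Z x ∧
        ∀ i, ∃ u : ZMod n, y i = ((n / p : ℕ) : ZMod n) * u} : ℝ) ≤
      h * (2 - 1 / (p : ℝ)) ^ T.card * (∏ l ∈ insert l₁ T, rh l) *
        ((2 * (X + κ * ∏ l ∈ insert l₁ T, l ^ 2) + 1 : ℕ) : ℝ) ^ Fintype.card ι := by
  have hrh : 0 ≤ ∏ l ∈ insert l₁ T, rh l := prod_nonneg fun l hl => rh_nonneg (hT l hl).1
  obtain ⟨V, hV⟩ : ∃ V, V = (univ : Finset (T → ZMod n)).filter
      (fun y => ∀ i, ∃ u : ZMod n, y i = ((n / p : ℕ) : ZMod n) * u) := ⟨_, rfl⟩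
  obtain ⟨𝔅, h𝔅⟩ : ∃ 𝔅, 𝔅 = (box ι X).filter (fun x => ∀ l ∈ insert l₁ T, Ex φ l x) := ⟨_, rfl⟩
  have hVm : ∀ y, y ∈ V ↔ ∀ i, ∃ u : ZMod n, y i = ((n / p : ℕ) : ZMod n) * u := by
    intro y
    rw [hV, mem_filter]
    simp only [mem_univ, true_and]
  have e1 : ∀ x, (Nat.card {y : T → ZMod n // y ∈ Z x ∧
      ∀ i, ∃ u : ZMod n, y i = ((n / p : ℕ) : ZMod n) * u} : ℝ) =
      ∑ y ∈ V, (if y ∈ Z x then (1 : ℝ) else 0) := by
    intro x
    rw [Nat.card_eq_fintype_card, Fintype.card_subtype, ← sum_filter, sum_const, nsmul_eq_mul,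
      mul_one]
    congr 2
    ext y
    rw [mem_filter, mem_filter, hVm]
    simp only [mem_univ, true_and]
    tauto
  rw [← h𝔅, sum_congr rfl (fun x _ => e1 x), sum_comm]
  have e2 : ∀ y ∈ V, ∑ x ∈ 𝔅, (if y ∈ Z x then (1 : ℝ) else 0) ≤
      h * ((∏ l ∈ insert l₁ T, rh l) * (∏ i, (if y i = 0 then (1 : ℝ) else 1 / p)) *
        ((2 * (X + κ * ∏ l ∈ insert l₁ T, l ^ 2) + 1 : ℕ) : ℝ) ^ Fintype.card ι) := by
    intro y hy
    have e3 : ∑ x ∈ 𝔅, (if y ∈ Z x then (1 : ℝ) else 0) =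
        ∑ j : Fin h, ((𝔅.filter (fun x => y ∈ Z x ∧ c x y = j)).card : ℝ) := by
      rw [← sum_filter, sum_const, nsmul_eq_mul, mul_one,
        card_eq_sum_card_fiberwise (f := fun x => c x y) (t := (univ : Finset (Fin h)))
        (fun _ _ => mem_coe.2 (mem_univ _)), Nat.cast_sum]
      apply sum_congr rfl
      intro j _
      rw [filter_filter]
    rw [e3]
    have e4 : ∀ j ∈ (univ : Finset (Fin h)),
        ((𝔅.filter (fun x => y ∈ Z x ∧ c x y = j)).card : ℝ) ≤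
        (∏ l ∈ insert l₁ T, rh l) * (∏ i, (if y i = 0 then (1 : ℝ) else 1 / p)) *
        ((2 * (X + κ * ∏ l ∈ insert l₁ T, l ^ 2) + 1 : ℕ) : ℝ) ^ Fintype.card ι := by
      intro j _
      rw [h𝔅]
      exact b3_one φ e hκ T l₁ hl₁ hT hp hpn Z c y
        (fun x x' hx hx' hy1 hy2 hc => H x x' hx hx' y hy1 hy2 hc ((hVm y).1 hy)) X j
    refine (sum_le_sum e4).trans (le_of_eq ?_)
    rw [sum_const, card_univ, Fintype.card_fin, nsmul_eq_mul]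
  refine (sum_le_sum e2).trans ?_
  have e5 := sum_supp hp hpn (ι := T)
  rw [← hV, Fintype.card_coe] at e5
  have e6 : ∑ y ∈ V, (h : ℝ) * ((∏ l ∈ insert l₁ T, rh l) * (∏ i, (if y i = 0 then (1 : ℝ) else 1 / p)) *
        ((2 * (X + κ * ∏ l ∈ insert l₁ T, l ^ 2) + 1 : ℕ) : ℝ) ^ Fintype.card ι) =
      (h * (∏ l ∈ insert l₁ T, rh l) *
        ((2 * (X + κ * ∏ l ∈ insert l₁ T, l ^ 2) + 1 : ℕ) : ℝ) ^ Fintype.card ι) *
        ∑ y ∈ V, ∏ i, (if y i = 0 then (1 : ℝ) else 1 / p) := by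
    rw [mul_sum]
    refine sum_congr rfl fun y _ => ?_
    ring
  rw [e6]
  refine (mul_le_mul_of_nonneg_left e5 (by positivity)).trans (le_of_eq ?_)
  ring

end H16E
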