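import Pool.Agent.Lib.H16E.B3

/-!
# B4 (S/M): the number of the bad vectors exactly divisible by `T'`

`t = #T' - 1 ≥ 1`; `l₁ ∈ T'` arbitrary, `T = T'.erase l₁` (nonempty).  `Γ.link T l₁ r` gives `Z`, `c`.
If `x ∈ Bd r`, `Ex φ l x` for all `l ∈ T'`, then for some prime `p ∣ n`:
`p^t < N_p(x) p^r`, `N_p(x) = Nat.card {y | y ∈ Z x ∧ ...}`, so `1 ≤ ∑_{p ∣ n prime} N_p(x) p^r / p^t`.
Sum over `x` (`bad_sum` for each `p ∈ n.primeFactors`): the number is at most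
`∑_p p^r p^(-t) h (2 - 1/p)^t (∏ rh l) (...)^g`, and `(2 - 1/p)/p ≤ 3/4` (`(3/4) p² - 2p + 1 ≥ 0` for
`p ≥ 2`: `= (p - 2)(3p/4 - 1/2)`), `p^r ≤ n^r`, `#(n.primeFactors) ≤ n`.
-/

open Finset

namespace H16E

theorem b4_num {p : ℕ} (hp : p.Prime) (t : ℕ) :
    (2 - 1 / (p : ℝ)) ^ t / (p : ℝ) ^ t ≤ (3 / 4 : ℝ) ^ t := by
  have h2 : (2 : ℝ) ≤ p := by exact_mod_cast hp.two_le
  have h0 : (0 : ℝ) < p := by linarith
  have h1 : 1 / (p : ℝ) ≤ 1 := by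
    rw [div_le_one h0]
    linarith
  rw [← div_pow]
  refine pow_le_pow_left₀ (div_nonneg (by linarith) h0.le) ?_ t
  rw [div_le_iff₀ h0]
  have h3 : 1 / (p : ℝ) * p = 1 := by field_simp
  have h4 : 0 ≤ ((p : ℝ) - 2) * (3 * p / 4 - 1 / 2) := mul_nonneg (by linarith) (by linarith)
  have h5 : (2 - 1 / (p : ℝ)) * p ≤ 3 / 4 * p * p := by nlinarith
  exact le_of_mul_le_mul_right h5 h0

open Classical in
theorem bad_count {n h N : ℕ} [NeZero n] {ι : Type*} [Fintype ι] [DecidableEq ι]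
    (Γ : Sys n h N ι) {κ : ℕ} (hκ : ∀ i, |Γ.e i| ≤ κ) (T' : Finset ℕ) (t : ℕ) (ht : 1 ≤ t)
    (hT' : T'.card = t + 1) (hP : ∀ l ∈ T', l ∈ Γ.P)
    (hcls : ∀ l ∈ T', ∀ l' ∈ T', Γ.cls l = Γ.cls l') (r X : ℕ) :
    (((box ι X).filter fun x => x ∈ Γ.Bd r ∧ ∀ l ∈ T', Ex Γ.φ l x).card : ℝ) ≤
      n * h * (n : ℝ) ^ r * (3 / 4 : ℝ) ^ t * (∏ l ∈ T', rh l) *
        ((2 * (X + κ * ∏ l ∈ T', l ^ 2) + 1 : ℕ) : ℝ) ^ Fintype.card ι := by
  have hn0 : n ≠ 0 := NeZero.ne n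
  obtain ⟨l₁, hl₁⟩ : T'.Nonempty := by
    rw [← card_pos, hT']
    omega
  obtain ⟨T, hTdef⟩ : ∃ T, T = T'.erase l₁ := ⟨_, rfl⟩
  have hins : insert l₁ T = T' := by
    rw [hTdef]
    exact insert_erase hl₁
  have hl₁T : l₁ ∉ T := by
    rw [hTdef]
    exact notMem_erase _ _
  have hTc : T.card = t := by
    rw [hTdef, card_erase_of_mem hl₁, hT']
    omega
  have hTT : ∀ l ∈ T, l ∈ T' := fun l hl => by
    rw [← hins]
    exact mem_insert_of_mem hl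
  have hTne : T.Nonempty := by
    rw [← card_pos, hTc]
    omega
  obtain ⟨Z, c, h1, h2⟩ := Γ.link T l₁ hTne (fun l hl => ⟨hP l (hTT l hl), hcls l (hTT l hl) l₁ hl₁⟩)
    (hP l₁ hl₁) hl₁T r
  have hTprop : ∀ l ∈ insert l₁ T, l.Prime ∧ n ∣ l - 1 ∧ Γ.φ l Γ.e = 1 := by
    intro l hl
    rw [hins] at hl
    exact ⟨Γ.prime l (hP l hl), Γ.dvd l (hP l hl), Γ.one l (hP l hl)⟩
  have hrh : 0 ≤ ∏ l ∈ insert l₁ T, rh l := prod_nonneg fun l hl => rh_nonneg (hTprop l hl).1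
  obtain ⟨Np, hNp⟩ : ∃ Np : ℕ → (ι → ℤ) → ℝ, Np = fun p x => (Nat.card {y : T → ZMod n // y ∈ Z x ∧
          ∀ i, ∃ u : ZMod n, y i = ((n / p : ℕ) : ZMod n) * u} : ℝ) := ⟨_, rfl⟩
  have hNp0 : ∀ p x, 0 ≤ Np p x := by
    intro p x
    rw [hNp]
    exact Nat.cast_nonneg _
  have hsum : ∀ p ∈ n.primeFactors,
      ∑ x ∈ (box ι X).filter (fun x => ∀ l ∈ insert l₁ T, Ex Γ.φ l x), Np p x ≤
      h * (2 - 1 / (p : ℝ)) ^ T.card * (∏ l ∈ insert l₁ T, rh l) *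
        ((2 * (X + κ * ∏ l ∈ insert l₁ T, l ^ 2) + 1 : ℕ) : ℝ) ^ Fintype.card ι := by
    intro p hp
    have hpp := Nat.prime_of_mem_primeFactors hp
    have hpn := Nat.dvd_of_mem_primeFactors hp
    rw [hNp]
    exact bad_sum Γ.φ Γ.e hκ T l₁ hl₁T hTprop hpp hpn Z c
      (fun x x' hx hx' y hy1 hy2 hc hV => h2 x x' hx hx' y hy1 hy2 hc p hpp hpn hV) X
  have hcount : (((box ι X).filter fun x => x ∈ Γ.Bd r ∧ ∀ l ∈ T', Ex Γ.φ l x).card : ℝ) ≤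
      ∑ x ∈ (box ι X).filter (fun x => ∀ l ∈ insert l₁ T, Ex Γ.φ l x),
        ∑ p ∈ n.primeFactors, Np p x * ((p : ℝ) ^ r / (p : ℝ) ^ t) := by
    have e1 : (((box ι X).filter fun x => x ∈ Γ.Bd r ∧ ∀ l ∈ T', Ex Γ.φ l x).card : ℝ) =
        ∑ x ∈ (box ι X).filter (fun x => x ∈ Γ.Bd r ∧ ∀ l ∈ T', Ex Γ.φ l x), (1 : ℝ) := by
      rw [sum_const, nsmul_eq_mul, mul_one]
    rw [e1]
    have e2 : ∑ x ∈ (box ι X).filter (fun x => x ∈ Γ.Bd r ∧ ∀ l ∈ T', Ex Γ.φ l x), (1 : ℝ) ≤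
        ∑ x ∈ (box ι X).filter (fun x => x ∈ Γ.Bd r ∧ ∀ l ∈ T', Ex Γ.φ l x),
          ∑ p ∈ n.primeFactors, Np p x * ((p : ℝ) ^ r / (p : ℝ) ^ t) := by
      refine sum_le_sum fun x hx => ?_
      rw [mem_filter] at hx
      obtain ⟨p, hpp, hpn, hlt⟩ := h1 x hx.2.1 (by rw [hins]; exact hx.2.2)
      have hpm : p ∈ n.primeFactors := Nat.mem_primeFactors.2 ⟨hpp, hpn, hn0⟩
      have hp0 : (0 : ℝ) < p := by exact_mod_cast hpp.pos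
      have e3 : (1 : ℝ) ≤ Np p x * ((p : ℝ) ^ r / (p : ℝ) ^ t) := by
        rw [← mul_div_assoc, one_le_div (by positivity), hNp]
        rw [hTc] at hlt
        show (p : ℝ) ^ t ≤ (Nat.card {y : T → ZMod n // y ∈ Z x ∧
          ∀ i, ∃ u : ZMod n, y i = ((n / p : ℕ) : ZMod n) * u} : ℝ) * (p : ℝ) ^ r
        exact_mod_cast hlt.le
      refine e3.trans ?_
      exact single_le_sum (f := fun p : ℕ => Np p x * ((p : ℝ) ^ r / (p : ℝ) ^ t))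
        (fun q _ => mul_nonneg (hNp0 q x) (by positivity)) hpm
    refine e2.trans ?_
    refine sum_le_sum_of_subset_of_nonneg ?_ fun x _ _ => sum_nonneg fun q _ =>
      mul_nonneg (hNp0 q x) (by positivity)
    intro x hx
    rw [mem_filter] at hx ⊢
    rw [hins]
    exact ⟨hx.1, hx.2.2⟩
  refine hcount.trans ?_
  rw [sum_comm]
  have e4 : ∀ p ∈ n.primeFactors,
      ∑ x ∈ (box ι X).filter (fun x => ∀ l ∈ insert l₁ T, Ex Γ.φ l x), Np p x * ((p : ℝ) ^ r / (p : ℝ) ^ t) ≤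
      h * (n : ℝ) ^ r * (3 / 4 : ℝ) ^ t * (∏ l ∈ T', rh l) *
        ((2 * (X + κ * ∏ l ∈ T', l ^ 2) + 1 : ℕ) : ℝ) ^ Fintype.card ι := by
    intro p hp
    have hpp := Nat.prime_of_mem_primeFactors hp
    have hpn := Nat.dvd_of_mem_primeFactors hp
    have hp0 : (0 : ℝ) < p := by exact_mod_cast hpp.pos
    have hple : (p : ℝ) ≤ n := by exact_mod_cast Nat.le_of_dvd (Nat.pos_of_ne_zero hn0) hpn
    rw [← sum_mul]
    have e5 := mul_le_mul_of_nonneg_right (hsum p hp) (by positivity : 0 ≤ (p : ℝ) ^ r / (p : ℝ) ^ t)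
    refine e5.trans ?_
    rw [hTc, hins] at *
    have e6 := b4_num hpp t
    have e7 : (p : ℝ) ^ r ≤ (n : ℝ) ^ r := pow_le_pow_left₀ hp0.le hple r
    have h21 : 0 ≤ 2 - 1 / (p : ℝ) := by
      have : 1 / (p : ℝ) ≤ 1 := by
        rw [div_le_one hp0]
        exact_mod_cast hpp.one_le
      linarith
    calc h * (2 - 1 / (p : ℝ)) ^ t * (∏ l ∈ T', rh l) *
        ((2 * (X + κ * ∏ l ∈ T', l ^ 2) + 1 : ℕ) : ℝ) ^ Fintype.card ι * ((p : ℝ) ^ r / (p : ℝ) ^ t) =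
        (h * (∏ l ∈ T', rh l) * ((2 * (X + κ * ∏ l ∈ T', l ^ 2) + 1 : ℕ) : ℝ) ^ Fintype.card ι) *
          ((p : ℝ) ^ r * ((2 - 1 / (p : ℝ)) ^ t / (p : ℝ) ^ t)) := by ring
      _ ≤ (h * (∏ l ∈ T', rh l) * ((2 * (X + κ * ∏ l ∈ T', l ^ 2) + 1 : ℕ) : ℝ) ^ Fintype.card ι) *
          ((n : ℝ) ^ r * (3 / 4 : ℝ) ^ t) := by
          refine mul_le_mul_of_nonneg_left ?_ (by positivity)
          exact mul_le_mul e7 e6 (by positivity) (by positivity)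
      _ = _ := by ring
  refine (sum_le_sum e4).trans ?_
  rw [sum_const, nsmul_eq_mul]
  have hcard : ((n.primeFactors).card : ℝ) ≤ n := by
    have h3 : n.primeFactors.card ≤ n := by
      have h4 : n.primeFactors ⊆ Finset.Icc 1 n := by
        intro p hp
        have hpp := Nat.prime_of_mem_primeFactors hp
        have hpn := Nat.dvd_of_mem_primeFactors hp
        exact Finset.mem_Icc.2 ⟨hpp.one_le, Nat.le_of_dvd (Nat.pos_of_ne_zero hn0) hpn⟩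
      have h5 := card_le_card h4
      rwa [Nat.card_Icc, Nat.add_sub_cancel] at h5
    exact_mod_cast h3
  rw [hins] at hrh
  calc ((n.primeFactors).card : ℝ) * (h * (n : ℝ) ^ r * (3 / 4 : ℝ) ^ t * (∏ l ∈ T', rh l) *
        ((2 * (X + κ * ∏ l ∈ T', l ^ 2) + 1 : ℕ) : ℝ) ^ Fintype.card ι) ≤
      (n : ℝ) * (h * (n : ℝ) ^ r * (3 / 4 : ℝ) ^ t * (∏ l ∈ T', rh l) *
        ((2 * (X + κ * ∏ l ∈ T', l ^ 2) + 1 : ℕ) : ℝ) ^ Fintype.card ι) :=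
        mul_le_mul_of_nonneg_right hcard (by positivity)
    _ = _ := by ring

end H16E
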