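import Pool.Agent.Lib.H16E.B1
import Pool.Agent.Lib.H16E.B2

/-!
# B5 (M): the second moment (Turán)

`s(x) = #{l ∈ Q | Ex φ l x}`, `S = ∑_{l ∈ Q} rh l > 0`, `g = #ι`, `M = w⁴`,
`N₊ = (2(X + κ M) + 1)^g`, `N₋ = (2(X - κ M) + 1)^g`, `N = #(box X) = (2X+1)^g ≤ N₊`.
`∑_x s(x)² = ∑_{l, l' ∈ Q} #{x ∈ box X | Ex l, Ex l'}`.  `l ≠ l'`: `count_le` with `T = {l, l'}`
(`l² l'² ≤ w⁴`): `≤ rh l rh l' N₊`; `l = l'`: `T = {l}`: `≤ rh l N₊`.  So `∑ s² ≤ (S² + S) N₊`.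
`∑_x s(x) = ∑_{l ∈ Q} #{x ∈ box X | Ex l} ≥ S N₋` (`count_ge`, `T = {l}`, `l² ≤ w⁴`).
`∑_x (s(x) - S)² = ∑ s² - 2 S ∑ s + S² N ≤ (S²+S) N₊ - 2 S² N₋ + S² N₊ = S N₊ + 2 S² (N₊ - N₋)`.
If `s(x) < (15/16) S` then `(s(x) - S)² ≥ S²/256`.
-/

open Finset

namespace H16E

open Classical in
theorem b5_up {ι : Type*} [Fintype ι] [DecidableEq ι] (φ : ∀ l : ℕ, (ι → ℤ) →+ ZMod (l ^ 2))
    (e : ι → ℤ) {κ : ℕ} (hκ : ∀ i, |e i| ≤ κ) (T : Finset ℕ)
    (hT : ∀ l ∈ T, l.Prime ∧ φ l e = 1) (w X : ℕ) (hw : ∏ l ∈ T, l ^ 2 ≤ w ^ 4) :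
    (((box ι X).filter fun x => ∀ l ∈ T, Ex φ l x).card : ℝ) ≤
      (∏ l ∈ T, rh l) * ((2 * (X + κ * w ^ 4) + 1 : ℕ) : ℝ) ^ Fintype.card ι := by
  have h1 := count_le φ e hκ T hT exR X
  have h2 : (box ι X).filter (fun x => ∀ l ∈ T, Ex φ l x) =
      (box ι X).filter (fun x => ∀ l ∈ T, φ l x ∈ exR l) := by
    refine filter_congr fun x _ => ?_
    refine forall₂_congr fun l hl => ?_
    rw [mem_exR (hT l hl).1]
    rfl
  rw [h2]
  refine h1.trans ?_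
  have h3 : ∏ l ∈ T, ((exR l).card : ℝ) / (l : ℝ) ^ 2 = ∏ l ∈ T, rh l :=
    prod_congr rfl fun l hl => exR_div (hT l hl).1
  rw [h3]
  refine mul_le_mul_of_nonneg_left ?_ (prod_nonneg fun l hl => rh_nonneg (hT l hl).1)
  refine pow_le_pow_left₀ (Nat.cast_nonneg _) ?_ _
  have h4 : κ * ∏ l ∈ T, l ^ 2 ≤ κ * w ^ 4 := Nat.mul_le_mul_left κ hw
  have h5 : 2 * (X + κ * ∏ l ∈ T, l ^ 2) + 1 ≤ 2 * (X + κ * w ^ 4) + 1 := by omega
  exact_mod_cast h5

open Classical in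
theorem b5_lo {ι : Type*} [Fintype ι] [DecidableEq ι] (φ : ∀ l : ℕ, (ι → ℤ) →+ ZMod (l ^ 2))
    (e : ι → ℤ) {κ : ℕ} (hκ : ∀ i, |e i| ≤ κ) (l : ℕ)
    (hl : l.Prime ∧ φ l e = 1) (w X : ℕ) (hw : l ^ 2 ≤ w ^ 4) (hX : κ * w ^ 4 ≤ X) :
    rh l * ((2 * (X - κ * w ^ 4) + 1 : ℕ) : ℝ) ^ Fintype.card ι ≤
      (((box ι X).filter fun x => Ex φ l x).card : ℝ) := by
  have h4 : κ * l ^ 2 ≤ κ * w ^ 4 := Nat.mul_le_mul_left κ hw
  have h1 := count_ge φ e hκ {l} (fun l' hl' => by rw [mem_singleton.1 hl']; exact hl) exR X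
    (by rw [prod_singleton]; exact h4.trans hX)
  rw [prod_singleton, prod_singleton, exR_div hl.1] at h1
  have h2 : (box ι X).filter (fun x => Ex φ l x) =
      (box ι X).filter (fun x => ∀ l' ∈ ({l} : Finset ℕ), φ l' x ∈ exR l') := by
    refine filter_congr fun x _ => ?_
    constructor
    · intro hx l' hl'
      rw [mem_singleton.1 hl']
      exact (mem_exR hl.1).2 hx
    · intro hx
      exact (mem_exR hl.1).1 (hx l (mem_singleton_self l))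
  rw [h2]
  refine le_trans ?_ h1
  refine mul_le_mul_of_nonneg_left ?_ (rh_nonneg hl.1)
  refine pow_le_pow_left₀ (Nat.cast_nonneg _) ?_ _
  have h5 : 2 * (X - κ * w ^ 4) + 1 ≤ 2 * (X - κ * l ^ 2) + 1 := by omega
  exact_mod_cast h5

open Classical in
theorem turan {ι : Type*} [Fintype ι] [DecidableEq ι] (φ : ∀ l : ℕ, (ι → ℤ) →+ ZMod (l ^ 2))
    (e : ι → ℤ) {κ : ℕ} (hκ : ∀ i, |e i| ≤ κ) (Q : Finset ℕ)
    (hQ : ∀ l ∈ Q, l.Prime ∧ φ l e = 1) (w : ℕ) (hw : ∀ l ∈ Q, l ≤ w) (X : ℕ)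
    (hX : κ * w ^ 4 ≤ X) (hS : 0 < ∑ l ∈ Q, rh l) :
    (((box ι X).filter fun x => ((Q.filter fun l => Ex φ l x).card : ℝ) <
        15 / 16 * ∑ l ∈ Q, rh l).card : ℝ) ≤
      256 * (((2 * (X + κ * w ^ 4) + 1 : ℕ) : ℝ) ^ Fintype.card ι / (∑ l ∈ Q, rh l) +
        2 * (((2 * (X + κ * w ^ 4) + 1 : ℕ) : ℝ) ^ Fintype.card ι -
          ((2 * (X - κ * w ^ 4) + 1 : ℕ) : ℝ) ^ Fintype.card ι)) := by
  have hsq : ∀ l ∈ Q, l ^ 2 ≤ w ^ 4 := by
    intro l hl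
    have h1 := hw l hl
    have h2 := (hQ l hl).1.one_le
    calc l ^ 2 ≤ w ^ 2 := Nat.pow_le_pow_left h1 2
      _ ≤ w ^ 4 := Nat.pow_le_pow_right (h2.trans h1) (by norm_num)
  obtain ⟨Np, hNp⟩ : ∃ Np : ℝ, Np = ((2 * (X + κ * w ^ 4) + 1 : ℕ) : ℝ) ^ Fintype.card ι := ⟨_, rfl⟩
  obtain ⟨Nm, hNm⟩ : ∃ Nm : ℝ, Nm = ((2 * (X - κ * w ^ 4) + 1 : ℕ) : ℝ) ^ Fintype.card ι := ⟨_, rfl⟩
  have hNp0 : 0 ≤ Np := by
    rw [hNp]
    positivity
  obtain ⟨S, hSd⟩ : ∃ S : ℝ, S = ∑ l ∈ Q, rh l := ⟨_, rfl⟩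
  rw [← hSd] at hS
  let f : ℕ → (ι → ℤ) → ℝ := fun l x => if Ex φ l x then 1 else 0
  let s : (ι → ℤ) → ℝ := fun x => ∑ l ∈ Q, f l x
  have hs : ∀ x, ((Q.filter fun l => Ex φ l x).card : ℝ) = s x := by
    intro x
    show _ = ∑ l ∈ Q, (if Ex φ l x then (1 : ℝ) else 0)
    rw [← sum_filter, sum_const, nsmul_eq_mul, mul_one]
  have hff : ∀ l l', ∑ x ∈ box ι X, f l x * f l' x =
      (((box ι X).filter fun x => ∀ k ∈ ({l, l'} : Finset ℕ), Ex φ k x).card : ℝ) := by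
    intro l l'
    have h1 : ∀ x, f l x * f l' x = if (∀ k ∈ ({l, l'} : Finset ℕ), Ex φ k x) then (1 : ℝ) else 0 := by
      intro x
      show (if Ex φ l x then (1 : ℝ) else 0) * (if Ex φ l' x then (1 : ℝ) else 0) = _
      by_cases h1 : Ex φ l x
      · by_cases h2 : Ex φ l' x
        · rw [if_pos h1, if_pos h2, if_pos, mul_one]
          intro k hk
          rw [mem_insert, mem_singleton] at hk
          rcases hk with rfl | rfl
          · exact h1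
          · exact h2
        · have h3 : ¬ ∀ k ∈ ({l, l'} : Finset ℕ), Ex φ k x := fun h3 =>
            h2 (h3 l' (mem_insert_of_mem (mem_singleton_self l')))
          rw [if_neg h2, if_neg h3, mul_zero]
      · have h3 : ¬ ∀ k ∈ ({l, l'} : Finset ℕ), Ex φ k x := fun h3 => h1 (h3 l (mem_insert_self _ _))
        rw [if_neg h1, if_neg h3, zero_mul]
    rw [sum_congr rfl fun x _ => h1 x, ← sum_filter, sum_const, nsmul_eq_mul, mul_one]
  have hupper : ∀ l ∈ Q, ∀ l' ∈ Q, ∑ x ∈ box ι X, f l x * f l' x ≤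
      rh l * rh l' * Np + if l = l' then rh l * Np else 0 := by
    intro l hl l' hl'
    rw [hff]
    have hT : ∀ k ∈ ({l, l'} : Finset ℕ), k.Prime ∧ φ k e = 1 := by
      intro k hk
      rw [mem_insert, mem_singleton] at hk
      rcases hk with rfl | rfl
      · exact hQ k hl
      · exact hQ k hl'
    by_cases hll : l = l'
    · subst hll
      rw [if_pos rfl]
      have h1 := b5_up φ e hκ {l, l} hT w X (by
        rw [pair_eq_singleton, prod_singleton]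
        exact hsq l hl)
      rw [← hNp] at h1
      have h2 : ∏ k ∈ ({l, l} : Finset ℕ), rh k = rh l := by
        rw [pair_eq_singleton, prod_singleton]
      rw [h2] at h1
      refine h1.trans ?_
      have h3 := rh_nonneg (hQ l hl).1
      have h4 : 0 ≤ rh l * rh l * Np := by positivity
      linarith
    · rw [if_neg hll, add_zero]
      have h1 := b5_up φ e hκ {l, l'} hT w X (by
        rw [prod_pair hll]
        calc l ^ 2 * l' ^ 2 ≤ w ^ 2 * w ^ 2 :=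
              Nat.mul_le_mul (Nat.pow_le_pow_left (hw l hl) 2) (Nat.pow_le_pow_left (hw l' hl') 2)
          _ = w ^ 4 := by ring)
      rw [← hNp, prod_pair hll] at h1
      exact h1
  have hs2 : ∑ x ∈ box ι X, s x ^ 2 ≤ (S ^ 2 + S) * Np := by
    have h1 : ∀ x, s x ^ 2 = ∑ l ∈ Q, ∑ l' ∈ Q, f l x * f l' x := by
      intro x
      rw [sq]
      show (∑ l ∈ Q, f l x) * (∑ l ∈ Q, f l x) = _
      rw [sum_mul_sum]
    rw [sum_congr rfl fun x _ => h1 x, sum_comm]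
    have h2 : ∑ l ∈ Q, ∑ x ∈ box ι X, ∑ l' ∈ Q, f l x * f l' x ≤
        ∑ l ∈ Q, ∑ l' ∈ Q, (rh l * rh l' * Np + if l = l' then rh l * Np else 0) := by
      refine sum_le_sum fun l hl => ?_
      rw [sum_comm]
      exact sum_le_sum fun l' hl' => hupper l hl l' hl'
    refine h2.trans (le_of_eq ?_)
    have h3 : ∀ l ∈ Q, ∑ l' ∈ Q, (rh l * rh l' * Np + if l = l' then rh l * Np else 0) =
        rh l * S * Np + rh l * Np := by
      intro l hl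
      rw [sum_add_distrib, sum_ite_eq, if_pos hl, ← sum_mul, ← mul_sum, ← hSd]
    rw [sum_congr rfl h3, sum_add_distrib, ← sum_mul, ← sum_mul, ← sum_mul, ← hSd]
    ring
  have hs1 : S * Nm ≤ ∑ x ∈ box ι X, s x := by
    show S * Nm ≤ ∑ x ∈ box ι X, ∑ l ∈ Q, f l x
    rw [sum_comm, hSd, sum_mul]
    refine sum_le_sum fun l hl => ?_
    have h1 : ∑ x ∈ box ι X, f l x = (((box ι X).filter fun x => Ex φ l x).card : ℝ) := by
      show ∑ x ∈ box ι X, (if Ex φ l x then (1 : ℝ) else 0) = _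
      rw [← sum_filter, sum_const, nsmul_eq_mul, mul_one]
    rw [h1, hNm]
    exact b5_lo φ e hκ l (hQ l hl) w X (hsq l hl) hX
  have hN : ((box ι X).card : ℝ) ≤ Np := by
    rw [card_box, hNp]
    push_cast
    refine pow_le_pow_left₀ (by positivity) ?_ _
    have : (0 : ℝ) ≤ κ * w ^ 4 := by positivity
    linarith
  have hvar : ∑ x ∈ box ι X, (s x - S) ^ 2 ≤ S * Np + 2 * S ^ 2 * (Np - Nm) := by
    have h1 : ∑ x ∈ box ι X, (s x - S) ^ 2 =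
        ∑ x ∈ box ι X, s x ^ 2 - 2 * S * ∑ x ∈ box ι X, s x + S ^ 2 * ((box ι X).card : ℝ) := by
      rw [mul_sum, ← sum_sub_distrib, mul_comm (S ^ 2), ← nsmul_eq_mul, ← sum_const, ← sum_add_distrib]
      refine sum_congr rfl fun x _ => ?_
      ring
    rw [h1]
    have h2 : 2 * S * (S * Nm) ≤ 2 * S * ∑ x ∈ box ι X, s x :=
      mul_le_mul_of_nonneg_left hs1 (by positivity)
    have h3 : S ^ 2 * ((box ι X).card : ℝ) ≤ S ^ 2 * Np := mul_le_mul_of_nonneg_left hN (by positivity)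
    nlinarith
  rw [← hSd, ← hNp, ← hNm]
  have hmark : (((box ι X).filter fun x => ((Q.filter fun l => Ex φ l x).card : ℝ) <
      15 / 16 * S).card : ℝ) * (S ^ 2 / 256) ≤ ∑ x ∈ box ι X, (s x - S) ^ 2 := by
    have h1 : (((box ι X).filter fun x => ((Q.filter fun l => Ex φ l x).card : ℝ) <
        15 / 16 * S).card : ℝ) * (S ^ 2 / 256) =
        ∑ x ∈ (box ι X).filter (fun x => ((Q.filter fun l => Ex φ l x).card : ℝ) < 15 / 16 * S),
          S ^ 2 / 256 := by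
      rw [sum_const, nsmul_eq_mul]
    rw [h1]
    refine le_trans (sum_le_sum fun x hx => ?_) (sum_le_sum_of_subset_of_nonneg (filter_subset _ _)
      (fun x _ _ => sq_nonneg (s x - S)))
    rw [mem_filter, hs] at hx
    have h2 : S / 16 ≤ S - s x := by linarith [hx.2]
    have h3 : (S / 16) ^ 2 ≤ (S - s x) ^ 2 := pow_le_pow_left₀ (by positivity) h2 2
    calc S ^ 2 / 256 = (S / 16) ^ 2 := by ring
      _ ≤ (S - s x) ^ 2 := h3
      _ = (s x - S) ^ 2 := by ring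
  have h5 := hmark.trans hvar
  have h6 : 256 * (Np / S + 2 * (Np - Nm)) = (S * Np + 2 * S ^ 2 * (Np - Nm)) / (S ^ 2 / 256) := by
    field_simp
    try ring
  rw [h6, le_div_iff₀ (by positivity)]
  exact h5

end H16E
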