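import Pool.Agent.Lib.H16A.N3

/-!
# C1 (S/M; variant of H16C/GE2 `exists_a`, file H16C/GE2.lean): classification of primes

`F` a number field, `M > 0`, `P` a set of primes of `F` not dividing `M`.
The class of `w` is the pair (ideal class of `w`, residue of `a w` modulo `M`), in the finite set
`Cl(F) × (𝓞 F / M)`, where for `w ∈ P` the element `a w` generates `w J_C`, `C` = the ideal class of `w`,
`J_C = (w_C)^(h-1)`, `w_C ∈ P` a fixed element of `P` of class `C`, `h = #Cl(F)`.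
(If no element of `P` has class `C` there is nothing to choose; for `w ∉ P` put `a w = 1`.)
If `w, w₁ ∈ P` have the same class: `(a w)/(a w₁)` has divisor `w - w₁`, `a w` is prime to `M` since
`w` and `w_C` are, and `a w ≡ a w₁` modulo `M`.
All the steps are in the proof of `H16C.exists_a` (GE2.lean): `hprin`, `ha0`, `hcop`, the computation of
`ord`.  `Fin N`: `Finite.exists_equiv_fin` for `ClassGroup (𝓞 F) × (𝓞 F ⧸ span {M})`.
-/

open NumberField IsDedekindDomain H16A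

namespace H16E

open Classical in
theorem exists_cls (F : Type*) [Field F] [NumberField F] (M : ℕ) (hM : 0 < M)
    (P : Set (HeightOneSpectrum (𝓞 F)))
    (hP : ∀ w ∈ P, IsCoprime w.asIdeal (Ideal.span {(M : 𝓞 F)})) :
    ∃ (N : ℕ) (cls : HeightOneSpectrum (𝓞 F) → Fin N) (a : HeightOneSpectrum (𝓞 F) → 𝓞 F),
      0 < N ∧ ∀ w ∈ P, ∀ w₁ ∈ P, cls w = cls w₁ →
        a w ≠ 0 ∧ (∃ c : 𝓞 F, (M : 𝓞 F) ∣ a w * c - 1) ∧ (M : 𝓞 F) ∣ a w - a w₁ ∧
          ∀ u, ord u ((a w : F) / (a w₁ : F)) =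
            (if u = w then 1 else 0) - (if u = w₁ then 1 else 0) := by
  have hM0 : (M : 𝓞 F) ≠ 0 := Nat.cast_ne_zero.2 hM.ne'
  have hMb : (Ideal.span {(M : 𝓞 F)}) ≠ ⊥ := by
    rw [Ne, Ideal.span_singleton_eq_bot]
    exact hM0
  have hfin : Finite (𝓞 F ⧸ Ideal.span {(M : 𝓞 F)}) := Ideal.finiteQuotientOfFreeOfNeBot _ hMb
  set h : ℕ := Fintype.card (ClassGroup (𝓞 F)) with hh
  have hh0 : 0 < h := Fintype.card_pos
  set I : HeightOneSpectrum (𝓞 F) → Ideal (𝓞 F) := fun w => w.asIdeal with hI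
  have hI0 : ∀ t, I t ≠ 0 := fun t => t.ne_bot
  set I' : HeightOneSpectrum (𝓞 F) → nonZeroDivisors (Ideal (𝓞 F)) := fun t =>
    ⟨I t, mem_nonZeroDivisors_iff_ne_zero.2 (hI0 t)⟩ with hI'
  set cl : HeightOneSpectrum (𝓞 F) → ClassGroup (𝓞 F) := fun t =>
    ClassGroup.mk0 (I' t) with hcl
  have hJex : ∀ C : ClassGroup (𝓞 F), ∃ J : Ideal (𝓞 F), J ≠ 0 ∧
      IsCoprime J (Ideal.span {(M : 𝓞 F)}) ∧ ∀ t ∈ P, cl t = C → (I t * J).IsPrincipal := by
    intro C
    by_cases hC : ∃ t₀ ∈ P, cl t₀ = C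
    · obtain ⟨t₀, ht₀, hC⟩ := hC
      have hJ0 : I t₀ ^ (h - 1) ≠ 0 := pow_ne_zero _ (hI0 t₀)
      refine ⟨I t₀ ^ (h - 1), hJ0, (hP t₀ ht₀).pow_left, fun t _ htC => ?_⟩
      have h1 : ClassGroup.mk0 (I' t * I' t₀ ^ (h - 1)) = 1 := by
        rw [map_mul, map_pow]
        have h2 : ClassGroup.mk0 (I' t) = C := htC
        have h3 : ClassGroup.mk0 (I' t₀) = C := hC
        rw [h2, h3, ← pow_succ', Nat.sub_add_cancel hh0, hh, pow_card_eq_one]
      have h3 : I' t * I' t₀ ^ (h - 1) =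
          ⟨I t * I t₀ ^ (h - 1), mem_nonZeroDivisors_iff_ne_zero.2 (mul_ne_zero (hI0 t) hJ0)⟩ := by
        apply Subtype.ext
        rfl
      rw [h3] at h1
      exact (ClassGroup.mk0_eq_one_iff _).1 h1
    · refine ⟨1, one_ne_zero, isCoprime_one_left, fun t ht htC => ?_⟩
      exact absurd ⟨t, ht, htC⟩ hC
  choose J hJ0 hJM hJ using hJex
  have hprin : ∀ t, ∃ a : 𝓞 F, t ∈ P → Ideal.span {a} = I t * J (cl t) := by
    intro t
    by_cases ht : t ∈ P
    · obtain ⟨a, ha⟩ := hJ (cl t) t ht rfl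
      exact ⟨a, fun _ => ha.symm⟩
    · exact ⟨0, fun h1 => absurd h1 ht⟩
  choose a ha using hprin
  have ha0 : ∀ t ∈ P, a t ≠ 0 := by
    intro t ht h1
    have h2 := ha t ht
    rw [h1] at h2
    have h3 : I t * J (cl t) = 0 := by
      rw [← h2, Ideal.zero_eq_bot, Ideal.span_singleton_eq_bot]
    exact mul_ne_zero (hI0 t) (hJ0 _) h3
  have hcop : ∀ t ∈ P, ∃ b : 𝓞 F, (M : 𝓞 F) ∣ a t * b - 1 := by
    intro t ht
    have h2 : IsCoprime (Ideal.span {a t}) (Ideal.span {(M : 𝓞 F)}) := by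
      rw [ha t ht]
      exact (hP t ht).mul_left (hJM _)
    rw [Ideal.isCoprime_span_singleton_iff] at h2
    obtain ⟨b, c, hbc⟩ := h2
    exact ⟨b, -c, by linear_combination hbc⟩
  obtain ⟨N, ⟨e⟩⟩ := Finite.exists_equiv_fin (ClassGroup (𝓞 F) × (𝓞 F ⧸ Ideal.span {(M : 𝓞 F)}))
  refine ⟨N, fun t => e (cl t, Ideal.Quotient.mk (Ideal.span {(M : 𝓞 F)}) (a t)), a, ?_, ?_⟩
  · exact Fin.pos (e (1, 0))
  · intro t h1 t₁ h3 hcls
    have h9 := e.injective hcls
    rw [Prod.mk.injEq] at h9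
    obtain ⟨hcl1, hres⟩ := h9
    refine ⟨ha0 t h1, hcop t h1, ?_, fun u => ?_⟩
    · rw [← Ideal.mem_span_singleton, ← Ideal.Quotient.eq, hres]
    · have h5 : ∀ t ∈ P, ord u (a t : F) = (if u = t then 1 else 0) +
          FractionalIdeal.count F u ((J (cl t) : Ideal (𝓞 F)) : FractionalIdeal (nonZeroDivisors (𝓞 F)) F) := by
        intro t ht
        rw [n3_ord u (ha0 t ht), ha t ht, FractionalIdeal.coeIdeal_mul,
          FractionalIdeal.count_mul F u (FractionalIdeal.coeIdeal_ne_zero.2 (hI0 t))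
            (FractionalIdeal.coeIdeal_ne_zero.2 (hJ0 _)), hI, FractionalIdeal.count_maximal]
        by_cases h8 : t = u
        · rw [if_pos h8, if_pos h8.symm]
        · rw [if_neg h8, if_neg fun h9 => h8 h9.symm]
      have h6 : (a t : F) ≠ 0 := fun h => ha0 t h1 (RingOfIntegers.ext h)
      have h7 : (a t₁ : F) ≠ 0 := fun h => ha0 t₁ h3 (RingOfIntegers.ext h)
      rw [ord_div u h6 h7, h5 t h1, h5 t₁ h3, hcl1]
      ring

end H16E
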