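import Pool.Agent.Lib.H16C.GE4

/-!
# C2 (S): the family attached to a finite set of primes of one class

`a l = (aa l)/(aa l₁)`, `α l` an `n`-th root of it (`Ω` algebraically closed).  This is the last part of
the proof of `H16C.exists_fam` (file H16C/GE5.lean): the structure `Fam` from `GHyp` with
`fam_val`, `fam_one`, `fam_loc`.
-/

open NumberField IsDedekindDomain H16A

namespace H16E

open H16C

variable {k : Type*} [Field k] [NumberField k] {Ω : Type*} [Field Ω] [Algebra k Ω] [IsAlgClosed Ω]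
  [Algebra.IsAlgebraic k Ω] [CharZero Ω] [DecidableEq Ω] {W : WeierstrassCurve.Affine k}
  [W.IsShortNF] [W.IsElliptic] {n b : ℕ} [NeZero n] {S : Setup W Ω n}

theorem exists_Fam (hb : Bad W Ω n b) [NumberField S.L] (w : ℕ → HeightOneSpectrum (𝓞 S.L))
    (aa : ℕ → 𝓞 S.L) (T : Finset ℕ) (l₁ : ℕ) (hl₁ : l₁.Prime) (hl₁b : ¬ l₁ ∣ b) (hT : l₁ ∉ T)
    (hG : ∀ l ∈ T, GHyp S b l l₁ (w l) (w l₁) ((aa l : S.L) / (aa l₁ : S.L)) (aa l) (aa l₁)) :
    ∃ Φ : Fam S b, Φ.T = T ∧ Φ.l₁ = l₁ ∧
      ∀ l ∈ T, Φ.a l = (((aa l : S.L) / (aa l₁ : S.L) : S.L) : Ω) := by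
  classical
  have hroot : ∀ l : ℕ, ∃ z : Ω, z ^ n = ((((aa l : S.L) / (aa l₁ : S.L) : S.L)) : Ω) :=
    fun l => IsAlgClosed.exists_pow_nat_eq _ (Nat.pos_of_ne_zero (NeZero.ne n))
  choose αr hαr using hroot
  refine ⟨{ T := T
            l₁ := l₁
            a := fun l => ((((aa l : S.L) / (aa l₁ : S.L) : S.L)) : Ω)
            α := αr
            prime₁ := hl₁
            prime := fun l hl => (hG l hl).hl
            not_mem := hT
            good₁ := hl₁b
            good := fun l hl => (hG l hl).hlb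
            mem := fun l _ => SetLike.coe_mem _
            ne := ?_
            pow := fun l _ => hαr l
            val := fun l hl A => fam_val (hG l hl) A
            one := fun l hl A hA => fam_one (hG l hl) A hA
            loc := fun l hl => fam_loc hb (hG l hl) }, rfl, rfl, fun l _ => rfl⟩
  intro l hl h
  have h3 : ((aa l : S.L) / (aa l₁ : S.L) : S.L) = 0 := by
    exact_mod_cast h
  rw [div_eq_zero_iff] at h3
  rcases h3 with h3 | h3
  · exact (hG l hl).h1 (RingOfIntegers.coe_eq_zero_iff.1 h3)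
  · exact (hG l hl).h2 (RingOfIntegers.coe_eq_zero_iff.1 h3)

end H16E
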