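import Pool.Agent.Lib.H16A.PI1

/-!
# C3 (M): the sum of `1/p` over the primes with a prime of degree one

`H16A.degOne_sum F`: for every `ε > 0`, `x ≥ x₀(ε)`:
`(1-ε) log x ≤ ∑_{p ≤ x} degOne(p) log p / p ≤ (1+ε) log x`; `degOne F p ≤ D = [F:ℚ]` (`degOne_le`).
Take `ε = 1/4`, `z ≥ x₀`, `z ≥ 2`: the primes `z < p ≤ z²` contribute at least
`(3/4) 2 log z - (5/4) log z = (1/4) log z` to `∑ degOne(p) log p/p`, and `log p ≤ 2 log z`, so
`∑_{z < p ≤ z²} degOne(p)/p ≥ 1/8` and `∑_{z < p ≤ z², degOne ≥ 1} 1/p ≥ 1/(8D)`.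
Let `z_i = z₀^(2^i)` (`z₀ = max x₀ 2`): for `x ≥ z_m` the sum over `p ≤ x` is at least `m/(8D)`; the
largest `m` with `z_m ≤ x` satisfies `2^(m+1) log z₀ > log x`, so `m ≥ (log log x - log log z₀)/log 2 - 1`.
Removing the finite set `Bs` changes the sum by at most the constant `#Bs`.  So
`c = 1/(16 D)` (even `1/(8 D)`) works for large `x`.
-/

open NumberField Pool.Agent.Lib.H59

namespace H16E

/-- the sum over all primes with a prime of degree one above -/
noncomputable def c3_S (F : Type*) [Field F] [NumberField F] (x : ℕ) : ℝ :=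
  ∑ p ∈ (Finset.range (x + 1)).filter Nat.Prime, if 1 ≤ degOne F p then 1 / (p : ℝ) else 0

theorem c3_step (F : Type*) [Field F] [NumberField F] (z : ℕ) (h2 : 2 ≤ z)
    (hlo : (1 - 1 / 4 : ℝ) * Real.log ((z ^ 2 : ℕ) : ℝ) ≤
      ∑ p ∈ (Finset.range (z ^ 2 + 1)).filter Nat.Prime, (degOne F p : ℝ) * (Real.log p / p))
    (hup : ∑ p ∈ (Finset.range (z + 1)).filter Nat.Prime, (degOne F p : ℝ) * (Real.log p / p) ≤
      (1 + 1 / 4 : ℝ) * Real.log z) :
    c3_S F z + 1 / (8 * (Module.finrank ℚ F : ℝ)) ≤ c3_S F (z ^ 2) := by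
  classical
  have hD : (0 : ℝ) < (Module.finrank ℚ F : ℝ) := by exact_mod_cast Module.finrank_pos
  have hz1 : (1 : ℝ) < z := by exact_mod_cast (by omega : 1 < z)
  have hlz : 0 < Real.log z := Real.log_pos hz1
  have hzz : z ≤ z ^ 2 := by nlinarith
  have hsub : (Finset.range (z + 1)).filter Nat.Prime ⊆ (Finset.range (z ^ 2 + 1)).filter Nat.Prime := by
    apply Finset.filter_subset_filter
    apply Finset.range_subset_range.2
    omega
  have e1 := Finset.sum_sdiff (f := fun p : ℕ => (degOne F p : ℝ) * (Real.log p / p)) hsub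
  have e2 := Finset.sum_sdiff (f := fun p : ℕ => if 1 ≤ degOne F p then 1 / (p : ℝ) else 0) hsub
  have h3 : ∑ p ∈ (Finset.range (z ^ 2 + 1)).filter Nat.Prime \ (Finset.range (z + 1)).filter Nat.Prime,
      (degOne F p : ℝ) * (Real.log p / p) ≤
      (2 * Real.log z * (Module.finrank ℚ F : ℝ)) *
      ∑ p ∈ (Finset.range (z ^ 2 + 1)).filter Nat.Prime \ (Finset.range (z + 1)).filter Nat.Prime,
        if 1 ≤ degOne F p then 1 / (p : ℝ) else 0 := by
    rw [Finset.mul_sum]
    refine Finset.sum_le_sum fun p hp => ?_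
    have hp1 := (Finset.mem_sdiff.1 hp).1
    rw [Finset.mem_filter, Finset.mem_range] at hp1
    have hpp := hp1.2
    have hp0 : (0 : ℝ) < p := by exact_mod_cast hpp.pos
    by_cases hd : 1 ≤ degOne F p
    · rw [if_pos hd]
      have h5 : (degOne F p : ℝ) ≤ (Module.finrank ℚ F : ℝ) := by exact_mod_cast degOne_le hpp
      have h6 : Real.log p ≤ 2 * Real.log z := by
        have h7 : (p : ℝ) ≤ (z : ℝ) ^ 2 := by
          have : p ≤ z ^ 2 := by omega
          exact_mod_cast this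
        calc Real.log p ≤ Real.log ((z : ℝ) ^ 2) := Real.log_le_log hp0 h7
          _ = 2 * Real.log z := by rw [Real.log_pow]; norm_num
      have h8 : 0 ≤ Real.log p := Real.log_natCast_nonneg p
      calc (degOne F p : ℝ) * (Real.log p / p) ≤
          (Module.finrank ℚ F : ℝ) * (2 * Real.log z / p) := by
            apply mul_le_mul h5 _ (by positivity) hD.le
            exact div_le_div_of_nonneg_right h6 hp0.le
        _ = 2 * Real.log z * (Module.finrank ℚ F : ℝ) * (1 / p) := by ring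
    · have h9 : degOne F p = 0 := by omega
      rw [if_neg hd, h9]
      simp
  have h4 : Real.log ((z ^ 2 : ℕ) : ℝ) = 2 * Real.log z := by
    push_cast
    rw [Real.log_pow]
    norm_num
  rw [h4] at hlo
  rw [← e1] at hlo
  unfold c3_S
  rw [← e2]
  set X := ∑ p ∈ (Finset.range (z ^ 2 + 1)).filter Nat.Prime \ (Finset.range (z + 1)).filter Nat.Prime,
        (if 1 ≤ degOne F p then 1 / (p : ℝ) else 0) with hX
  have h10 : 1 / 4 * Real.log z ≤ 2 * Real.log z * (Module.finrank ℚ F : ℝ) * X := by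
    linarith
  have h11 : 1 / (8 * (Module.finrank ℚ F : ℝ)) ≤ X := by
    rw [div_le_iff₀ (by positivity)]
    have h12 : Real.log z * (1 / 4) ≤ Real.log z * (2 * (Module.finrank ℚ F : ℝ) * X) := by
      linarith
    have h13 := le_of_mul_le_mul_left h12 hlz
    linarith
  linarith

theorem c3_mono (F : Type*) [Field F] [NumberField F] {x y : ℕ} (h : x ≤ y) : c3_S F x ≤ c3_S F y := by
  unfold c3_S
  apply Finset.sum_le_sum_of_subset_of_nonneg
  · apply Finset.filter_subset_filter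
    apply Finset.range_subset_range.2
    omega
  · intro p _ _
    split_ifs
    · positivity
    · exact le_rfl

theorem c3_iter (F : Type*) [Field F] [NumberField F] (z₀ : ℕ) (h2 : 2 ≤ z₀)
    (hs : ∀ z : ℕ, z₀ ≤ z → c3_S F z + 1 / (8 * (Module.finrank ℚ F : ℝ)) ≤ c3_S F (z ^ 2)) (m : ℕ) :
    (m : ℝ) / (8 * (Module.finrank ℚ F : ℝ)) ≤ c3_S F (z₀ ^ (2 ^ m)) := by
  induction m with
  | zero =>
    rw [Nat.cast_zero, zero_div]
    unfold c3_S
    refine Finset.sum_nonneg fun p _ => ?_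
    split_ifs
    · positivity
    · exact le_rfl
  | succ m ih =>
    have h1 := hs (z₀ ^ (2 ^ m)) (Nat.le_self_pow (by positivity) z₀)
    have e : (z₀ ^ (2 ^ m)) ^ 2 = z₀ ^ (2 ^ (m + 1)) := by
      rw [← pow_mul, ← pow_succ]
    rw [e] at h1
    push_cast
    rw [add_div]
    linarith

theorem degOne_grow (F : Type*) [Field F] [NumberField F] (Bs : Finset ℕ) :
    ∃ c : ℝ, 0 < c ∧ ∃ x₀ : ℕ, ∀ x : ℕ, x₀ ≤ x →
      c * Real.log (Real.log x) ≤ ∑ p ∈ (Finset.range (x + 1)).filter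
        (fun p => p.Prime ∧ 1 ≤ degOne F p ∧ p ∉ Bs), 1 / (p : ℝ) := by
  classical
  obtain ⟨x₀, hx₀⟩ := H16A.degOne_sum F (ε := 1 / 4) (by norm_num)
  have hD : (0 : ℝ) < (Module.finrank ℚ F : ℝ) := by exact_mod_cast Module.finrank_pos
  set z₀ : ℕ := max x₀ 2 with hz₀
  have hz2 : 2 ≤ z₀ := le_max_right _ _
  have hzx : x₀ ≤ z₀ := le_max_left _ _
  have hs : ∀ z : ℕ, z₀ ≤ z → c3_S F z + 1 / (8 * (Module.finrank ℚ F : ℝ)) ≤ c3_S F (z ^ 2) := by
    intro z hz
    have hz2' : 2 ≤ z := hz2.trans hz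
    refine c3_step F z hz2' (hx₀ (z ^ 2) ?_).1 (hx₀ z (hzx.trans hz)).2
    have : z ≤ z ^ 2 := by nlinarith
    omega
  set A : ℝ := 2 * (Real.log (Real.log z₀) + 1) + 16 * (Module.finrank ℚ F : ℝ) * Bs.card with hA
  refine ⟨1 / (16 * (Module.finrank ℚ F : ℝ)), by positivity,
    max z₀ (⌈Real.exp (Real.exp A)⌉₊), fun x hx => ?_⟩
  have hxz : z₀ ≤ x := (le_max_left _ _).trans hx
  have hx0 : x ≠ 0 := by omega
  have hxe : Real.exp (Real.exp A) ≤ x := by
    have h1 : ⌈Real.exp (Real.exp A)⌉₊ ≤ x := (le_max_right _ _).trans hx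
    exact (Nat.le_ceil _).trans (by exact_mod_cast h1)
  have hll : A ≤ Real.log (Real.log x) := by
    have h1 : Real.exp A ≤ Real.log x := by
      rw [← Real.log_exp (Real.exp A)]
      exact Real.log_le_log (Real.exp_pos _) hxe
    rw [← Real.log_exp A]
    exact Real.log_le_log (Real.exp_pos _) h1
  -- the number of steps
  set k := Nat.log z₀ x with hk
  have hz1 : 1 < z₀ := by omega
  have hk1 : 1 ≤ k := by
    rw [hk]
    exact Nat.log_pos hz1 hxz
  set m := Nat.log 2 k with hm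
  have hm1 : 2 ^ m ≤ k := Nat.pow_log_le_self 2 (by omega)
  have hm2 : k < 2 ^ (m + 1) := Nat.lt_pow_succ_log_self (by norm_num) k
  have hx1 : z₀ ^ (2 ^ m) ≤ x :=
    (Nat.pow_le_pow_right (by omega) hm1).trans (Nat.pow_log_le_self z₀ hx0)
  have hx2 : x < z₀ ^ (2 ^ (m + 1)) :=
    lt_of_lt_of_le (Nat.lt_pow_succ_log_self hz1 x) (Nat.pow_le_pow_right (by omega) hm2)
  have hit := (c3_iter F z₀ hz2 hs m).trans (c3_mono F hx1)
  have hlz : 0 < Real.log z₀ := Real.log_pos (by exact_mod_cast hz1)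
  have hxR : (1 : ℝ) < x := by exact_mod_cast (by omega : 1 < x)
  have hlx : Real.log (Real.log x) ≤ (m + 1 : ℝ) + Real.log (Real.log z₀) := by
    have h1 : Real.log x ≤ 2 ^ (m + 1) * Real.log z₀ := by
      have h2 : (x : ℝ) ≤ (z₀ : ℝ) ^ (2 ^ (m + 1)) := by exact_mod_cast hx2.le
      have h3 := Real.log_le_log (by linarith) h2
      rw [Real.log_pow] at h3
      push_cast at h3
      exact h3
    have h4 := Real.log_le_log (Real.log_pos hxR) h1
    rw [Real.log_mul (by positivity) hlz.ne', Real.log_pow] at h4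
    have h5 : Real.log 2 ≤ 1 := by
      have := Real.log_two_lt_d9
      linarith
    have h6 : ((m + 1 : ℕ) : ℝ) * Real.log 2 ≤ (m + 1 : ℝ) := by
      push_cast
      have : (0 : ℝ) ≤ (m : ℝ) + 1 := by positivity
      nlinarith
    linarith
  -- removing the finite set
  have hrem : c3_S F x ≤ ∑ p ∈ (Finset.range (x + 1)).filter
        (fun p => p.Prime ∧ 1 ≤ degOne F p ∧ p ∉ Bs), 1 / (p : ℝ) + Bs.card := by
    unfold c3_S
    rw [← Finset.sum_filter, Finset.filter_filter]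
    have hsub : (Finset.range (x + 1)).filter (fun p => p.Prime ∧ 1 ≤ degOne F p) ⊆
        (Finset.range (x + 1)).filter (fun p => p.Prime ∧ 1 ≤ degOne F p ∧ p ∉ Bs) ∪ Bs := by
      intro p hp
      rw [Finset.mem_filter] at hp
      rw [Finset.mem_union, Finset.mem_filter]
      by_cases hB : p ∈ Bs
      · exact Or.inr hB
      · exact Or.inl ⟨hp.1, hp.2.1, hp.2.2, hB⟩
    have h7 : ∀ p : ℕ, (0 : ℝ) ≤ 1 / (p : ℝ) := fun p => by positivity
    calc ∑ p ∈ (Finset.range (x + 1)).filter (fun p => p.Prime ∧ 1 ≤ degOne F p), 1 / (p : ℝ)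
        ≤ ∑ p ∈ (Finset.range (x + 1)).filter
          (fun p => p.Prime ∧ 1 ≤ degOne F p ∧ p ∉ Bs) ∪ Bs, 1 / (p : ℝ) :=
          Finset.sum_le_sum_of_subset_of_nonneg hsub fun p _ _ => h7 p
      _ ≤ ∑ p ∈ (Finset.range (x + 1)).filter
          (fun p => p.Prime ∧ 1 ≤ degOne F p ∧ p ∉ Bs), 1 / (p : ℝ) + ∑ p ∈ Bs, 1 / (p : ℝ) := by
          rw [← Finset.sum_union_inter]
          have : 0 ≤ ∑ p ∈ (Finset.range (x + 1)).filter
            (fun p => p.Prime ∧ 1 ≤ degOne F p ∧ p ∉ Bs) ∩ Bs, 1 / (p : ℝ) :=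
            Finset.sum_nonneg fun p _ => h7 p
          linarith
      _ ≤ _ := by
          have h8 : ∑ p ∈ Bs, 1 / (p : ℝ) ≤ ∑ p ∈ Bs, (1 : ℝ) := by
            refine Finset.sum_le_sum fun p _ => ?_
            rcases Nat.eq_zero_or_pos p with h0 | h0
            · rw [h0]
              norm_num
            · rw [div_le_one (by exact_mod_cast h0)]
              exact_mod_cast h0
          rw [Finset.sum_const, nsmul_eq_mul, mul_one] at h8
          linarith
  have hmm : (m : ℝ) / (8 * (Module.finrank ℚ F : ℝ)) - Bs.card ≤ ∑ p ∈ (Finset.range (x + 1)).filter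
        (fun p => p.Prime ∧ 1 ≤ degOne F p ∧ p ∉ Bs), 1 / (p : ℝ) := by linarith
  refine le_trans ?_ hmm
  have h9 : Real.log (Real.log x) - Real.log (Real.log z₀) - 1 ≤ (m : ℝ) := by linarith
  have h10 : (Real.log (Real.log x) - Real.log (Real.log z₀) - 1) / (8 * (Module.finrank ℚ F : ℝ)) ≤
      (m : ℝ) / (8 * (Module.finrank ℚ F : ℝ)) := div_le_div_of_nonneg_right h9 (by positivity)
  refine le_trans ?_ (sub_le_sub_right h10 _)
  rw [le_sub_iff_add_le, div_mul_eq_mul_div, one_mul, div_add' _ _ _ (by positivity),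
    div_le_div_iff₀ (by positivity) (by positivity)]
  have h11 : 2 * (Real.log (Real.log z₀) + 1) + 16 * (Module.finrank ℚ F : ℝ) * Bs.card ≤
      Real.log (Real.log x) := hll
  nlinarith

end H16E
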