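import Pool.Agent.Lib.H16A.V1

/-!
# C4 (M): the map `R → ℤ/l²`

`w` a prime of the number field `F` with norm `l` (a prime number) and `ord_w l = 1`; `Q = 𝓞 F/w²` is a
finite commutative ring with `l²` elements (`Ideal.absNorm` is multiplicative).  Its characteristic is
`l²`: it divides `l²` (`l² = 0` in `Q`, since `l ∈ w`: the norm of an ideal is in the ideal,
`Ideal.absNorm_mem`), and `l ≠ 0` in `Q` since `l ∉ w²` (`ord_w l = 1`:
`HeightOneSpectrum.intValuation_le_pow_iff_mem`), so it is not `1` or `l` (`Nat.dvd_prime_pow`).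
`ZMod.ringEquiv Q : ℤ/l² ≃+* Q` (`Fintype.card Q = l²`).  `φ = ` its inverse composed with
`R → 𝓞 F → Q`.
-/

open NumberField IsDedekindDomain H16A

namespace H16E

theorem c4_mem {F : Type*} [Field F] [NumberField F] (w : HeightOneSpectrum (𝓞 F)) {x : 𝓞 F}
    (hx : x ≠ 0) {n : ℕ} (h : x ∈ w.asIdeal ^ n) : (n : ℤ) ≤ ord w (x : F) := by
  have h1 := (w.intValuation_le_pow_iff_mem x n).2 h
  have h2 : w.valuation F (x : F) ≤ WithZero.exp (-(n : ℤ)) := by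
    rw [← HeightOneSpectrum.valuation_of_algebraMap (K := F) w x] at h1
    exact h1
  have h3 := (WithZero.log_le_log (y := WithZero.exp (-(n : ℤ)))
    (v1_ne w (RingOfIntegers.coe_ne_zero_iff.2 hx)) WithZero.exp_ne_zero).2 h2
  rw [WithZero.log_exp] at h3
  have h4 : ord w (x : F) = - WithZero.log (w.valuation F (x : F)) := rfl
  rw [h4]
  have h5 : WithZero.log (w.valuation F (x : F)) ≤ -(n : ℤ) := h3
  linarith

theorem exists_phi (F : Type*) [Field F] [NumberField F] (w : HeightOneSpectrum (𝓞 F)) {l : ℕ}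
    (hl : l.Prime) (hnorm : Ideal.absNorm w.asIdeal = l) (hram : ord w (l : F) = 1)
    {R : Type*} [CommRing R] (f : R →+* 𝓞 F) :
    ∃ φ : R →+ ZMod (l ^ 2), φ 1 = 1 ∧ ∀ x, φ x = 0 → f x ∈ w.asIdeal ^ 2 := by
  classical
  have hI0 : w.asIdeal ^ 2 ≠ ⊥ := pow_ne_zero 2 w.ne_bot
  have hfin : Finite (𝓞 F ⧸ w.asIdeal ^ 2) := Ideal.finiteQuotientOfFreeOfNeBot _ hI0
  have hFt : Fintype (𝓞 F ⧸ w.asIdeal ^ 2) := Fintype.ofFinite _
  have hcard : Fintype.card (𝓞 F ⧸ w.asIdeal ^ 2) = l ^ 2 := by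
    have h1 : Ideal.absNorm (w.asIdeal ^ 2) = l ^ 2 := by rw [map_pow, hnorm]
    rw [← h1, Ideal.absNorm_apply, Submodule.cardQuot_apply, Nat.card_eq_fintype_card]
  have hlw : (l : 𝓞 F) ∈ w.asIdeal := by
    have := Ideal.absNorm_mem w.asIdeal
    rwa [hnorm] at this
  have hl0 : (l : 𝓞 F) ≠ 0 := Nat.cast_ne_zero.2 hl.ne_zero
  have hl2 : (l : 𝓞 F) ∉ w.asIdeal ^ 2 := by
    intro h
    have h1 := c4_mem w hl0 h
    have h2 : ((l : 𝓞 F) : F) = (l : F) := by simp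
    rw [h2, hram] at h1
    norm_num at h1
  have hc1 : ringChar (𝓞 F ⧸ w.asIdeal ^ 2) ∣ l ^ 2 := by
    apply ringChar.dvd
    have h1 : (l : 𝓞 F) ^ 2 ∈ w.asIdeal ^ 2 := Ideal.pow_mem_pow hlw 2
    have h2 := Ideal.Quotient.eq_zero_iff_mem.2 h1
    rw [← h2]
    push_cast
    simp
  obtain ⟨j, hj, hj2⟩ := (Nat.dvd_prime_pow hl).1 hc1
  have hj3 : j = 2 := by
    by_contra hne
    have h1 : ringChar (𝓞 F ⧸ w.asIdeal ^ 2) ∣ l := by
      rw [hj2]
      exact (pow_dvd_pow l (show j ≤ 1 by omega)).trans (by simp)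
    have h2 : ((l : ℕ) : 𝓞 F ⧸ w.asIdeal ^ 2) = 0 := (ringChar.spec _ _).2 h1
    have h3 : Ideal.Quotient.mk (w.asIdeal ^ 2) (l : 𝓞 F) = 0 := by
      rw [← h2]
      simp
    exact hl2 (Ideal.Quotient.eq_zero_iff_mem.1 h3)
  have hchar : CharP (𝓞 F ⧸ w.asIdeal ^ 2) (l ^ 2) := by
    have := ringChar.charP (𝓞 F ⧸ w.asIdeal ^ 2)
    rwa [hj2, hj3] at this
  let e := ZMod.ringEquiv (𝓞 F ⧸ w.asIdeal ^ 2) hcard
  refine ⟨(e.symm.toRingHom.comp ((Ideal.Quotient.mk (w.asIdeal ^ 2)).comp f)).toAddMonoidHom,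
    ?_, fun x hx => ?_⟩
  · simp
  · have h1 : e.symm (Ideal.Quotient.mk (w.asIdeal ^ 2) (f x)) = 0 := hx
    rw [EmbeddingLike.map_eq_zero_iff] at h1
    exact Ideal.Quotient.eq_zero_iff_mem.1 h1

end H16E
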