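import Pool.Agent.Lib.H16C.GE4
import Pool.Agent.Lib.H16C.IM

/-!
# C5 (S/M): `n ∣ l - 1` for the primes of degree one of `L`

`A` from `H16C.exists_above` for `w`: `v l < 1` since `ord_w l = 1 > 0`; `v b = 1` since `l ∤ b`
(`int_le`, `dvd_of_val`), so `v n = 1`.  `res`: for `z ∈ L`, `v z ≤ 1` there is `m ∈ ℤ` with
`v(z - m) < 1` (the proof of `res` in `H16C.fam_loc`, file H16C/GE4.lean: `GE4_res`); for `z = ζ` only:
`ζ` is integral, so `ζ ∈ 𝓞 L`, `GE4_res` gives `m` with `ζ - m ∈ w`, `v(ζ - m) < 1`.  Then the proof of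
`H16C.dvd_sub_one` (file H16C/IM.lean): `ζ^(l-1) ≡ m^(l-1) ≡ 1`, so `ζ^(l-1) = 1` (`root_unit`) and
`n ∣ l - 1`.
-/

open NumberField IsDedekindDomain H16A

namespace H16E

open H16C

variable {k : Type*} [Field k] [NumberField k] {Ω : Type*} [Field Ω] [Algebra k Ω] [IsAlgClosed Ω]
  [Algebra.IsAlgebraic k Ω] [CharZero Ω] [DecidableEq Ω] {W : WeierstrassCurve.Affine k}
  [W.IsShortNF] [W.IsElliptic] {n b : ℕ} [NeZero n] {S : Setup W Ω n}

theorem dvd_of_norm (hb : Bad W Ω n b) [NumberField S.L] {l : ℕ} (hl : l.Prime) (hlb : ¬ l ∣ b)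
    (w : HeightOneSpectrum (𝓞 S.L)) (hnorm : Ideal.absNorm w.asIdeal = l)
    (hram : ord w (l : S.L) = 1) : n ∣ l - 1 := by
  have hn : n ≠ 0 := NeZero.ne n
  obtain ⟨A, hA⟩ := exists_above S.L w
  have hl0 : (l : S.L) ≠ 0 := Nat.cast_ne_zero.mpr hl.ne_zero
  have hcl : ((l : S.L) : Ω) = (l : Ω) := by simp
  have hvl : A.valuation (l : Ω) < 1 := by
    rw [← hcl]
    exact (hA _ hl0).2.1.mpr (by rw [hram]; norm_num)
  have hmem : ∀ x : 𝓞 S.L, x ∈ w.asIdeal → A.valuation ((x : S.L) : Ω) < 1 := by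
    intro x hx
    by_cases hx0 : x = 0
    · rw [hx0]
      simp
    · have hx0' : (x : S.L) ≠ 0 := by
        intro h0
        exact hx0 (RingOfIntegers.ext (by rw [h0]; simp))
      exact (hA _ hx0').2.1.mpr ((ord_int_pos_iff w hx0).mpr hx)
  have hvb : A.valuation (b : Ω) = 1 := by
    refine le_antisymm (by simpa using int_le A (b : ℤ)) (not_lt.1 fun h1 => ?_)
    have h2 : (l : ℤ) ∣ (b : ℤ) := dvd_of_val (z := (b : ℤ)) hl hvl (by simpa using h1)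
    exact hlb (Int.natCast_dvd_natCast.1 h2)
  have hnat : ∀ z : ℕ, A.valuation (z : Ω) ≤ 1 := by
    intro z
    have := int_le A (z : ℤ)
    simpa using this
  have hvn : A.valuation (n : Ω) = 1 := by
    obtain ⟨r, hr⟩ := hb.dvd
    have h1 : (b : Ω) = (n : Ω) * ((6 * r : ℕ) : Ω) := by
      rw [hr]
      push_cast
      ring
    refine le_antisymm (hnat n) ?_
    rw [← hvb, h1, map_mul]
    exact mul_le_of_le_one_right' (hnat _)
  have hζL : S.ζ ∈ S.L := S.mem_L (fun g hg => (S.fix g hg).1)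
  have hvζ : A.valuation S.ζ = 1 := by
    apply PT5_val_one hn
    rw [← map_pow, S.hζ.pow_eq_one, map_one]
  have hζ1 : (⟨S.ζ, hζL⟩ : S.L) ^ n = 1 := by
    apply Subtype.ext
    rw [SubmonoidClass.coe_pow]
    exact S.hζ.pow_eq_one
  have hint : IsIntegral ℤ (⟨S.ζ, hζL⟩ : S.L) := by
    refine IsIntegral.of_pow (Nat.pos_of_ne_zero hn) ?_
    rw [hζ1]
    exact isIntegral_one
  obtain ⟨Z, hZ⟩ : ∃ Z : 𝓞 S.L, algebraMap (𝓞 S.L) S.L Z = (⟨S.ζ, hζL⟩ : S.L) := ⟨⟨_, hint⟩, rfl⟩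
  obtain ⟨m, hm'⟩ := GE4_res hl hnorm Z
  have hm'' := hmem _ hm'
  have e : (((Z - (m : 𝓞 S.L) : 𝓞 S.L) : S.L) : Ω) = S.ζ - (m : Ω) := by
    show ((algebraMap (𝓞 S.L) S.L (Z - (m : 𝓞 S.L)) : S.L) : Ω) = S.ζ - (m : Ω)
    rw [map_sub, hZ, map_natCast]
    simp
  have hm : A.valuation (S.ζ - (m : Ω)) < 1 := by
    rw [← e]
    exact hm''
  have hm1 : ¬ (l : ℤ) ∣ (m : ℤ) := by
    rintro ⟨t, ht⟩
    have h2 : A.valuation (m : Ω) < 1 := by
      have h3 := congrArg (Int.cast : ℤ → Ω) ht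
      push_cast at h3
      rw [h3, map_mul]
      exact lt_of_le_of_lt (mul_le_of_le_one_right' (int_le A t)) hvl
    have h3 := Valuation.map_add_lt A.valuation hm h2
    rw [sub_add_cancel, hvζ] at h3
    exact lt_irrefl _ h3
  have hf : (l : ℤ) ∣ (m : ℤ) ^ (l - 1) - 1 := by
    have : Fact l.Prime := ⟨hl⟩
    rw [← ZMod.intCast_zmod_eq_zero_iff_dvd]
    have h5 : (((m : ℤ) : ℤ) : ZMod l) ≠ 0 := by
      rw [Ne, ZMod.intCast_zmod_eq_zero_iff_dvd]
      exact hm1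
    rw [Int.cast_sub, Int.cast_pow, ZMod.pow_card_sub_one_eq_one h5, Int.cast_one, sub_self]
  have h3 : A.valuation ((m : Ω) ^ (l - 1) - 1) < 1 := by
    obtain ⟨t, ht⟩ := hf
    have h4 : (m : Ω) ^ (l - 1) - 1 = (l : Ω) * (t : Ω) := by
      have := congrArg (fun z : ℤ => (z : Ω)) ht
      push_cast at this
      exact this
    rw [h4, map_mul]
    exact lt_of_le_of_lt (mul_le_of_le_one_right' (int_le A t)) hvl
  have h4 := IM_pow hvζ.le (hnat m) hm (l - 1)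
  have h5 : A.valuation (S.ζ ^ (l - 1) - 1) < 1 := by
    have h6 := Valuation.map_add_lt A.valuation h4 h3
    rwa [sub_add_sub_cancel] at h6
  have hζl : S.ζ ^ (l - 1) = 1 := by
    refine root_unit A.valuation hvn ?_ h5
    rw [← pow_mul, mul_comm, pow_mul, S.hζ.pow_eq_one, one_pow]
  exact S.hζ.dvd_of_pow_eq_one _ hζl

end H16E
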