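import Pool.Agent.Lib.H16A.Defs
import Pool.Agent.Lib.H16C.Defs

/-!
# PDefs: the data attached to a prime `l`
-/

open WeierstrassCurve NumberField IsDedekindDomain

namespace H16E

open H16C H16A

variable {k : Type*} [Field k] {Ω : Type*} [Field Ω] [Algebra k Ω] [DecidableEq Ω]
  {W : WeierstrassCurve.Affine k} {n : ℕ}

/-- `w` is a prime of `L` of degree one above `l ∤ b`, unramified over `l`, and `φ : 𝓞 k → ℤ/l²` is
additive with `φ 1 = 1` and kernel contained in `w²` -/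
structure PD (S : Setup W Ω n) (b l : ℕ) [NumberField S.L] (w : HeightOneSpectrum (𝓞 S.L))
    (φ : 𝓞 k →+ ZMod (l ^ 2)) : Prop where
  prime : l.Prime
  nb : ¬ l ∣ b
  norm : Ideal.absNorm w.asIdeal = l
  ram : ord w (l : S.L) = 1
  one : φ 1 = 1
  ker : ∀ x : 𝓞 k, φ x = 0 → algebraMap (𝓞 k) (𝓞 S.L) x ∈ w.asIdeal ^ 2

/-- `A` is a place of `Ω` above the prime `w` of `L` -/
def Above (S : Setup W Ω n) [NumberField S.L] (A : ValuationSubring Ω)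
    (w : HeightOneSpectrum (𝓞 S.L)) : Prop :=
  ∀ x : S.L, x ≠ 0 → (A.valuation (x : Ω) ≤ 1 ↔ 0 ≤ ord w x) ∧
    (A.valuation (x : Ω) < 1 ↔ 0 < ord w x) ∧ (A.valuation (x : Ω) = 1 ↔ ord w x = 0)

open Classical in
/-- the classification of the primes: two primes `l, l₁ ∈ P` of the same class give an element of
`L` with divisor `w l - w l₁` that is close to `1` at the bad places -/
structure Cls (S : Setup W Ω n) (b : ℕ) [NumberField S.L] where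
  /-- the primes -/
  P : Set ℕ
  /-- a prime of `L` of degree one above `l` -/
  w : ℕ → HeightOneSpectrum (𝓞 S.L)
  /-- the maps to `ℤ/l²` -/
  φ : ∀ l : ℕ, 𝓞 k →+ ZMod (l ^ 2)
  /-- the number of classes -/
  N : ℕ
  /-- the class of a prime -/
  cls : ℕ → Fin N
  pd : ∀ l ∈ P, PD S b l (w l) (φ l)
  dvd : ∀ l ∈ P, n ∣ l - 1
  fam : ∀ (T : Finset ℕ) (l₁ : ℕ), (∀ l ∈ T, l ∈ P ∧ cls l = cls l₁) → l₁ ∈ P → l₁ ∉ T →
    ∃ Φ : Fam S b, Φ.T = T ∧ Φ.l₁ = l₁ ∧ ∀ l ∈ T, ∃ a : S.L, Φ.a l = (a : Ω) ∧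
      ∀ u, ord u a = (if u = w l then 1 else 0) - (if u = w l₁ then 1 else 0)
  grow : ∃ c : ℝ, 0 < c ∧ ∃ x₀ : ℕ, ∀ x : ℕ, x₀ ≤ x →
    c * Real.log (Real.log x) ≤ ∑ l ∈ (Finset.range (x + 1)).filter (· ∈ P), 1 / (l : ℝ)

end H16E
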