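import Pool.Agent.Lib.H16C.GE5
import Pool.Agent.Lib.H16E.C1
import Pool.Agent.Lib.H16E.C2
import Pool.Agent.Lib.H16E.C3
import Pool.Agent.Lib.H16E.C4
import Pool.Agent.Lib.H16E.C5
import Pool.Agent.Lib.H16E.PDefs

/-!
# C6 (M): assembly of the classification

`P` = the set of the primes `l` with `l ∤ b`, `l ∤ disc L`, `degOne L l ≥ 1` (`degOne`, `degOneSet`:
H59/PrimeIdealSums, `card_degOneSet`, `mem_degOneSet`).  `w l` = a prime of `L` of norm `l` for `l ∈ P`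
(arbitrary otherwise; the growth `C3` shows that `P` is not empty, or
`IsDedekindDomain.HeightOneSpectrum` of `𝓞 L` is nonempty).  `ord_{w l} l = 1`: `H16C.GE5_ord`.
`φ l`: `exists_phi` with `f = algebraMap (𝓞 k) (𝓞 L)` for `l ∈ P`, and `0` otherwise.
`dvd`: `dvd_of_norm`.  Classes: `exists_cls` for `M = b^(n+1)` and the set `{w l | l ∈ P}`
(`H16C.GE5_coprime`), `cls l = cls (w l)`.  `fam`: `exists_Fam` with `aa l = a (w l)`; the hypotheses
`GHyp` as in the proof of `H16C.exists_fam` (GE5.lean).  `grow`: `degOne_grow` with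
`Bs = b.primeFactors ∪ (disc L).natAbs.primeFactors`.
-/

open NumberField IsDedekindDomain H16A

namespace H16E

open H16C

variable {k : Type*} [Field k] [NumberField k] {Ω : Type*} [Field Ω] [Algebra k Ω] [IsAlgClosed Ω]
  [Algebra.IsAlgebraic k Ω] [CharZero Ω] [DecidableEq Ω] {W : WeierstrassCurve.Affine k}
  [W.IsShortNF] [W.IsElliptic] {n b : ℕ} [NeZero n]

theorem exists_Cls (S : Setup W Ω n) (hb : Bad W Ω n b) [NumberField S.L] :
    ∃ C : Cls S b, 0 < C.N := by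
  classical
  set M : ℕ := b ^ (n + 1) with hM
  have hM0 : 0 < M := Nat.pow_pos (Nat.pos_of_ne_zero hb.ne)
  set Bs : Finset ℕ := b.primeFactors ∪ (discr S.L).natAbs.primeFactors with hBs
  set P : Set ℕ := {l | l.Prime ∧ 1 ≤ Pool.Agent.Lib.H59.degOne S.L l ∧ l ∉ Bs} with hP
  have hPmem : ∀ p ∈ P, p.Prime ∧ ¬ p ∣ b ∧ ¬ (p : ℤ) ∣ discr S.L ∧
      ∃ w : HeightOneSpectrum (𝓞 S.L), Ideal.absNorm w.asIdeal = p := by
    rintro p ⟨hpp, hdeg, hnb⟩
    rw [hBs, Finset.mem_union] at hnb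
    refine ⟨hpp, fun h => hnb (Or.inl ?_), fun h => hnb (Or.inr ?_), ?_⟩
    · exact Nat.mem_primeFactors.2 ⟨hpp, h, hb.ne⟩
    · exact Nat.mem_primeFactors.2 ⟨hpp, Int.natCast_dvd.1 h,
        Int.natAbs_ne_zero.2 (discr_ne_zero S.L)⟩
    · rw [← Pool.Agent.Lib.H59.card_degOneSet] at hdeg
      obtain ⟨w, hw⟩ := Finset.card_pos.1 hdeg
      exact ⟨w, Pool.Agent.Lib.H59.mem_degOneSet.1 hw⟩
  obtain ⟨w0⟩ : Nonempty (HeightOneSpectrum (𝓞 S.L)) := by
    obtain ⟨I, hI, hIp⟩ := Ring.not_isField_iff_exists_prime.1 (RingOfIntegers.not_isField S.L)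
    exact ⟨⟨I, hIp, hI⟩⟩
  have hexw : ∀ p : ℕ, ∃ w : HeightOneSpectrum (𝓞 S.L), p ∈ P → Ideal.absNorm w.asIdeal = p := by
    intro p
    by_cases hp : p ∈ P
    · obtain ⟨-, -, -, w, hw⟩ := hPmem p hp
      exact ⟨w, fun _ => hw⟩
    · exact ⟨w0, fun h => absurd h hp⟩
  choose w hw using hexw
  have hram : ∀ l ∈ P, ord (w l) (l : S.L) = 1 := fun l hl =>
    GE5_ord _ (hPmem l hl).1 (hw l hl) (hPmem l hl).2.2.1
  have hexφ : ∀ l : ℕ, ∃ φ : 𝓞 k →+ ZMod (l ^ 2), l ∈ P → φ 1 = 1 ∧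
      ∀ x : 𝓞 k, φ x = 0 → algebraMap (𝓞 k) (𝓞 S.L) x ∈ (w l).asIdeal ^ 2 := by
    intro l
    by_cases hl : l ∈ P
    · obtain ⟨φ, h1, h2⟩ := exists_phi S.L (w l) (hPmem l hl).1 (hw l hl) (hram l hl)
        (algebraMap (𝓞 k) (𝓞 S.L))
      exact ⟨φ, fun _ => ⟨h1, h2⟩⟩
    · exact ⟨0, fun h => absurd h hl⟩
  choose φ hφ using hexφ
  obtain ⟨N, cls, a, hN, hcls⟩ := exists_cls S.L M hM0 {v | ∃ l ∈ P, v = w l} (by
    rintro v ⟨l, hl, rfl⟩
    exact GE5_coprime _ (hPmem l hl).1 (hw l hl)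
      (fun h => (hPmem l hl).2.1 ((hPmem l hl).1.dvd_of_dvd_pow h)))
  obtain ⟨c, hc, x₀, hx₀⟩ := degOne_grow S.L Bs
  refine ⟨{ P := P
            w := w
            φ := φ
            N := N
            cls := fun l => cls (w l)
            pd := fun l hl => ⟨(hPmem l hl).1, (hPmem l hl).2.1, hw l hl, hram l hl,
              (hφ l hl).1, (hφ l hl).2⟩
            dvd := fun l hl => dvd_of_norm hb (hPmem l hl).1 (hPmem l hl).2.1 (w l) (hw l hl)
              (hram l hl)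
            fam := ?_
            grow := ⟨c, hc, x₀, fun x hx => ?_⟩ }, hN⟩
  · intro T l₁ hT hl₁ hl₁T
    have hG : ∀ l ∈ T, GHyp S b l l₁ (w l) (w l₁) ((a (w l) : S.L) / (a (w l₁) : S.L)) (a (w l))
        (a (w l₁)) := by
      intro l hl
      obtain ⟨hlP, hlc⟩ := hT l hl
      obtain ⟨g1, g2, g3, g4⟩ := hcls (w l) ⟨l, hlP, rfl⟩ (w l₁) ⟨l₁, hl₁, rfl⟩ hlc
      obtain ⟨k1, k2, -, -⟩ := hcls (w l₁) ⟨l₁, hl₁, rfl⟩ (w l₁) ⟨l₁, hl₁, rfl⟩ rfl
      have hk0 : (a (w l₁) : S.L) ≠ 0 := by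
        intro h
        exact k1 (RingOfIntegers.coe_eq_zero_iff.1 h)
      exact
        { hl := (hPmem l hlP).1
          hl₁ := (hPmem l₁ hl₁).1
          hne := fun h => hl₁T (h ▸ hl)
          hlb := (hPmem l hlP).2.1
          hl₁b := (hPmem l₁ hl₁).2.1
          norm := hw l hlP
          norm₁ := hw l₁ hl₁
          ram := hram l hlP
          ram₁ := hram l₁ hl₁
          ha := div_mul_cancel₀ _ hk0
          h1 := g1
          h2 := k1
          c1 := g2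
          c2 := k2
          c12 := g3
          hord := fun u => by convert g4 u }
    obtain ⟨Φ, h1, h2, h3⟩ := exists_Fam hb w (fun l => a (w l)) T l₁ (hPmem l₁ hl₁).1
      (hPmem l₁ hl₁).2.1 hl₁T hG
    refine ⟨Φ, h1, h2, fun l hl => ⟨_, h3 l hl, fun u => ?_⟩⟩
    obtain ⟨hlP, hlc⟩ := hT l hl
    obtain ⟨-, -, -, g4⟩ := hcls (w l) ⟨l, hlP, rfl⟩ (w l₁) ⟨l₁, hl₁, rfl⟩ hlc
    convert g4 u
  · refine (hx₀ x hx).trans (le_of_eq ?_)
    refine Finset.sum_congr ?_ fun _ _ => rfl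
    ext p
    simp only [Finset.mem_filter]
    exact Iff.rfl

end H16E
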