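import Pool.Agent.Lib.H16C.GE3
import Pool.Agent.Lib.H16C.VC
import Pool.Agent.Lib.H16E.PDefs

/-!
# D1 (M): the places of `Ω` and the maps `φ`

`above_lt`, `above_gt`: `val_cases S.L A`: if `A.valuation` is trivial on `L` then `v a = 1`,
contradiction.  Otherwise there is `u` with `Above S A u`; `v a < 1` gives `ord u a > 0`, so `u = w`;
`v a > 1` gives `¬ 0 ≤ ord u a`, so `u = w₁`.
`val_of_phi`: `z = x - l m` (in `𝓞 k`; `(l * m : ℕ)`) has `φ z = φ x - (l m) φ 1 = 0`
(`map_natCast`-like: `φ (N • 1) = N • φ 1`), so its image in `𝓞 L` is in `w²`.  If `z = 0`: `x = l m`.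
Otherwise `ord w z ≥ 2` (`HeightOneSpectrum.intValuation_le_pow_iff_mem`), `ord w (z/l²) ≥ 0`
(`ord w l = 1`), `v z ≤ v(l)²`.  `v l < 1` (`Above`, `ord w l = 1`), `v m = 1` (`int_le`,
`dvd_of_val`), so `v(z) < v(l m) = v(l)`, `v(x) = v(z + l m) = v(l)`, and
`v(x/(l m) - 1) = v(z)/v(l) ≤ v(l) < 1`.
(`algebraMap k Ω x` for `x : 𝓞 k` is the image in `Ω` of the element `algebraMap (𝓞 k) (𝓞 L) x` of
`L`: `IsScalarTower`, `rfl` or `simp`.)
-/

open NumberField IsDedekindDomain H16A

namespace H16E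

open H16C

variable {k : Type*} [Field k] [NumberField k] {Ω : Type*} [Field Ω] [Algebra k Ω]
  [CharZero Ω] [DecidableEq Ω] {W : WeierstrassCurve.Affine k}
  {n b : ℕ} {S : Setup W Ω n}

open Classical in
theorem above_lt [NumberField S.L] {a : S.L} (ha : a ≠ 0) {w w₁ : HeightOneSpectrum (𝓞 S.L)}
    (hord : ∀ u, ord u a = (if u = w then 1 else 0) - (if u = w₁ then 1 else 0))
    {A : ValuationSubring Ω} (h : A.valuation (a : Ω) < 1) : Above S A w := by
  rcases val_cases S.L A with h1 | ⟨u, h1⟩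
  · rw [h1 a ha] at h
    exact absurd h (lt_irrefl _)
  · have h2 := (h1 a ha).2.1.1 h
    rw [hord] at h2
    have h3 : u = w := by
      by_contra h4
      rw [if_neg h4] at h2
      split_ifs at h2 <;> omega
    rw [← h3]
    exact h1

open Classical in
theorem above_gt [NumberField S.L] {a : S.L} (ha : a ≠ 0) {w w₁ : HeightOneSpectrum (𝓞 S.L)}
    (hord : ∀ u, ord u a = (if u = w then 1 else 0) - (if u = w₁ then 1 else 0))
    {A : ValuationSubring Ω} (h : 1 < A.valuation (a : Ω)) : Above S A w₁ := by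
  rcases val_cases S.L A with h1 | ⟨u, h1⟩
  · rw [h1 a ha] at h
    exact absurd h (lt_irrefl _)
  · have h2 : ¬ 0 ≤ ord u a := fun h3 => absurd ((h1 a ha).1.2 h3) (not_le.2 h)
    rw [hord] at h2
    have h3 : u = w₁ := by
      by_contra h4
      rw [if_neg h4] at h2
      split_ifs at h2 <;> omega
    rw [← h3]
    exact h1

theorem val_of_phi [NumberField S.L] {l : ℕ} {w : HeightOneSpectrum (𝓞 S.L)}
    {φ : 𝓞 k →+ ZMod (l ^ 2)} (hp : PD S b l w φ) {A : ValuationSubring Ω} (hA : Above S A w)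
    {x : 𝓞 k} {m : ℕ} (hm : ¬ l ∣ m) (hx : φ x = ((l * m : ℕ) : ZMod (l ^ 2))) :
    A.valuation (l : Ω) < 1 ∧ A.valuation (algebraMap k Ω (x : k)) = A.valuation (l : Ω) ∧
      A.valuation (algebraMap k Ω (x : k) / ((l * m : ℕ) : Ω) - 1) < 1 := by
  have hl0 : (l : S.L) ≠ 0 := by
    exact_mod_cast hp.prime.ne_zero
  have hlΩ : (l : Ω) ≠ 0 := by exact_mod_cast hp.prime.ne_zero
  have hcl : ((l : S.L) : Ω) = (l : Ω) := by simp
  have hl1 : A.valuation (l : Ω) < 1 := by
    have h1 := (hA (l : S.L) hl0).2.1.2 (by rw [hp.ram]; norm_num)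
    rwa [hcl] at h1
  have hm1 : A.valuation (m : Ω) = 1 := by
    refine le_antisymm ?_ ?_
    · have := int_le A (m : ℤ)
      simpa using this
    · by_contra h1
      rw [not_le] at h1
      apply hm
      have h2 : (l : ℤ) ∣ (m : ℤ) := dvd_of_val hp.prime hl1 (by simpa using h1)
      exact_mod_cast h2
  have hm0 : (m : Ω) ≠ 0 := by
    intro h0
    rw [h0, map_zero] at hm1
    exact zero_ne_one hm1
  have hv0 : A.valuation (l : Ω) ≠ 0 := (Valuation.ne_zero_iff _).2 hlΩ
  -- the difference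
  set z : 𝓞 k := x - ((l * m : ℕ) : 𝓞 k) with hz
  have hφz : φ z = 0 := by
    have h1 : φ ((l * m : ℕ) : 𝓞 k) = ((l * m : ℕ) : ZMod (l ^ 2)) := by
      have h2 : ((l * m : ℕ) : 𝓞 k) = (l * m : ℕ) • (1 : 𝓞 k) := by rw [nsmul_eq_mul, mul_one]
      rw [h2, map_nsmul, hp.one, nsmul_eq_mul, mul_one]
    rw [hz, map_sub, h1, hx, sub_self]
  have hker := hp.ker z hφz
  have hxz : algebraMap k Ω (x : k) = (l : Ω) * (m : Ω) + algebraMap k Ω (z : k) := by
    have e : (z : k) = (x : k) - (l : k) * (m : k) := by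
      rw [hz]
      push_cast
      rfl
    rw [e, map_sub, map_mul, map_natCast, map_natCast]
    ring
  have hvz : A.valuation (algebraMap k Ω (z : k)) ≤ A.valuation (l : Ω) ^ 2 := by
    set zL : S.L := ((algebraMap (𝓞 k) (𝓞 S.L) z : 𝓞 S.L) : S.L) with hzL
    have hzΩ : (zL : Ω) = algebraMap k Ω (z : k) := by
      have h1 : zL = algebraMap k S.L (z : k) := rfl
      rw [h1]
      rfl
    rw [← hzΩ]
    by_cases h0 : zL = 0
    · rw [h0]
      have : ((0 : S.L) : Ω) = 0 := rfl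
      rw [this, map_zero]
      exact zero_le
    · have h2 : 2 ≤ ord w zL := by
        have h3 : w.intValuation (algebraMap (𝓞 k) (𝓞 S.L) z) ≤ WithZero.exp (-((2 : ℕ) : ℤ)) :=
          (w.intValuation_le_pow_iff_mem _ 2).2 hker
        have h4 : w.valuation S.L zL = w.intValuation (algebraMap (𝓞 k) (𝓞 S.L) z) :=
          w.valuation_of_algebraMap _
        unfold ord
        rw [h4]
        have h5 : w.intValuation (algebraMap (𝓞 k) (𝓞 S.L) z) ≠ 0 := by
          rw [← h4]
          exact v1_ne w h0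
        have h6 := (WithZero.log_le_log h5 WithZero.exp_ne_zero).2 h3
        rw [WithZero.log_exp] at h6
        push_cast at h6
        omega
      have h3 : 0 ≤ ord w (zL / (l : S.L) ^ 2) := by
        rw [ord_div w h0 (pow_ne_zero 2 hl0), ord_pow, hp.ram]
        push_cast
        omega
      have h4 := (hA (zL / (l : S.L) ^ 2) (div_ne_zero h0 (pow_ne_zero 2 hl0))).1.2 h3
      have h5 : ((zL / (l : S.L) ^ 2 : S.L) : Ω) = (zL : Ω) / (l : Ω) ^ 2 := by
        push_cast
        rfl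
      rw [h5, map_div₀, map_pow] at h4
      rwa [div_le_one₀ (pow_pos (zero_lt_iff.2 hv0) 2)] at h4
  have hlt : A.valuation (l : Ω) ^ 2 < A.valuation (l : Ω) := by
    rw [pow_two]
    calc A.valuation (l : Ω) * A.valuation (l : Ω) < 1 * A.valuation (l : Ω) :=
          mul_lt_mul_of_pos_right hl1 (zero_lt_iff.2 hv0)
      _ = A.valuation (l : Ω) := one_mul _
  have hlm : A.valuation ((l : Ω) * (m : Ω)) = A.valuation (l : Ω) := by
    rw [map_mul, hm1, mul_one]
  refine ⟨hl1, ?_, ?_⟩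
  · rw [hxz, Valuation.map_add_eq_of_lt_left, hlm]
    rw [hlm]
    exact lt_of_le_of_lt hvz hlt
  · have h1 : algebraMap k Ω (x : k) / ((l * m : ℕ) : Ω) - 1 =
        algebraMap k Ω (z : k) / ((l : Ω) * (m : Ω)) := by
      rw [hxz]
      push_cast
      field_simp
      ring
    rw [h1, map_div₀, hlm, div_lt_one₀ (zero_lt_iff.2 hv0)]
    exact lt_of_le_of_lt hvz hlt

end H16E
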