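import Pool.Agent.Lib.H16E.B0
import Pool.Agent.Lib.H16E.D1
import Pool.Agent.Lib.H16E.Defs

/-!
# D2 (M): exact divisibility gives admissibility

`x ≠ 0`: `φ l₁ x = l₁ m ≠ 0` in `ℤ/l₁²` (`l₁ ∤ m`).
Let `A` be a place, `l ∈ T`, `h ∈ Gal(Ω/k)`.  Put `A' = A.comap h` (`A'.valuation x = 1 ↔ ...`; use
`exists_comap` of H16C, or the criterion `A'.valuation x ≤ 1 ↔ A.valuation (h x) ≤ 1`; see how
`Fam.val'` and `fam_loc` are proved: for `x, y ∈ Ω`, `A'.valuation x < A'.valuation y ↔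
A.valuation (h x) < A.valuation (h y)`).
First condition: `v(l) < 1`, `v(h (a l)) = v(l)`: `v'(a l) < 1`, so `Above S A' (w l)` (`above_lt`;
`Φ.ne`), `val_of_phi`: `v'(x) = v'(l)`, i.e. `v(h x) = v(h l)`, and `h x = x` (`AlgEquiv.commutes`),
`h l = l`.  Second condition: `v(l₁) < 1`, `v(h (a l)) v(l₁) = 1`: `v'(a l) > 1`,
`Above S A' (w l₁)` (`above_gt`), `v'(x) = v'(l₁)`.
-/

open NumberField IsDedekindDomain H16A

namespace H16E

open H16C

variable {k : Type*} [Field k] [NumberField k] {Ω : Type*} [Field Ω] [Algebra k Ω] [IsAlgClosed Ω]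
  [Algebra.IsAlgebraic k Ω] [CharZero Ω] [DecidableEq Ω] {W : WeierstrassCurve.Affine k}
  [W.IsShortNF] [W.IsElliptic] {n b : ℕ} [NeZero n] {S : Setup W Ω n}

open Classical in
theorem adK_of_exact [NumberField S.L] (C : Cls S b) (Φ : Fam S b)
    (hP : ∀ l ∈ insert Φ.l₁ Φ.T, l ∈ C.P)
    (ha : ∀ l ∈ Φ.T, ∃ a : S.L, Φ.a l = (a : Ω) ∧
      ∀ u, ord u a = (if u = C.w l then 1 else 0) - (if u = C.w Φ.l₁ then 1 else 0))
    {x : 𝓞 k} (hx : ∀ l ∈ insert Φ.l₁ Φ.T, Ex C.φ l x) : AdK Φ (x : k) := by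
  refine ⟨?_, ?_⟩
  · intro h0
    have h1 : x = 0 := RingOfIntegers.ext h0
    obtain ⟨m, hm, hm2⟩ := hx Φ.l₁ (Finset.mem_insert_self _ _)
    rw [h1, map_zero] at hm2
    have h2 : Φ.l₁ ^ 2 ∣ Φ.l₁ * m := (ZMod.natCast_eq_zero_iff _ _).1 hm2.symm
    rw [pow_two] at h2
    exact hm (Nat.dvd_of_mul_dvd_mul_left Φ.prime₁.pos h2)
  · intro A l hl h
    obtain ⟨A', H⟩ := exists_comap A h
    have hlt := VC_lt H
    have heq := VC_eq H
    have h1 : h 1 = 1 := map_one h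
    have hnat : ∀ m : ℕ, h (m : Ω) = m := fun m => map_natCast h m
    obtain ⟨a, haΩ, hord⟩ := ha l hl
    have ha0 : a ≠ 0 := by
      intro h0
      apply Φ.ne l hl
      rw [haΩ, h0]
      rfl
    have hl' : l ∈ insert Φ.l₁ Φ.T := Finset.mem_insert_of_mem hl
    have hl₁' : Φ.l₁ ∈ insert Φ.l₁ Φ.T := Finset.mem_insert_self _ _
    constructor
    · intro hl1 hl2
      have h2 : A'.valuation (a : Ω) < 1 := by
        have h3 := (hlt (a : Ω) 1).2 (by rw [← haΩ, hl2, h1, map_one]; exact hl1)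
        rwa [map_one] at h3
      have h3 : Above S A' (C.w l) := above_lt ha0 hord h2
      obtain ⟨m, hm, hm2⟩ := hx l hl'
      have h4 := (val_of_phi (C.pd l (hP l hl')) h3 hm hm2).2.1
      rw [heq, hnat, AlgEquiv.commutes] at h4
      exact h4
    · intro hl1 hl2
      have h2 : 1 < A'.valuation (a : Ω) := by
        have h3 := (hlt 1 (a : Ω)).2 (by
          rw [← haΩ, h1, map_one]
          by_contra h4
          rw [not_lt] at h4
          have h5 : A.valuation (h (Φ.a l)) * A.valuation (Φ.l₁ : Ω) < 1 :=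
            lt_of_le_of_lt (mul_le_of_le_one_left' h4) hl1
          rw [hl2] at h5
          exact lt_irrefl _ h5)
        rwa [map_one] at h3
      have h3 : Above S A' (C.w Φ.l₁) := above_gt ha0 hord h2
      obtain ⟨m, hm, hm2⟩ := hx Φ.l₁ hl₁'
      have h4 := (val_of_phi (C.pd Φ.l₁ (hP Φ.l₁ hl₁')) h3 hm hm2).2.1
      rw [heq, hnat, AlgEquiv.commutes] at h4
      exact h4

end H16E
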