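import Pool.Agent.Lib.H16E.D2
import Pool.Agent.Lib.H16E.A5

/-!
# D3 (M): comparison of two vectors

`A` from `Φ.loc l`: `v(a l) = v(l) < 1`, so `Above S A (w l)` (`above_lt`).  `l ∤ m`: by `hx`,
`φ l x = l m₀` with `l ∤ m₀`, and `l m = l m₀` in `ℤ/l²` gives `m ≡ m₀` modulo `l`; same for `m'`.
`val_of_phi`: `v(x/(l m) - 1) < 1`, `v(x'/(l m') - 1) < 1`, so `x/x' = (m/m') η` with
`v(η - 1) < 1`, `v(m) = v(m') = 1`.  `pts_finalK` (A5; `adK_of_exact`): `v((x/x')^r - 1) < 1` with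
`r = (l-1)/p`, so `v((m/m')^r - 1) < 1`, `v(m^r - m'^r) < 1`, and `dvd_of_val`.
-/

open NumberField IsDedekindDomain H16A

namespace H16E

open H16C

theorem d3_val {Ω : Type*} [Field Ω] (A : ValuationSubring Ω) {a : Ω} (h : A.valuation (a - 1) < 1) :
    A.valuation a = 1 := by
  have e : a = 1 + (a - 1) := by ring
  rw [e]
  have h1 := A.valuation.map_add_eq_of_lt_left (x := 1) (y := a - 1) (by rw [map_one]; exact h)
  rw [h1, map_one]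

theorem d3_pow {Ω : Type*} [Field Ω] (A : ValuationSubring Ω) {a : Ω} (h : A.valuation (a - 1) < 1)
    (r : ℕ) : A.valuation (a ^ r - 1) < 1 := by
  induction r with
  | zero => simp
  | succ r ih =>
    have e : a ^ (r + 1) - 1 = a * (a ^ r - 1) + (a - 1) := by ring
    rw [e]
    refine A.valuation.map_add_lt ?_ h
    rw [map_mul, d3_val A h, one_mul]
    exact ih

theorem d3_mod {l m m₀ : ℕ} (hl : 0 < l) (h : ((l * m : ℕ) : ZMod (l ^ 2)) = ((l * m₀ : ℕ) : ZMod (l ^ 2)))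
    (h0 : ¬ l ∣ m₀) : ¬ l ∣ m := by
  rw [ZMod.natCast_eq_natCast_iff] at h
  have h1 : m ≡ m₀ [MOD l] := by
    rw [pow_two] at h
    exact Nat.ModEq.mul_left_cancel' hl.ne' h
  intro hd
  exact h0 ((h1.dvd_iff (dvd_refl l)).1 hd)

/-- the comparison in a valuation ring -/
theorem d3_cmp {Ω : Type*} [Field Ω] (A : ValuationSubring Ω) {L X X' M M' : Ω} (r : ℕ)
    (hM : A.valuation M = 1) (hM' : A.valuation M' = 1) (hL : L ≠ 0)
    (h : A.valuation (X / (L * M) - 1) < 1) (h' : A.valuation (X' / (L * M') - 1) < 1)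
    (hr : A.valuation ((X / X') ^ r - 1) < 1) : A.valuation (M ^ r - M' ^ r) < 1 := by
  obtain ⟨ξ, hξ⟩ : ∃ ξ, ξ = X / (L * M) := ⟨_, rfl⟩
  obtain ⟨ξ', hξ'⟩ : ∃ ξ', ξ' = X' / (L * M') := ⟨_, rfl⟩
  rw [← hξ] at h
  rw [← hξ'] at h'
  have hM0 : M ≠ 0 := by
    rintro rfl
    rw [map_zero] at hM
    exact zero_ne_one hM
  have hM0' : M' ≠ 0 := by
    rintro rfl
    rw [map_zero] at hM'
    exact zero_ne_one hM'
  have hv' := d3_val A h'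
  have hξ0' : ξ' ≠ 0 := by
    rintro rfl
    rw [map_zero] at hv'
    exact zero_ne_one hv'
  have hX : X = L * M * ξ := by
    rw [hξ]
    field_simp
  have hX' : X' = L * M' * ξ' := by
    rw [hξ']
    field_simp
  have e1 : M ^ r * ξ ^ r - M' ^ r * ξ' ^ r = (M' * ξ') ^ r * ((X / X') ^ r - 1) := by
    rw [hX, hX', mul_sub, ← mul_pow (M' * ξ'), mul_one]
    have : M' * ξ' * (L * M * ξ / (L * M' * ξ')) = M * ξ := by
      field_simp
    rw [this, mul_pow, mul_pow]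
  have h1 : A.valuation (M ^ r * ξ ^ r - M' ^ r * ξ' ^ r) < 1 := by
    rw [e1, map_mul, map_pow, map_mul, hM', hv', one_mul, one_pow, one_mul]
    exact hr
  have h2 : A.valuation (M ^ r * (ξ ^ r - 1)) < 1 := by
    rw [map_mul, map_pow, hM, one_pow, one_mul]
    exact d3_pow A h r
  have h3 : A.valuation (M' ^ r * (ξ' ^ r - 1)) < 1 := by
    rw [map_mul, map_pow, hM', one_pow, one_mul]
    exact d3_pow A h' r
  have e2 : M ^ r - M' ^ r = (M ^ r * ξ ^ r - M' ^ r * ξ' ^ r) - M ^ r * (ξ ^ r - 1) + M' ^ r * (ξ' ^ r - 1) := by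
    ring
  rw [e2]
  refine A.valuation.map_add_lt (lt_of_le_of_lt (A.valuation.map_sub _ _) (max_lt h1 h2)) h3

variable {k : Type*} [Field k] [NumberField k] {Ω : Type*} [Field Ω] [Algebra k Ω] [IsAlgClosed Ω]
  [Algebra.IsAlgebraic k Ω] [CharZero Ω] [DecidableEq Ω] {W : WeierstrassCurve.Affine k}
  [W.IsShortNF] [W.IsElliptic] {n b : ℕ} [NeZero n] {S : Setup W Ω n}

open Classical in
theorem compare (hb : Bad W Ω n b) [NumberField S.L] (C : Cls S b) (Φ : Fam S b)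
    (hP : ∀ l ∈ insert Φ.l₁ Φ.T, l ∈ C.P)
    (ha : ∀ l ∈ Φ.T, ∃ a : S.L, Φ.a l = (a : Ω) ∧
      ∀ u, ord u a = (if u = C.w l then 1 else 0) - (if u = C.w Φ.l₁ then 1 else 0))
    {x x' : 𝓞 k} (hx : ∀ l ∈ insert Φ.l₁ Φ.T, Ex C.φ l x)
    (hx' : ∀ l ∈ insert Φ.l₁ Φ.T, Ex C.φ l x') {δ δ' : Ω} (hδ : δ ^ n = algebraMap k Ω (x : k))
    (hδ' : δ' ^ n = algebraMap k Ω (x' : k)) (y : Φ.T → ZMod n)
    {Q Q' P P' P₂ : Pt W Ω} (hQ : Φ.Triv y δ Q) (hQ' : Φ.Triv y δ' Q')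
    (hPt : Φ.IsTrace y Q P) (hPt' : Φ.IsTrace y Q' P') (h2 : P - P' = n • P₂)
    (hP2 : ∀ g ∈ S.N, rho W g P₂ = P₂) (l : Φ.T)
    {p : ℕ} (hp : p.Prime) (hpn : p ∣ n) (hy : y l ≠ 0)
    (hyp : ∃ u : ZMod n, y l = ((n / p : ℕ) : ZMod n) * u) {m m' : ℕ}
    (hm : C.φ l x = (((l : ℕ) * m : ℕ) : ZMod ((l : ℕ) ^ 2)))
    (hm' : C.φ l x' = (((l : ℕ) * m' : ℕ) : ZMod ((l : ℕ) ^ 2))) :
    ((l : ℕ) : ℤ) ∣ (m : ℤ) ^ (((l : ℕ) - 1) / p) - (m' : ℤ) ^ (((l : ℕ) - 1) / p) := by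
  obtain ⟨A, hA⟩ := Φ.loc l l.2
  obtain ⟨a, haa, hord⟩ := ha l l.2
  have hl : (l : ℕ).Prime := Φ.prime l l.2
  have hlm : (l : ℕ) ∈ insert Φ.l₁ Φ.T := Finset.mem_insert_of_mem l.2
  have hpd := C.pd l (hP l hlm)
  have ha0 : a ≠ 0 := by
    rintro rfl
    exact Φ.ne l l.2 haa
  have hab : Above S A (C.w l) := by
    refine above_lt ha0 hord ?_
    rw [← haa, hA.eq]
    exact hA.lt
  obtain ⟨m₀, hm₀, hx0⟩ := hx l hlm
  obtain ⟨m₀', hm₀', hx0'⟩ := hx' l hlm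
  have hnm : ¬ (l : ℕ) ∣ m := d3_mod hl.pos (hm.symm.trans hx0) hm₀
  have hnm' : ¬ (l : ℕ) ∣ m' := d3_mod hl.pos (hm'.symm.trans hx0') hm₀'
  obtain ⟨-, -, h3⟩ := val_of_phi hpd hab hnm hm
  obtain ⟨-, -, h3'⟩ := val_of_phi hpd hab hnm' hm'
  have hfin := pts_finalK Φ y hb (adK_of_exact C Φ hP ha hx) (adK_of_exact C Φ hP ha hx') hδ hδ' hQ hQ'
    hPt hPt' h2 hP2 l hA hp hpn hy hyp
  have hv : ∀ {m : ℕ}, ¬ (l : ℕ) ∣ m → A.valuation (m : Ω) = 1 := by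
    intro m hm
    refine le_antisymm (by simpa using int_le A (m : ℤ)) ?_
    by_contra hlt
    rw [not_le] at hlt
    have h1 := dvd_of_val hl hA.lt (z := (m : ℤ)) (by simpa using hlt)
    exact hm (by exact_mod_cast h1)
  refine dvd_of_val hl hA.lt ?_
  push_cast at h3 h3' ⊢
  exact d3_cmp A _ (hv hnm) (hv hnm') (by exact_mod_cast hl.ne_zero) h3 h3' hfin

end H16E
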