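import Pool.Agent.Lib.H16C.FN3
import Pool.Agent.Lib.H16C.MW3
import Pool.Agent.Lib.H16E.A3
import Pool.Agent.Lib.H16E.A8
import Pool.Agent.Lib.H16E.D3

/-!
# D4 (M): the counting system attached to an elliptic curve

`GoodD W n r D`: for every `δ` with `δ^n = D` the field `k(δ)` has degree `n` over `k` and
`Sha(E/k(δ))` contains `(ℤ/n)^r`.  `Bd r` = the set of the `x` with `¬ GoodD W n r (∑ x i ω i)`.
`e` = the coordinates of `1` in the basis `ω`, `φ l` = `C.φ l` composed with `x ↦ ∑ x i • ω i`.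
`h`, `cl` from `mw_class S`.
`link`: `T`, `l₁`, `r`.  `C.fam` gives `Φ` with `Φ.T = T`, `Φ.l₁ = l₁` (`obtain ⟨Φ, rfl, rfl, ha⟩`).
For every `D ∈ 𝓞 k` choose `δ_D` with `δ_D^n = D`, such that, if `D` is not good, `δ_D` violates the
condition of `GoodD` (`Classical.choose`; `Ω` is algebraically closed).  `Z x = {y | ∃ Q, Φ.Triv y δ_D Q}`,
`D = ∑ x i ω i`.  For `x`, `y` with `y ∈ Z x` and `Ex` for all `l ∈ T ∪ {l₁}` choose `Q`, `P` with
`Φ.Triv y δ_D Q`, `Φ.IsTrace y Q P` (`exists_traceK`, A3; `adK_of_exact`); `c x y = cl P`.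
(ii) is `compare` (D3), `mw_class`.
(i): let `x ∈ Bd r`, exact, and suppose that for all primes `p ∣ n`
`Nat.card {y ∈ Z x | ...} p^r ≤ p^(#T)`.  `k(δ_D)` is a number field (finite over `k`), of degree `n`
over `k` (`finrank_adjoinK`, A1; `T` is not empty), `sha_homK` (A8) gives `F` with
`F y = 0 ↔ ∃ Q, Φ.Triv y δ_D Q`, and `embed` (H16C/FN3) gives an injective
`(Fin r → ZMod n) →+ Sha`: so `δ_D` satisfies the condition of `GoodD`, contradiction.
(See the proofs of `H16C.few` (IM.lean) and `H16C.main` (Main.lean).)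
-/

open NumberField IsDedekindDomain H16A IntermediateField

namespace H16E

open H16C

open Classical in
/-- for every `δ` with `δ^n = D`: `k(δ)` is of degree `n` over `k` and `Sha(E/k(δ))` contains
`(ℤ/n)^r` -/
def GoodD {k : Type*} [Field k] [NumberField k] (W : WeierstrassCurve.Affine k) (n r : ℕ)
    (D : 𝓞 k) : Prop :=
  ∀ δ : AlgebraicClosure k, δ ^ n = algebraMap k (AlgebraicClosure k) (D : k) →
    ∃ _ : NumberField k⟮δ⟯, Module.finrank k k⟮δ⟯ = n ∧
      ∃ f : (Fin r → ZMod n) →+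
        Sha (WeierstrassCurve.Affine.baseChange W k⟮δ⟯) (AlgebraicClosure k), Function.Injective f

open Classical in
theorem exists_sys {k : Type*} [Field k] [NumberField k] {W : WeierstrassCurve.Affine k}
    [W.IsShortNF] [W.IsElliptic] {n b : ℕ} [NeZero n] {S : Setup W (AlgebraicClosure k) n}
    (hb : Bad W (AlgebraicClosure k) n b) [NumberField S.L] (C : Cls S b) :
    ∃ h : ℕ, ∀ (ι : Type) [Fintype ι] (ω : Module.Basis ι ℤ (𝓞 k)),
      ∃ Γ : Sys n h C.N ι, Γ.P = C.P ∧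
        ∀ (r : ℕ) (x : ι → ℤ), x ∈ Γ.Bd r ↔ ¬ GoodD W n r (∑ i, x i • ω i) := by
  have hn : n ≠ 0 := NeZero.ne n
  obtain ⟨h, cl, hcl⟩ := mw_class S
  refine ⟨h, fun ι _ ω => ?_⟩
  obtain ⟨tot, htot⟩ : ∃ tot : (ι → ℤ) →+ 𝓞 k, ∀ x, tot x = ∑ i, x i • ω i :=
    ⟨AddMonoidHom.mk' (fun x => ∑ i, x i • ω i) (by
      intro x y
      simp only [Pi.add_apply, add_smul, Finset.sum_add_distrib]), fun x => rfl⟩
  refine ⟨{ P := C.P, e := ω.equivFun 1, φ := fun l => (C.φ l).comp tot, cls := C.cls,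
            Bd := fun r => {x | ¬ GoodD W n r (tot x)},
            prime := fun l hl => (C.pd l hl).prime, dvd := C.dvd, one := ?_, link := ?_ },
            rfl, fun r x => ?_⟩
  · intro l hl
    rw [AddMonoidHom.comp_apply, htot, Module.Basis.sum_equivFun]
    exact (C.pd l hl).one
  · intro T l₁ hT hcls hl₁ hnot r
    obtain ⟨Φ, hΦT, hΦl, ha⟩ := C.fam T l₁ hcls hl₁ hnot
    subst hΦT
    subst hΦl
    have hP : ∀ l ∈ insert Φ.l₁ Φ.T, l ∈ C.P := by
      intro l hl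
      rcases Finset.mem_insert.1 hl with h1 | h1
      · rw [h1]
        exact hl₁
      · exact (hcls l h1).1
    have hδ : ∀ D : 𝓞 k, ∃ δ : AlgebraicClosure k,
        δ ^ n = algebraMap k (AlgebraicClosure k) (D : k) ∧
        (¬ GoodD W n r D → ¬ (∃ _ : NumberField k⟮δ⟯, Module.finrank k k⟮δ⟯ = n ∧
          ∃ f : (Fin r → ZMod n) →+
            Sha (WeierstrassCurve.Affine.baseChange W k⟮δ⟯) (AlgebraicClosure k),
            Function.Injective f)) := by
      intro D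
      by_cases hD : GoodD W n r D
      · obtain ⟨δ, hδ⟩ := IsAlgClosed.exists_pow_nat_eq
          (algebraMap k (AlgebraicClosure k) (D : k)) (Nat.pos_of_ne_zero hn)
        exact ⟨δ, hδ, fun h1 => absurd hD h1⟩
      · have h1 := hD
        unfold GoodD at h1
        rw [not_forall] at h1
        obtain ⟨δ, h2⟩ := h1
        rw [Classical.not_imp] at h2
        exact ⟨δ, h2.1, fun _ => h2.2⟩
    choose δ hδ hbad using hδ
    have hex : ∀ (D : 𝓞 k) (y : Φ.T → ZMod n), ∃ Q P : Pt W (AlgebraicClosure k),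
        AdK Φ (D : k) → (∃ Q, Φ.Triv y (δ D) Q) → Φ.Triv y (δ D) Q ∧ Φ.IsTrace y Q P := by
      intro D y
      by_cases h1 : AdK Φ (D : k) ∧ ∃ Q, Φ.Triv y (δ D) Q
      · obtain ⟨hd, Q, hQ⟩ := h1
        obtain ⟨P, hP⟩ := exists_traceK Φ y hb hT hd (hδ D) hQ
        exact ⟨Q, P, fun _ _ => ⟨hQ, hP⟩⟩
      · exact ⟨0, 0, fun h2 h3 => absurd ⟨h2, h3⟩ h1⟩
    choose Q P hQP using hex
    refine ⟨fun x => {y | ∃ Q, Φ.Triv y (δ (tot x)) Q}, fun x y => cl (P (tot x) y), ?_, ?_⟩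
    · intro x hx hxe
      have hd : AdK Φ ((tot x : 𝓞 k) : k) := adK_of_exact C Φ hP ha hxe
      by_contra hcon
      push Not at hcon
      have hfin : FiniteDimensional k k⟮δ (tot x)⟯ :=
        adjoin.finiteDimensional
          (Algebra.IsAlgebraic.isAlgebraic (R := k) (δ (tot x))).isIntegral
      have hNF : NumberField k⟮δ (tot x)⟯ := by
        have := Module.Finite.trans (R := ℚ) k k⟮δ (tot x)⟯
        exact ⟨⟩
      have hdeg := finrank_adjoinK Φ hT hd (hδ (tot x))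
      obtain ⟨F, hF⟩ := sha_homK hb Φ hd (hδ (tot x))
      refine hbad (tot x) hx ⟨hNF, hdeg, embed F r fun p hpp hpn => ?_⟩
      have h4 : Nat.card {y : Φ.T → ZMod n // F y = 0 ∧
          ∀ i, ∃ u : ZMod n, y i = ((n / p : ℕ) : ZMod n) * u} =
          Nat.card {y : Φ.T → ZMod n // y ∈ {y | ∃ Q, Φ.Triv y (δ (tot x)) Q} ∧
            ∀ i, ∃ u : ZMod n, y i = ((n / p : ℕ) : ZMod n) * u} := by
        refine Nat.card_congr (Equiv.subtypeEquivRight fun y => ?_)
        rw [hF y]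
        rfl
      rw [h4, Fintype.card_coe]
      exact hcon p hpp hpn
    · intro x x' hx hx' y hy hy' hc p hp hpn hyp l hyl m m' hm hm'
      have hd : AdK Φ ((tot x : 𝓞 k) : k) := adK_of_exact C Φ hP ha hx
      have hd' : AdK Φ ((tot x' : 𝓞 k) : k) := adK_of_exact C Φ hP ha hx'
      have h1 := hQP (tot x) y hd hy
      have h2 := hQP (tot x') y hd' hy'
      obtain ⟨P₂, hP₂, hPP⟩ := hcl _ _ h1.2.1 h2.2.1 hc
      exact compare hb C Φ hP ha (x := tot x) (x' := tot x') hx hx' (hδ (tot x)) (hδ (tot x')) y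
        h1.1 h2.1 h1.2 h2.2 hPP hP₂ l hp hpn hyl (hyp l) hm hm'
  · rw [← htot x]
    rfl

end H16E
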