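import Pool.Agent.Lib.H16E.Main

/-!
# Large Tate-Shafarevich groups over almost all the fields k(D^(1/n))

`k` any number field, `E : y² = x³ + A x + B` any elliptic curve over `k`, `n ≥ 2`.  There is `c > 0`
such that, in any `ℤ`-basis `ω` of the ring of integers of `k`, for all `D = ∑ x i ω i`, `|x i| ≤ X`,
outside a set of proportion tending to `0` as `X → ∞`, and for EVERY `δ` with `δ^n = D`, the field
`k(δ)` has degree `n` over `k` and `Sha(E/k(δ))` contains `(ℤ/n)^r` with `r ≥ c log log X`.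
-/

open IsDedekindDomain NumberField IntermediateField

namespace H16E.Draft

/-- the Weierstrass curve `y² = x³ + A x + B` -/
def curve {k : Type} [Field k] (A B : k) : WeierstrassCurve.Affine k where
  a₁ := 0
  a₂ := 0
  a₃ := 0
  a₄ := A
  a₆ := B

theorem curve_short {k : Type} [Field k] (A B : k) : (curve A B).IsShortNF := ⟨rfl, rfl, rfl⟩

theorem curve_elliptic {k : Type} [Field k] [CharZero k] (A B : k) (h : 4 * A ^ 3 + 27 * B ^ 2 ≠ 0) :
    (curve A B).IsElliptic := by
  refine ⟨?_⟩
  have h1 : (curve A B).Δ = -16 * (4 * A ^ 3 + 27 * B ^ 2) := by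
    simp [curve, WeierstrassCurve.Δ, WeierstrassCurve.b₂, WeierstrassCurve.b₄,
      WeierstrassCurve.b₆, WeierstrassCurve.b₈]
    ring
  rw [h1, isUnit_iff_ne_zero]
  exact mul_ne_zero (by norm_num) h

/-- `Sha(E/K)` for `E : y² = x³ + A x + B` and a finite extension `K` of `k` inside the algebraic
closure of `k` -/
def ShaOver {k : Type} [Field k] (A B : k) (K : IntermediateField k (AlgebraicClosure k))
    [NumberField K] : Type :=
  H16C.Sha (WeierstrassCurve.Affine.baseChange (curve A B) K) (AlgebraicClosure k)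

noncomputable instance {k : Type} [Field k] (A B : k)
    (K : IntermediateField k (AlgebraicClosure k)) [NumberField K] : AddCommGroup (ShaOver A B K) :=
  H16C.Sha.instAddCommGroup _ _

/-- the group `G` contains a subgroup isomorphic to `(ℤ/n)^r` -/
def Contains (G : Type) [AddCommGroup G] (n r : ℕ) : Prop :=
  ∃ f : (Fin r → ZMod n) →+ G, Function.Injective f

/-- for every `δ` with `δ^n = D`: `k(δ)` is a number field of degree `n` over `k`, and
`Sha(E/k(δ))` contains `(ℤ/n)^r` for some `r ≥ R` -/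
def Good {k : Type} [Field k] (A B : k) (n : ℕ) (R : ℝ) (D : 𝓞 k) : Prop :=
  ∀ δ : AlgebraicClosure k, δ ^ n = algebraMap k (AlgebraicClosure k) (D : k) →
    ∃ _ : NumberField k⟮δ⟯, Module.finrank k k⟮δ⟯ = n ∧
      ∃ r : ℕ, R ≤ r ∧ Contains (ShaOver A B k⟮δ⟯) n r

/-- the vectors with integral coordinates at most `X` in absolute value -/
def Box (ι : Type) (X : ℕ) : Set (ι → ℤ) := {x | ∀ i, |x i| ≤ X}

theorem result (k : Type) [Field k] [NumberField k] (A B : k) (h : 4 * A ^ 3 + 27 * B ^ 2 ≠ 0)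
    (n : ℕ) (hn : 2 ≤ n) : ∃ c : ℝ, 0 < c ∧
      ∀ (ι : Type) [Fintype ι] (ω : Module.Basis ι ℤ (𝓞 k)),
        Filter.Tendsto (fun X : ℕ =>
          (Nat.card {x : ι → ℤ // x ∈ Box ι X ∧
            Good A B n (c * Real.log (Real.log X)) (∑ i, x i • ω i)} : ℝ) /
          (Nat.card (Box ι X) : ℝ)) Filter.atTop (nhds 1) := by
  classical
  have := curve_elliptic A B h
  have := curve_short A B
  obtain ⟨c, hc, hmain⟩ := H16E.main (curve A B) n hn
  refine ⟨c, hc, fun ι _ ω => ?_⟩
  have h1 := hmain ι ω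
  have hb : ∀ X : ℕ, (Nat.card (Box ι X) : ℝ) = ((box ι X).card : ℝ) := by
    intro X
    have h2 : Box ι X = ((box ι X : Finset (ι → ℤ)) : Set (ι → ℤ)) := by
      ext x
      rw [Finset.mem_coe, mem_box]
      rfl
    rw [h2, Nat.card_coe_set_eq, Set.ncard_coe_finset]
  have hg : ∀ (D : 𝓞 k) (X : ℕ), GoodD (curve A B) n ⌈c * Real.log (Real.log X)⌉₊ D →
      Good A B n (c * Real.log (Real.log X)) D := by
    intro D X hD δ hδ
    obtain ⟨hN, h3, f, hf⟩ := hD δ hδ
    exact ⟨hN, h3, _, Nat.le_ceil _, f, hf⟩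
  refine tendsto_of_tendsto_of_tendsto_of_le_of_le h1 tendsto_const_nhds (fun X => ?_) (fun X => ?_)
  · dsimp only
    rw [hb X]
    refine div_le_div_of_nonneg_right ?_ (Nat.cast_nonneg _)
    have h4 : Nat.card {x : ι → ℤ // x ∈ Box ι X ∧
        Good A B n (c * Real.log (Real.log X)) (∑ i, x i • ω i)} =
        ((box ι X).filter fun x => Good A B n (c * Real.log (Real.log X)) (∑ i, x i • ω i)).card := by
      rw [← Set.ncard_coe_finset, ← Nat.card_coe_set_eq]
      refine Nat.card_congr (Equiv.subtypeEquivRight fun x => ?_)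
      rw [Finset.coe_filter, Set.mem_ofPred_eq, mem_box]
      rfl
    rw [h4]
    exact_mod_cast Finset.card_le_card fun x hx => by
      rw [Finset.mem_filter] at hx ⊢
      exact ⟨hx.1, hg _ _ hx.2⟩
  · dsimp only
    have h5 : (0 : ℝ) < ((box ι X).card : ℝ) := by
      rw [card_box]
      positivity
    rw [hb X, div_le_one h5]
    have hfin : Finite (Box ι X) := by
      apply Nat.finite_of_card_ne_zero
      intro h6
      have h7 := hb X
      rw [h6, Nat.cast_zero] at h7
      exact h5.ne h7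
    rw [← hb X]
    exact_mod_cast Nat.card_le_card_of_injective
      (fun x : {x : ι → ℤ // x ∈ Box ι X ∧
        Good A B n (c * Real.log (Real.log X)) (∑ i, x i • ω i)} => (⟨x.1, x.2.1⟩ : Box ι X))
      (fun x y hxy => Subtype.ext (congrArg (fun z : Box ι X => (z : ι → ℤ)) hxy))

end H16E.Draft
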