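import Pool.Agent.Lib.H16E.D4
import Pool.Agent.Lib.H16E.C6
import Pool.Agent.Lib.H16E.B10
import Pool.Agent.Lib.H16C.SE1
import Pool.Agent.Lib.H16C.SE2

/-!
# Main: almost all `D ∈ 𝓞 k`
-/

open NumberField IsDedekindDomain H16A IntermediateField Finset Filter Topology

namespace H16E

open H16C

open Classical in
theorem main {k : Type*} [Field k] [NumberField k] (W : WeierstrassCurve.Affine k) [W.IsShortNF]
    [W.IsElliptic] (n : ℕ) (hn : 2 ≤ n) :
    ∃ c : ℝ, 0 < c ∧ ∀ (ι : Type) [Fintype ι] (ω : Module.Basis ι ℤ (𝓞 k)),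
      Tendsto (fun X : ℕ =>
        (((box ι X).filter fun x =>
          GoodD W n ⌈c * Real.log (Real.log X)⌉₊ (∑ i, x i • ω i)).card : ℝ) /
          ((box ι X).card : ℝ)) atTop (𝓝 1) := by
  have hn0 : 0 < n := by omega
  have : NeZero n := ⟨hn0.ne'⟩
  obtain ⟨S⟩ := exists_setup (AlgebraicClosure k) W n hn0
  obtain ⟨b, hb⟩ := exists_bad (AlgebraicClosure k) W n hn0
  haveI := S.fin
  haveI : NumberField S.L := NumberField.of_module_finite k S.L
  obtain ⟨C, hCN⟩ := exists_Cls S hb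
  obtain ⟨h, hsys⟩ := exists_sys hb C
  obtain ⟨c₀, hc₀, hgrow⟩ := C.grow
  obtain ⟨c, hc, hana⟩ := ana n hn h C.N hCN c₀ hc₀
  refine ⟨c, hc, fun ι _ ω => ?_⟩
  obtain ⟨Γ, hΓP, hΓ⟩ := hsys ι ω
  have h1 := hana ι Γ (by rw [hΓP]; exact hgrow)
  have h2 : (fun X : ℕ =>
        (((box ι X).filter fun x =>
          GoodD W n ⌈c * Real.log (Real.log X)⌉₊ (∑ i, x i • ω i)).card : ℝ) /
          ((box ι X).card : ℝ)) = fun X : ℕ => 1 -
        (((box ι X).filter fun x => x ∈ Γ.Bd ⌈c * Real.log (Real.log X)⌉₊).card : ℝ) /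
          ((box ι X).card : ℝ) := by
    funext X
    have h3 : ((box ι X).filter fun x => x ∈ Γ.Bd ⌈c * Real.log (Real.log X)⌉₊) =
        (box ι X).filter fun x =>
          ¬ GoodD W n ⌈c * Real.log (Real.log X)⌉₊ (∑ i, x i • ω i) := by
      ext x
      rw [mem_filter, mem_filter, hΓ]
    have h4 := Finset.card_filter_add_card_filter_not (s := box ι X)
      (fun x => GoodD W n ⌈c * Real.log (Real.log X)⌉₊ (∑ i, x i • ω i))
    have h5 : ((box ι X).card : ℝ) ≠ 0 := by
      rw [card_box]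
      positivity
    rw [h3, ← h4]
    rw [← h4] at h5
    field_simp
    push_cast
    ring
  rw [h2]
  have h6 := h1.const_sub 1
  rwa [sub_zero] at h6

end H16E
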